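import Mathlib

/-!
# Stable matchings of an instance given by a sequence of rotations

A run is a sequence of matchings `W 0, …, W N`; between `W t` and `W (t+1)` the men of one cycle
are rematched.  No man gets back a woman he has left.  The preferences of the men list the women in
the order in which they get them, those of the women list the men in reverse order.  Then the
stable matchings correspond to the sets of times closed under the relation of sharing a man.
-/

namespace Pool.Agent.H276R3

open Equiv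

/-- a run -/
structure Run (X : Type) (N : ℕ) where
  /-- `W t m` is the woman of `m` at time `t` -/
  W : ℕ → Perm X
  conv : ∀ m s t u, s ≤ t → t ≤ u → u ≤ N → W s m = W u m → W t m = W s m
  cyc : ∀ t < N, ∀ P : X → Prop,
    (∀ x y, W (t + 1) x ≠ W t x → W t y = W (t + 1) x → P x → P y) →
    ∀ x y, W (t + 1) x ≠ W t x → W (t + 1) y ≠ W t y → P x → P y
  ne : ∀ t < N, ∃ x, W (t + 1) x ≠ W t x

variable {X : Type} {N : ℕ}

/-- the man `x` is rematched at time `t` -/
def Run.D (R : Run X N) (t : ℕ) (x : X) : Prop := R.W (t + 1) x ≠ R.W t x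

/-- the woman `w` is rematched at time `t` -/
def Run.E (R : Run X N) (t : ℕ) (w : X) : Prop := (R.W (t + 1)).symm w ≠ (R.W t).symm w

/-- preferences compatible with the run -/
structure Run.Pref (R : Run X N) (r q : X → X → ℕ) : Prop where
  men : ∀ m s w, s ≤ N → (∀ t ≤ s, R.W t m ≠ w) → r m (R.W s m) < r m w
  women : ∀ w s m, s ≤ N → (∀ t, s ≤ t → t ≤ N → (R.W t).symm w ≠ m) →
    q w ((R.W s).symm w) < q w m

/-- stability -/
def StableP (r q : X → X → ℕ) (M : Perm X) : Prop :=
  ∀ m w, ¬ (r m w < r m (M m) ∧ q w m < q w (M.symm w))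

/-- a set of times is closed -/
def Run.Closed (R : Run X N) (S : ℕ → Prop) : Prop :=
  ∀ t t' x, t < t' → t' < N → R.D t x → R.D t' x → S t' → S t

/-- the man `x` has been rematched after time `t` in `M` -/
def Run.mv (R : Run X N) (M : Perm X) (t : ℕ) (x : X) : Prop :=
  ∃ s, t < s ∧ s ≤ N ∧ R.W s x = M x

/-- the set of times of a stable matching -/
def Run.sg (R : Run X N) (M : Perm X) (t : ℕ) : Prop := t < N ∧ ∃ x, R.D t x ∧ R.mv M t x

section

variable (R : Run X N)

/-- a change between two times -/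
theorem exists_change {f : ℕ → X} : ∀ {s u : ℕ}, s ≤ u → f s ≠ f u →
    ∃ t, s ≤ t ∧ t < u ∧ f t = f s ∧ f (t + 1) ≠ f t := by
  intro s u h hne
  classical
  by_contra hcon
  push Not at hcon
  have : ∀ t, s ≤ t → t ≤ u → f t = f s := by
    intro t h1
    induction t, h1 using Nat.le_induction with
    | base => intro _; rfl
    | succ t h1 ih =>
      intro h2
      have h3 := ih (by omega)
      rw [hcon t h1 (by omega) h3, h3]
  exact hne (this u h le_rfl).symm

theorem exists_change' {f : ℕ → X} {s u : ℕ} (h : s ≤ u) (hne : f s ≠ f u) :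
    ∃ t, s ≤ t ∧ t < u ∧ f (t + 1) = f u ∧ f (t + 1) ≠ f t := by
  classical
  by_contra hcon
  push Not at hcon
  have : ∀ k, s ≤ u - k → f (u - k) = f u := by
    intro k
    induction k with
    | zero => intro _; rfl
    | succ k ih =>
      intro h2
      by_cases hk : k < u
      · have h3 := ih (by omega)
        have h4 : u - (k + 1) + 1 = u - k := by omega
        have h5 := hcon (u - (k + 1)) h2 (by omega) (by rw [h4]; exact h3)
        rw [h4] at h5
        rw [← h5, h3]
      · have : u - (k + 1) = u - k := by omega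
        rw [this]
        exact ih (by omega)
  apply hne
  have := this (u - s) (by omega)
  rwa [show u - (u - s) = s by omega] at this

theorem Run.E_of_D {t : ℕ} {x : X} (h : R.D t x) : R.E t (R.W t x) := by
  intro h1
  rw [Equiv.symm_apply_apply] at h1
  apply h
  rw [Equiv.symm_apply_eq] at h1
  exact h1.symm

theorem Run.D_of_E {t : ℕ} {w : X} (h : R.E t w) : R.D t ((R.W t).symm w) := by
  intro h1
  rw [Equiv.apply_symm_apply] at h1
  apply h
  rw [Equiv.symm_apply_eq]
  exact h1.symm

theorem Run.D_of_E' {t : ℕ} {w : X} (h : R.E t w) : R.D t ((R.W (t + 1)).symm w) := by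
  intro h1
  rw [Equiv.apply_symm_apply] at h1
  apply h
  rw [Equiv.eq_symm_apply]
  exact h1.symm

theorem Run.E_of_D' {t : ℕ} {x : X} (h : R.D t x) : R.E t (R.W (t + 1) x) := by
  intro h1
  rw [Equiv.symm_apply_apply] at h1
  apply h
  rw [Equiv.eq_symm_apply] at h1
  exact h1.symm

variable {r q : X → X → ℕ} (hp : R.Pref r q) {M : Perm X} (hM : StableP r q M)

include hp hM in
theorem Run.short (x : X) : ∃ s ≤ N, R.W s x = M x := by
  by_contra hcon
  push Not at hcon
  have h1 : r x (R.W N x) < r x (M x) := hp.men x N (M x) le_rfl fun t ht => hcon t ht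
  have h2 : q (R.W N x) ((R.W N).symm (R.W N x)) < q (R.W N x) (M.symm (R.W N x)) := by
    refine hp.women _ N _ le_rfl fun t h3 h4 => ?_
    have : t = N := by omega
    subst this
    rw [Equiv.symm_apply_apply]
    intro h5
    apply hcon t le_rfl
    rw [Equiv.eq_symm_apply] at h5
    exact h5.symm
  rw [Equiv.symm_apply_apply] at h2
  exact hM x _ ⟨h1, h2⟩

include hp hM in
theorem Run.agree : ∀ t < N, ∀ x y, R.D t x → R.D t y → R.mv M t x → R.mv M t y := by
  intro t
  induction t using Nat.strong_induction_on with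
  | _ t IH =>
  intro ht
  refine R.cyc t ht (R.mv M t) ?_
  intro x y hx hxy hmx
  set w := R.W (t + 1) x with hw
  obtain ⟨s, hs1, hs2, hs3⟩ := hmx
  -- the partner of `w` holds her after time `t`
  have hp1 : ∃ s', t + 1 ≤ s' ∧ s' ≤ N ∧ R.W s' (M.symm w) = w := by
    by_cases h : M x = w
    · refine ⟨t + 1, le_rfl, ht, ?_⟩
      rw [← h, Equiv.symm_apply_apply, h]
    · by_contra hcon
      push Not at hcon
      have h1 : r x w < r x (M x) := by
        refine hp.men x (t + 1) (M x) ht fun t' ht' he => ?_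
        apply h
        rw [← he]
        exact (R.conv x t' (t + 1) s ht' hs1 hs2 (by rw [he, hs3])).symm
      have h2 : q w ((R.W (t + 1)).symm w) < q w (M.symm w) := by
        refine hp.women w (t + 1) _ ht fun t' h3 h4 he => ?_
        apply hcon t' h3 h4
        rw [← he, Equiv.apply_symm_apply]
      rw [hw, Equiv.symm_apply_apply, ← hw] at h2
      exact hM x w ⟨h1, h2⟩
  obtain ⟨s', h1, h2, h3⟩ := hp1
  have hxy' : x ≠ y := by
    intro h
    subst h
    exact hx hxy.symm
  -- nobody who had `w` at time `≤ t` has her in `M`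
  have hno : ∀ t' ≤ t, R.W t' (M.symm w) ≠ w := by
    intro t' ht' he
    have e1 := R.conv (M.symm w) t' t s' ht' (by omega) h2 (by rw [he, h3])
    have e2 := R.conv (M.symm w) t' (t + 1) s' (by omega) h1 h2 (by rw [he, h3])
    rw [he] at e1 e2
    apply hxy'
    have e3 := (R.W t).injective (e1.trans hxy.symm)
    have e4 := (R.W (t + 1)).injective (e2.trans hw)
    rw [← e3, ← e4]
  by_contra hny
  have hy : ∃ a ≤ t, R.W a y = M y := by
    obtain ⟨a, ha, he⟩ := R.short hp hM y
    by_cases hat : a ≤ t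
    · exact ⟨a, hat, he⟩
    · exact absurd ⟨a, by omega, ha, he⟩ hny
  have key : ∀ k ≤ t, ∃ a ≤ t - k, R.W a ((R.W (t - k)).symm w) = M ((R.W (t - k)).symm w) := by
    intro k
    induction k with
    | zero =>
      intro _
      rw [Nat.sub_zero, ← hxy, Equiv.symm_apply_apply]
      exact hy
    | succ k ih =>
      intro hk
      obtain ⟨a, ha, he⟩ := ih (by omega)
      set t' := t - (k + 1) with ht'
      have e1 : t - k = t' + 1 := by omega
      rw [e1] at ha he
      set z1 := (R.W (t' + 1)).symm w with hz1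
      set z0 := (R.W t').symm w with hz0
      have hz1w : R.W (t' + 1) z1 = w := by rw [hz1, Equiv.apply_symm_apply]
      have hz0w : R.W t' z0 = w := by rw [hz0, Equiv.apply_symm_apply]
      have ha' : a ≤ t' := by
        rcases Nat.lt_or_ge t' a with hlt | hge
        · exfalso
          have : a = t' + 1 := by omega
          rw [this, hz1w] at he
          apply hno (t' + 1) (by omega)
          rw [he, Equiv.symm_apply_apply]
          rw [← he]
          exact hz1w
        · exact hge
      by_cases hz : z0 = z1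
      · exact ⟨a, ha', by rw [hz]; exact he⟩
      · have hD1 : R.D t' z1 := by
          intro h
          apply hz
          apply (R.W t').injective
          rw [hz0w, ← h, hz1w]
        have hD0 : R.D t' z0 := by
          intro h
          apply hz
          apply (R.W (t' + 1)).injective
          rw [h, hz0w, hz1w]
        have hn1 : ¬ R.mv M t' z1 := by
          rintro ⟨s, g1, g2, g3⟩
          apply hD1
          have e2 := R.conv z1 a t' s ha' g1.le g2 (by rw [he, g3])
          have e3 := R.conv z1 a (t' + 1) s (by omega) g1 g2 (by rw [he, g3])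
          rw [e2, e3]
        have hn0 : ¬ R.mv M t' z0 := fun h => hn1 (IH t' (by omega) (by omega) z0 z1 hD0 hD1 h)
        obtain ⟨b, hb, hbe⟩ := R.short hp hM z0
        refine ⟨b, ?_, hbe⟩
        by_contra hcon
        exact hn0 ⟨b, by omega, hb, hbe⟩
  obtain ⟨a, ha, he⟩ := key t le_rfl
  have ha0 : a = 0 := by omega
  subst ha0
  rw [Nat.sub_self, Equiv.apply_symm_apply] at he
  apply hno 0 (Nat.zero_le _)
  have : M.symm w = (R.W 0).symm w := by rw [Equiv.symm_apply_eq]; exact he
  rw [this, Equiv.apply_symm_apply]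

include hp hM in
theorem Run.sg_iff {t : ℕ} (ht : t < N) {x : X} (hx : R.D t x) : R.sg M t ↔ R.mv M t x := by
  constructor
  · rintro ⟨_, y, hy, hm⟩
    exact R.agree hp hM t ht y x hy hx hm
  · intro h
    exact ⟨ht, x, hx, h⟩

include hp hM in
theorem Run.sg_closed : R.Closed (R.sg M) := by
  intro t t' x htt ht' h1 h2 h3
  rw [R.sg_iff hp hM ht' h2] at h3
  rw [R.sg_iff hp hM (htt.trans ht') h1]
  obtain ⟨s, g1, g2, g3⟩ := h3
  exact ⟨s, htt.trans g1, g2, g3⟩

/-- the time `τ` is good for the man `x` -/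
def Run.good (S : ℕ → Prop) (x : X) (τ : ℕ) : Prop :=
  τ ≤ N ∧ ∀ t < N, R.D t x → (S t ↔ t < τ)

/-- the time `τ` is good for the woman `w` -/
def Run.goodW (S : ℕ → Prop) (w : X) (τ : ℕ) : Prop :=
  τ ≤ N ∧ ∀ t < N, R.E t w → (S t ↔ t < τ)

include hp hM in
theorem Run.M_eq {x : X} {τ : ℕ} (hτ : R.good (R.sg M) x τ) : M x = R.W τ x := by
  obtain ⟨s, hs, he⟩ := R.short hp hM x
  rw [← he]
  by_contra hne
  rcases Nat.lt_or_ge s τ with h | h
  · obtain ⟨t, h1, h2, h3, h4⟩ := exists_change (f := fun t => R.W t x) h.le hne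
    have h5 : t < N := lt_of_lt_of_le h2 hτ.1
    have h6 : R.sg M t := (hτ.2 t h5 h4).2 h2
    rw [R.sg_iff hp hM h5 h4] at h6
    obtain ⟨s', g1, g2, g3⟩ := h6
    apply h4
    have e1 := R.conv x s t s' h1 g1.le g2 (by rw [g3, he])
    have e2 := R.conv x s (t + 1) s' (by omega) g1 g2 (by rw [g3, he])
    show R.W (t + 1) x = R.W t x
    rw [e1, e2]
  · obtain ⟨t, h1, h2, h3, h4⟩ := exists_change (f := fun t => R.W t x) h (Ne.symm hne)
    have h5 : t < N := lt_of_lt_of_le h2 hs
    have h6 : R.mv M t x := ⟨s, h2, hs, he⟩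
    rw [← R.sg_iff hp hM h5 h4] at h6
    have := (hτ.2 t h5 h4).1 h6
    omega

/-- the last time in `S` at which something happens, plus one -/
theorem exists_last (N : ℕ) (Q S : ℕ → Prop) : ∃ τ ≤ N, (∀ t < N, Q t → S t → t < τ) ∧
    (τ = 0 ∨ ∃ b, τ = b + 1 ∧ Q b ∧ S b) := by
  induction N with
  | zero => exact ⟨0, le_rfl, fun t ht => absurd ht (by omega), Or.inl rfl⟩
  | succ N ih =>
    by_cases h : Q N ∧ S N
    · exact ⟨N + 1, le_rfl, fun t ht _ _ => ht, Or.inr ⟨N, rfl, h.1, h.2⟩⟩
    · obtain ⟨τ, h1, h2, h3⟩ := ih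
      refine ⟨τ, h1.trans (Nat.le_succ _), fun t ht hQ hS => ?_, h3⟩
      rcases Nat.lt_or_ge t N with h4 | h4
      · exact h2 t h4 hQ hS
      · have : t = N := by omega
        subst this
        exact absurd ⟨hQ, hS⟩ h

theorem Run.exists_good {S : ℕ → Prop} (hS : R.Closed S) (x : X) : ∃ τ, R.good S x τ := by
  obtain ⟨τ, h1, h2, h3⟩ := exists_last N (fun t => R.D t x) S
  refine ⟨τ, h1, fun t ht hD => ⟨fun h => h2 t ht hD h, fun h => ?_⟩⟩
  rcases h3 with rfl | ⟨b, rfl, hb1, hb2⟩
  · omega
  · rcases Nat.lt_or_ge t b with h4 | h4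
    · exact hS t b x h4 (by omega) hD hb1 hb2
    · have : t = b := by omega
      subst this
      exact hb2

theorem Run.closedW {S : ℕ → Prop} (hS : R.Closed S) (w : X) :
    ∀ (k t b : ℕ), b - t ≤ k → t ≤ b → b < N → R.E t w → R.E b w → S b → S t := by
  intro k
  induction k with
  | zero =>
    intro t b h1 h2 _ _ _ h5
    have : t = b := by omega
    rwa [this]
  | succ k ih =>
    intro t b h1 h2 hb h3 h4 h5
    rcases Nat.lt_or_ge t b with hlt | hge
    swap
    · have : t = b := by omega
      rwa [this]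
    -- the next change
    have hex : ∃ u, t + 1 ≤ u ∧ u ≤ b ∧ (R.W u).symm w = (R.W (t + 1)).symm w ∧ R.E u w := by
      by_cases h6 : (R.W (t + 1)).symm w = (R.W (b + 1)).symm w
      · by_cases h7 : (R.W (t + 1)).symm w = (R.W b).symm w
        · exact ⟨b, hlt, le_rfl, h7.symm, h4⟩
        · obtain ⟨u, g1, g2, g3, g4⟩ := exists_change (f := fun t => (R.W t).symm w)
            (s := t + 1) (u := b) hlt h7
          exact ⟨u, g1, g2.le, g3, g4⟩
      · obtain ⟨u, g1, g2, g3, g4⟩ := exists_change (f := fun t => (R.W t).symm w)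
          (s := t + 1) (u := b + 1) (by omega) h6
        exact ⟨u, g1, by omega, g3, g4⟩
    obtain ⟨u, g1, g2, g3, g4⟩ := hex
    have h6 : S u := ih u b (by omega) g2 hb g4 h4 h5
    refine hS t u ((R.W (t + 1)).symm w) (by omega) (by omega) (R.D_of_E' h3) ?_ h6
    rw [← g3]
    exact R.D_of_E g4

theorem Run.exists_goodW {S : ℕ → Prop} (hS : R.Closed S) (w : X) : ∃ τ, R.goodW S w τ := by
  obtain ⟨τ, h1, h2, h3⟩ := exists_last N (fun t => R.E t w) S
  refine ⟨τ, h1, fun t ht hD => ⟨fun h => h2 t ht hD h, fun h => ?_⟩⟩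
  rcases h3 with rfl | ⟨b, rfl, hb1, hb2⟩
  · omega
  · exact R.closedW hS w _ t b le_rfl (by omega) (by omega) hD hb1 hb2

theorem Run.good_unique {S : ℕ → Prop} {w : X} {τ' τ : ℕ} (h' : R.goodW S w τ')
    (h : R.good S ((R.W τ').symm w) τ) : R.W τ ((R.W τ').symm w) = w := by
  set x := (R.W τ').symm w with hx
  have hxw : R.W τ' x = w := by rw [hx, Equiv.apply_symm_apply]
  by_contra hne
  have hne' : R.W τ x ≠ R.W τ' x := by rwa [hxw]
  rcases Nat.lt_or_ge τ τ' with hlt | hge
  · obtain ⟨t, h1, h2, h3, h4⟩ := exists_change' (f := fun t => R.W t x) hlt.le hne'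
    have h5 : t < N := lt_of_lt_of_le h2 h'.1
    have h6 : R.E t w := by
      have := R.E_of_D' (t := t) (x := x) h4
      rwa [show R.W (t + 1) x = R.W τ' x from h3, hxw] at this
    have h7 := (h'.2 t h5 h6).2 h2
    have h8 := (h.2 t h5 h4).1 h7
    omega
  · obtain ⟨t, h1, h2, h3, h4⟩ := exists_change (f := fun t => R.W t x) hge (Ne.symm hne')
    have h5 : t < N := lt_of_lt_of_le h2 h.1
    have h6 : R.E t w := by
      have := R.E_of_D (t := t) (x := x) h4
      rwa [show R.W t x = R.W τ' x from h3, hxw] at this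
    have h7 := (h.2 t h5 h4).2 h2
    have h8 := (h'.2 t h5 h6).1 h7
    omega

/-- the matching of a closed set -/
theorem Run.exists_matching [Finite X] {S : ℕ → Prop} (hS : R.Closed S) :
    ∃ M : Perm X, ∀ x τ, R.good S x τ → M x = R.W τ x := by
  choose τ hτ using fun x => R.exists_good hS x
  have hsurj : Function.Surjective fun x => R.W (τ x) x := by
    intro w
    obtain ⟨τ', h'⟩ := R.exists_goodW hS w
    exact ⟨(R.W τ').symm w, R.good_unique h' (hτ _)⟩
  have hbij : Function.Bijective fun x => R.W (τ x) x :=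
    ⟨Finite.injective_iff_surjective.2 hsurj, hsurj⟩
  refine ⟨Equiv.ofBijective _ hbij, ?_⟩
  intro x τ2 h2
  have hdef : Equiv.ofBijective _ hbij x = R.W (τ x) x := rfl
  rw [hdef]
  by_contra hne
  have key : ∀ a b, R.good S x a → R.good S x b → a ≤ b → R.W a x = R.W b x := by
    intro a b ha hb hab
    by_contra hne
    obtain ⟨t, h1, h2, h3, h4⟩ := exists_change (f := fun t => R.W t x) hab hne
    have h5 : t < N := lt_of_lt_of_le h2 hb.1
    have h6 := (hb.2 t h5 h4).2 h2
    have h7 := (ha.2 t h5 h4).1 h6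
    omega
  rcases le_total (τ x) τ2 with h | h
  · exact hne (key _ _ (hτ x) h2 h)
  · exact hne (key _ _ h2 (hτ x) h).symm

include hp in
theorem Run.stable_of_closed {S : ℕ → Prop} (hS : R.Closed S) {M : Perm X}
    (hM : ∀ x τ, R.good S x τ → M x = R.W τ x) : StableP r q M := by
  rintro m w ⟨h1, h2⟩
  obtain ⟨τ, hτ⟩ := R.exists_good hS m
  obtain ⟨τ', hτ'⟩ := R.exists_goodW hS w
  have hMm := hM m τ hτ
  -- `m` had `w` before
  have h3 : ∃ s ≤ τ, R.W s m = w := by
    by_contra hcon
    push Not at hcon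
    have := hp.men m τ w hτ.1 hcon
    rw [← hMm] at this
    omega
  obtain ⟨s, hs, hsw⟩ := h3
  have h4 : R.W s m ≠ R.W τ m := by
    rw [hsw, ← hMm]
    intro h
    rw [h] at h1
    omega
  obtain ⟨t, g1, g2, g3, g4⟩ := exists_change (f := fun t => R.W t m) hs h4
  have g3 : R.W t m = R.W s m := g3
  have g5 : t < N := lt_of_lt_of_le g2 hτ.1
  have g6 : S t := (hτ.2 t g5 g4).2 g2
  have g7 : R.E t w := by
    have := R.E_of_D (t := t) (x := m) g4
    rwa [g3, hsw] at this
  have g8 : t < τ' := (hτ'.2 t g5 g7).1 g6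
  have hp1 : M.symm w = (R.W τ').symm w := by
    rw [Equiv.symm_apply_eq]
    obtain ⟨τ2, h2⟩ := R.exists_good hS ((R.W τ').symm w)
    rw [hM _ _ h2]
    exact (R.good_unique hτ' h2).symm
  have h5 := hp.women w τ' m hτ'.1 (fun t' k1 k2 k3 => by
    have k4 : R.W t' m = w := by rw [← k3, Equiv.apply_symm_apply]
    have k5 := R.conv m s (t + 1) t' (by omega) (by omega) k2 (by rw [hsw, k4])
    apply g4
    show R.W (t + 1) m = R.W t m
    rw [k5, g3])
  rw [← hp1] at h5
  omega

theorem Run.sg_eq {S : ℕ → Prop} (hS : R.Closed S) {M : Perm X}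
    (hM : ∀ x τ, R.good S x τ → M x = R.W τ x) {t : ℕ} (ht : t < N) : R.sg M t ↔ S t := by
  constructor
  · rintro ⟨_, x, hx, s, h1, h2, h3⟩
    obtain ⟨τ, hτ⟩ := R.exists_good hS x
    rw [hM x τ hτ] at h3
    by_contra hn
    have h4 : ¬ t < τ := fun h => hn ((hτ.2 t ht hx).2 h)
    apply hx
    have e1 := R.conv x τ t s (by omega) h1.le h2 h3.symm
    have e2 := R.conv x τ (t + 1) s (by omega) h1 h2 h3.symm
    rw [e1, e2]
  · intro h
    obtain ⟨x, hx⟩ := R.ne t ht
    obtain ⟨τ, hτ⟩ := R.exists_good hS x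
    exact ⟨ht, x, hx, τ, (hτ.2 t ht hx).1 h, hτ.1, (hM x τ hτ).symm⟩

include hp in
/-- comparison of two matchings at a man -/
theorem Run.rank_lt {x : X} {s u : ℕ} (hs : s ≤ N) (hu : u ≤ N) :
    r x (R.W s x) < r x (R.W u x) ↔ ∃ t, s ≤ t ∧ t < u ∧ R.D t x := by
  constructor
  · intro h
    have hne : R.W s x ≠ R.W u x := by
      intro he
      rw [he] at h
      omega
    rcases le_total s u with h1 | h1
    · obtain ⟨t, g1, g2, _, g4⟩ := exists_change (f := fun t => R.W t x) h1 hne
      exact ⟨t, g1, g2, g4⟩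
    · exfalso
      have := hp.men x u (R.W s x) hu (fun t ht he => by
        apply hne
        have h2 := R.conv x t u s ht h1 hs he
        rw [← he, h2])
      omega
  · rintro ⟨t, h1, h2, h3⟩
    refine hp.men x s (R.W u x) hs fun t' ht' he => ?_
    apply h3
    have e1 := R.conv x t' t u (by omega) h2.le hu he
    have e2 := R.conv x t' (t + 1) u (by omega) h2 hu he
    rw [e1, e2]

end

end Pool.Agent.H276R3
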