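import Pool.Agent.H276R3.Defs
import Pool.Agent.H276R3.Exec

/-!
# The matchings `α_j` in terms of numbers of stable matchings
-/

namespace Pool.Agent.H276R3

open Equiv Pool.Agent.NPC

theorem sorted_getElem {p : ℕ → Bool} (hp : ∀ x y, x ≤ y → p y = true → p x = true) :
    ∀ (l : List ℕ), l.Pairwise (· ≤ ·) → ∀ (i : ℕ) (hi : i < l.length),
      (p l[i] = true ↔ i < l.countP p) := by
  intro l
  induction l with
  | nil => intro _ i hi; simp at hi
  | cons a l ih =>
    intro hl i hi
    rw [List.pairwise_cons] at hl
    rw [List.countP_cons]
    cases i with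
    | zero =>
      simp only [List.getElem_cons_zero]
      by_cases ha : p a = true
      · simp [ha]
      · simp only [ha, if_false, add_zero]
        have : l.countP p = 0 := by
          rw [List.countP_eq_zero]
          intro b hb hpb
          exact ha (hp a b (hl.1 b hb) hpb)
        simp [this]
    | succ i =>
      have hi' : i < l.length := by simpa using hi
      simp only [List.getElem_cons_succ]
      rw [ih hl.2 i hi']
      by_cases ha : p a = true
      · simp [ha]
      · simp only [ha, if_false, add_zero]
        have : l.countP p = 0 := by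
          rw [List.countP_eq_zero]
          intro b hb hpb
          exact ha (hp a b (hl.1 b hb) hpb)
        simp [this]

theorem sorted_getElem?_eq {l : List ℕ} (hl : l.Pairwise (· ≤ ·)) {j v : ℕ} (h1 : 1 ≤ j)
    (h2 : j ≤ l.length) : l[j - 1]? = some v ↔
      l.countP (fun x => decide (x < v)) < j ∧ j ≤ l.countP (fun x => decide (x ≤ v)) := by
  have hj : j - 1 < l.length := by omega
  have e1 := sorted_getElem (p := fun x => decide (x < v)) (fun x y h h' => by
    simp only [decide_eq_true_eq] at h' ⊢; omega) l hl (j - 1) hj
  have e2 := sorted_getElem (p := fun x => decide (x ≤ v)) (fun x y h h' => by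
    simp only [decide_eq_true_eq] at h' ⊢; omega) l hl (j - 1) hj
  simp only [decide_eq_true_eq] at e1 e2
  rw [List.getElem?_eq_getElem hj, Option.some.injEq]
  constructor
  · intro h
    constructor
    · by_contra hcon
      have := e1.2 (by omega)
      omega
    · have := e2.1 h.le
      omega
  · rintro ⟨h3, h4⟩
    have h5 := e2.2 (by omega)
    have h6 : ¬ l[j - 1] < v := fun h => by
      have := e1.1 h
      omega
    omega

/-- the number of stable matchings in which `m` is better off than at the position `v` -/
noncomputable def Lc (n : ℕ) (I : Inst) (m : Fin n) (v : ℕ) : ℕ :=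
  Nat.card {M : Perm (Fin n) // Stable n I M ∧ mrank I m (M m) < v}

/-- the number of stable matchings in which `m` is at least as well off as at the position `v` -/
noncomputable def Uc (n : ℕ) (I : Inst) (m : Fin n) (v : ℕ) : ℕ :=
  Nat.card {M : Perm (Fin n) // Stable n I M ∧ mrank I m (M m) ≤ v}

open Classical in
theorem countP_partners' (n : ℕ) (I : Inst) (m : Fin n) (p : ℕ → Prop) :
    (partners n I m).countP (fun x => decide (p x)) =
      Nat.card {M : Perm (Fin n) // Stable n I M ∧ p (mrank I m (M m))} := by
  unfold partners
  rw [← Multiset.coe_countP, Multiset.sort_eq, Multiset.countP_map, Nat.card_eq_fintype_card,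
    Fintype.card_subtype]
  rw [← Finset.filter_val, ← Finset.card_def]
  unfold stableMatchings
  rw [Finset.filter_filter]

theorem countP_partners (n : ℕ) (I : Inst) (m : Fin n) (p : ℕ → Prop) [DecidablePred p] :
    (partners n I m).countP (fun x => decide (p x)) =
      Nat.card {M : Perm (Fin n) // Stable n I M ∧ p (mrank I m (M m))} := by
  refine Eq.trans (List.countP_congr fun x _ => ?_) (countP_partners' n I m p)
  exact ⟨fun h => @decide_eq_true _ (_) (of_decide_eq_true h), fun h =>
    decide_eq_true (@of_decide_eq_true _ (_) h)⟩

theorem partners_length (n : ℕ) (I : Inst) (m : Fin n) :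
    (partners n I m).length = (stableMatchings n I).card := by
  unfold partners
  rw [Multiset.length_sort, Multiset.card_map]
  rfl

theorem card_stableMatchings (n : ℕ) (I : Inst) :
    (stableMatchings n I).card = Nat.card {M : Perm (Fin n) // Stable n I M} := by
  classical
  unfold stableMatchings
  rw [Nat.card_eq_fintype_card, Fintype.card_subtype]

theorem isAlpha_iff {n : ℕ} {I : Inst} {j : ℕ} {M : Perm (Fin n)} : IsAlpha n I j M ↔
    1 ≤ j ∧ j ≤ (stableMatchings n I).card ∧
      ∀ m : Fin n, Lc n I m (mrank I m (M m)) < j ∧ j ≤ Uc n I m (mrank I m (M m)) := by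
  unfold IsAlpha
  refine and_congr_right fun h1 => and_congr_right fun h2 => forall_congr' fun m => ?_
  have hs : (partners n I m).Pairwise (· ≤ ·) := Multiset.pairwise_sort _ _
  rw [sorted_getElem?_eq hs h1 (by rw [partners_length]; exact h2)]
  have e1 := countP_partners n I m (fun x => x < mrank I m (M m))
  have e2 := countP_partners n I m (fun x => x ≤ mrank I m (M m))
  unfold Lc Uc
  rw [← e1, ← e2]

end Pool.Agent.H276R3
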