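import Pool.Agent.H276R3.Dag
import Pool.Agent.H527R3.Toda.BSum

/-!
# Counting the closed sets of composed directed acyclic graphs
-/

namespace Pool.Agent.H276R3

open Pool.Agent.NPC Pool.Agent.NPC.Cnt

/-- the string describes a closed set -/
def clB (E : List (ℕ × ℕ)) (w : List Bool) : Bool :=
  E.all fun e => !w.getD e.2 false || w.getD e.1 false

theorem clB_iff (E : List (ℕ × ℕ)) (w : List Bool) : clB E w = true ↔
    ∀ e ∈ E, w.getD e.2 false = true → w.getD e.1 false = true := by
  unfold clB
  rw [List.all_eq_true]
  refine forall₂_congr fun e _ => ?_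
  cases w.getD e.2 false <;> cases w.getD e.1 false <;> simp

/-- the number of closed sets -/
def idc (G : Dag) : ℕ := bsum G.1 fun w => (clB G.2 w).toNat

theorem nbar_eq (G : Dag) (t : ℕ) :
    nbar G t = bsum G.1 fun w => (clB G.2 w && !w.getD t false).toNat := by
  rw [bsum_eq_card]
  unfold nbar
  refine Nat.card_congr (Equiv.subtypeEquivRight fun w => and_congr_right fun _ => ?_)
  rw [Bool.and_eq_true, clB_iff]
  unfold DClosed bitS
  simp

@[simp] theorem clB_nil (w : List Bool) : clB [] w = true := rfl

@[simp] theorem clB_append (E F : List (ℕ × ℕ)) (w : List Bool) :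
    clB (E ++ F) w = (clB E w && clB F w) := by
  unfold clB
  rw [List.all_append]

/-- the shifted edges -/
def shE (k : ℕ) (E : List (ℕ × ℕ)) : List (ℕ × ℕ) := E.map fun e => (k + e.1, k + e.2)

theorem getD_app_left {u v : List Bool} {i : ℕ} (h : i < u.length) :
    (u ++ v).getD i false = u.getD i false := by
  rw [List.getD_append _ _ _ _ h]

theorem getD_app_right {u v : List Bool} {i k : ℕ} (h : u.length = k) :
    (u ++ v).getD (k + i) false = v.getD i false := by
  subst h
  rw [List.getD_append_right _ _ _ _ (by omega)]
  congr 1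
  omega

theorem clB_shE {k : ℕ} (E : List (ℕ × ℕ)) {u v : List Bool} (h : u.length = k) :
    clB (shE k E) (u ++ v) = clB E v := by
  unfold clB shE
  rw [List.all_map]
  congr 1
  funext e
  simp only [Function.comp]
  rw [getD_app_right h, getD_app_right h]

theorem clB_left {E : List (ℕ × ℕ)} {u v : List Bool}
    (h : ∀ e ∈ E, e.1 < u.length ∧ e.2 < u.length) : clB E (u ++ v) = clB E u := by
  unfold clB
  rw [Bool.eq_iff_iff, List.all_eq_true, List.all_eq_true]
  refine forall₂_congr fun e he => ?_
  rw [getD_app_left (h e he).1, getD_app_left (h e he).2]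

theorem clB_all_false {E : List (ℕ × ℕ)} {w : List Bool} (h : w.all (fun b => !b) = true) :
    clB E w = true := by
  rw [clB_iff]
  intro e _ h1
  exfalso
  rw [List.all_eq_true] at h
  by_cases h2 : e.2 < w.length
  · rw [List.getD_eq_getElem _ _ h2] at h1
    have := h _ (List.getElem_mem h2)
    rw [h1] at this
    exact Bool.noConfusion this
  · rw [List.getD_eq_default _ _ (by omega)] at h1
    exact Bool.noConfusion h1

theorem clB_all_true {E : List (ℕ × ℕ)} {w : List Bool} (h : w.all (fun b => b) = true)
    (hE : ∀ e ∈ E, e.1 < w.length) : clB E w = true := by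
  rw [clB_iff]
  intro e he _
  rw [List.all_eq_true] at h
  rw [List.getD_eq_getElem _ _ (hE e he)]
  exact h _ (List.getElem_mem _)

/-- all vertices of a block lie above the vertex `a` -/
theorem star_above {a k n : ℕ} {w v z : List Bool} {b : Bool} (hw : w.length = k)
    (ha : (w ++ (v ++ z)).getD a false = b) (hv : v.length = n) :
    clB ((List.range n).map fun i => (a, k + i)) (w ++ (v ++ z)) = (b || v.all fun b => !b) := by
  unfold clB
  rw [List.all_map, Bool.eq_iff_iff, List.all_eq_true]
  simp only [List.mem_range, Function.comp, ha, Bool.or_eq_true, List.all_eq_true,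
    getD_app_right hw]
  constructor
  · intro h
    cases b with
    | true => exact Or.inl rfl
    | false =>
      right
      intro x hx
      obtain ⟨i, hi, rfl⟩ := List.mem_iff_getElem.1 hx
      have h1 := h i (by omega)
      rw [getD_app_left hi, List.getD_eq_getElem _ _ hi] at h1
      simpa using h1
  · rintro (rfl | h) i hi
    · exact Or.inr rfl
    · left
      rw [getD_app_left (by omega), List.getD_eq_getElem _ _ (by omega)]
      exact h _ (List.getElem_mem _)

/-- all vertices of the first block lie below the next vertex -/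
theorem star_below {n : ℕ} {u v : List Bool} {b : Bool} (hu : u.length = n) :
    clB ((List.range n).map fun i => (i, n)) (u ++ b :: v) = (!b || u.all fun b => b) := by
  unfold clB
  rw [List.all_map, Bool.eq_iff_iff, List.all_eq_true]
  have h0 : (u ++ b :: v).getD n false = b := by
    have := getD_app_right (u := u) (v := b :: v) (i := 0) hu
    simpa using this
  simp only [List.mem_range, Function.comp, h0, Bool.or_eq_true, List.all_eq_true]
  constructor
  · intro h
    cases b with
    | false => exact Or.inl rfl
    | true =>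
      right
      intro x hx
      obtain ⟨i, hi, rfl⟩ := List.mem_iff_getElem.1 hx
      have h1 := h i (by omega)
      rw [getD_app_left hi, List.getD_eq_getElem _ _ hi] at h1
      simpa using h1
  · rintro (h | h) i hi
    · exact Or.inl h
    · right
      rw [getD_app_left (by omega), List.getD_eq_getElem _ _ (by omega)]
      exact h _ (List.getElem_mem _)

theorem bsum_all_true : ∀ (n : ℕ), bsum n (fun w => (w.all (fun b => b)).toNat) = 1
  | 0 => rfl
  | n + 1 => by
    rw [bsum_succ]
    have e1 : bsum n (fun w => ((true :: w).all (fun b => b)).toNat) = 1 := by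
      rw [← bsum_all_true n]
      exact bsum_congr fun w _ => by simp
    have e2 : bsum n (fun w => ((false :: w).all (fun b => b)).toNat) = 0 := by
      have : bsum n (fun _ => 0) = 0 := by rw [bsum_const]; simp
      rw [← this]
      exact bsum_congr fun w _ => by simp
    rw [e1, e2]

/-- the series composition with a vertex in between -/
def ser (G1 G2 : Dag) : Dag :=
  (G1.1 + (1 + G2.1), (G1.2 ++ (List.range G1.1).map fun v => (v, G1.1)) ++
    (((List.range G2.1).map fun v => (G1.1, (G1.1 + 1) + v)) ++ shE (G1.1 + 1) G2.2))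

theorem ser_ok {G1 G2 : Dag} (h1 : DagOK G1) (h2 : DagOK G2) : DagOK (ser G1 G2) := by
  intro e he
  unfold ser shE at he ⊢
  simp only [List.mem_append, List.mem_map, List.mem_range] at he
  rcases he with (he | ⟨v, hv, rfl⟩) | ⟨v, hv, rfl⟩ | ⟨e', he', rfl⟩
  · have := h1 e he; dsimp only; omega
  · dsimp only; omega
  · dsimp only; omega
  · have := h2 e' he'; dsimp only; omega

theorem bsum_one_add (n : ℕ) (f : List Bool → ℕ) :
    bsum (1 + n) f = bsum n (fun w => f (false :: w)) + bsum n (fun w => f (true :: w)) := by
  rw [Nat.add_comm 1 n, bsum_succ]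

theorem idc_ser {G1 G2 : Dag} (h1 : DagOK G1) : idc (ser G1 G2) = idc G1 + idc G2 := by
  have key : ∀ (u v : List Bool) (b : Bool), u.length = G1.1 → v.length = G2.1 →
      clB (ser G1 G2).2 (u ++ b :: v) = (clB G1.2 u && (!b || u.all (fun b => b)) &&
        ((b || v.all (fun b => !b)) && clB G2.2 v)) := by
    intro u v b hu hv
    unfold ser
    simp only [clB_append]
    rw [clB_left (fun e he => by have := h1 e he; omega), star_below hu]
    have e1 : u ++ b :: v = (u ++ [b]) ++ (v ++ []) := by simp
    have hub : (u ++ [b]).length = G1.1 + 1 := by simp [hu]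
    rw [e1, star_above hub (b := b) _ hv, clB_shE _ hub, List.append_nil]
    rw [List.append_nil, List.append_assoc]
    have := getD_app_right (u := u) (v := [b] ++ v) (i := 0) hu
    simpa using this
  have e0 : idc (ser G1 G2) = bsum (G1.1 + (1 + G2.1)) fun w => (clB (ser G1 G2).2 w).toNat := rfl
  rw [e0, bsum_append]
  simp only [bsum_one_add]
  rw [bsum_add]
  congr 1
  · refine bsum_congr fun u hu => ?_
    have : bsum G2.1 (fun v => (clB (ser G1 G2).2 (u ++ false :: v)).toNat) =
        bsum G2.1 (fun v => (clB G1.2 u).toNat * (v.all (fun b => !b)).toNat) := by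
      refine bsum_congr fun v hv => ?_
      rw [key u v false hu hv]
      by_cases hh : v.all (fun b => !b) = true
      · rw [clB_all_false hh, hh]
        cases clB G1.2 u <;> simp
      · rw [Bool.not_eq_true] at hh
        rw [hh]
        simp
    rw [this, bsum_mul_left, bsum_all_false, mul_one]
  · have : bsum G1.1 (fun u => bsum G2.1 fun v => (clB (ser G1 G2).2 (u ++ true :: v)).toNat) =
        bsum G1.1 (fun u => (u.all (fun b => b)).toNat * idc G2) := by
      refine bsum_congr fun u hu => ?_
      rw [idc, ← bsum_mul_left]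
      refine bsum_congr fun v hv => ?_
      rw [key u v true hu hv]
      by_cases hh : u.all (fun b => b) = true
      · rw [clB_all_true hh (fun e he => by have := h1 e he; omega), hh]
        simp
      · rw [Bool.not_eq_true] at hh
        rw [hh]
        simp
    rw [this, bsum_mul_right, bsum_all_true, one_mul]

/-! ### bipartite graphs -/

/-- number of lower vertices (in unary), and for each upper vertex the list of the lower vertices
below it -/
abbrev Bip := List Unit × List (List ℕ)

/-- all lower vertices below an upper vertex are in the set -/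
def sub (A : List Bool) (U : List ℕ) : Bool := U.all fun i => A.getD i false

/-- the graph -/
def bip (t : Bip) : Dag :=
  (t.1.length + t.2.length, t.2.zipIdx.flatMap fun q => q.1.map fun i => (i, t.1.length + q.2))

/-- the indices are in the range -/
def BipOK (t : Bip) : Prop := ∀ U ∈ t.2, ∀ i ∈ U, i < t.1.length

theorem bip_ok {t : Bip} (h : BipOK t) : DagOK (bip t) := by
  intro e he
  unfold bip at he ⊢
  rw [List.mem_flatMap] at he
  obtain ⟨⟨U, j⟩, hq, he⟩ := he
  rw [List.mem_map] at he
  obtain ⟨i, hi, rfl⟩ := he
  have h1 := List.mem_zipIdx' hq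
  have h2 := h U (h1.2 ▸ List.getElem_mem _) i hi
  dsimp only
  omega

/-- the number of closed sets of a bipartite graph -/
def idb (t : Bip) : ℕ := bsum t.1.length fun A => 2 ^ (t.2.countP (sub A))

/-- the upper vertices of the set are above the lower vertices of the set -/
def upB (A : List Bool) : List (List ℕ) → List Bool → Bool
  | U :: Us, b :: v => (!b || sub A U) && upB A Us v
  | _, _ => true

theorem bsum_upB (A : List Bool) : ∀ Us : List (List ℕ),
    bsum Us.length (fun v => (upB A Us v).toNat) = 2 ^ (Us.countP (sub A))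
  | [] => rfl
  | U :: Us => by
    rw [List.length_cons, bsum_succ]
    simp only [upB, Bool.not_false, Bool.true_or, Bool.true_and, Bool.not_true, Bool.false_or]
    rw [List.countP_cons, bsum_upB A Us]
    cases h : sub A U
    · simp only [Bool.false_and, Bool.toNat_false, Bool.false_eq_true, if_false, add_zero]
      rw [bsum_const]
      omega
    · simp only [Bool.true_and, if_true]
      rw [bsum_upB A Us, pow_succ]
      omega

theorem clB_up {k : ℕ} {A : List Bool} (hA : A.length = k) : ∀ (Us : List (List ℕ)) (n : ℕ)
    (pre v : List Bool), pre.length = n → v.length = Us.length → (∀ U ∈ Us, ∀ i ∈ U, i < k) →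
    clB ((Us.zipIdx n).flatMap fun q => q.1.map fun i => (i, k + q.2)) (A ++ (pre ++ v)) =
      upB A Us v
  | [], _, _, _, _, _, _ => by simp [upB]
  | U :: Us, n, pre, [], _, hv, _ => by simp at hv
  | U :: Us, n, pre, b :: v, hpre, hv, h => by
    have e1 : A ++ (pre ++ b :: v) = A ++ ((pre ++ [b]) ++ v) := by simp
    have e2 : (A ++ (pre ++ b :: v)).getD (k + n) false = b := by
      rw [getD_app_right hA]
      have := getD_app_right (u := pre) (v := b :: v) (i := 0) hpre
      simpa using this
    rw [List.zipIdx_cons, List.flatMap_cons, clB_append, upB]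
    congr 1
    · unfold clB sub
      rw [List.all_map, Bool.eq_iff_iff, List.all_eq_true]
      simp only [Function.comp, e2, Bool.or_eq_true, List.all_eq_true]
      constructor
      · intro h3
        cases b with
        | false => exact Or.inl rfl
        | true =>
          right
          intro i hi
          have := h3 i hi
          rw [getD_app_left (by rw [hA]; exact h U List.mem_cons_self i hi)] at this
          simpa using this
      · rintro (h3 | h3) i hi
        · exact Or.inl h3
        · right
          rw [getD_app_left (by rw [hA]; exact h U List.mem_cons_self i hi)]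
          exact h3 i hi
    · rw [e1]
      exact clB_up hA Us (n + 1) (pre ++ [b]) v (by simp [hpre]) (by simpa using hv)
        fun U' hU' => h U' (List.mem_cons_of_mem _ hU')

theorem idc_bip {t : Bip} (h : BipOK t) : idc (bip t) = idb t := by
  have e0 : idc (bip t) = bsum (t.1.length + t.2.length) fun w => (clB (bip t).2 w).toNat := rfl
  rw [e0, bsum_append]
  refine bsum_congr fun A hA => ?_
  rw [← bsum_upB]
  refine bsum_congr fun v hv => ?_
  congr 1
  exact clB_up hA t.2 0 [] v rfl hv h

/-- the series composition of bipartite graphs -/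
def sers (ts : List Bip) : Dag := ts.foldr (fun t G => ser (bip t) G) (0, [])

theorem sers_ok : ∀ {ts : List Bip}, (∀ t ∈ ts, BipOK t) → DagOK (sers ts)
  | [], _ => by intro e he; simp [sers] at he
  | t :: ts, h => ser_ok (bip_ok (h t List.mem_cons_self))
      (sers_ok fun t' ht' => h t' (List.mem_cons_of_mem _ ht'))

theorem idc_sers : ∀ {ts : List Bip}, (∀ t ∈ ts, BipOK t) → idc (sers ts) = (ts.map idb).sum + 1
  | [], _ => rfl
  | t :: ts, h => by
    have h1 := bip_ok (h t List.mem_cons_self)
    have h2 := idc_sers (ts := ts) fun t' ht' => h t' (List.mem_cons_of_mem _ ht')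
    have e : sers (t :: ts) = ser (bip t) (sers ts) := rfl
    rw [e, idc_ser h1, idc_bip (h t List.mem_cons_self), h2, List.map_cons, List.sum_cons]
    ring

/-! ### The final graph -/

/-- The graph with two minimal vertices `0` and `1`, the graph `P` above `0`, the graph `Q` above
`1` and `c` vertices above both. -/
def fin (P Q : Dag) (c : ℕ) : Dag :=
  (1 + (1 + (P.1 + (Q.1 + c))),
    ((List.range P.1).map fun v => (0, 2 + v)) ++
    ((List.range Q.1).map fun v => (1, (2 + P.1) + v)) ++
    ((List.range c).map fun v => (0, (2 + P.1 + Q.1) + v)) ++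
    ((List.range c).map fun v => (1, (2 + P.1 + Q.1) + v)) ++
    shE 2 P.2 ++ shE (2 + P.1) Q.2)

theorem fin_ok {P Q : Dag} {c : ℕ} (h1 : DagOK P) (h2 : DagOK Q) : DagOK (fin P Q c) := by
  intro e he
  unfold fin shE at he ⊢
  simp only [List.mem_append, List.mem_map, List.mem_range] at he
  rcases he with ((((⟨v, hv, rfl⟩ | ⟨v, hv, rfl⟩) | ⟨v, hv, rfl⟩) | ⟨v, hv, rfl⟩) |
    ⟨e', he', rfl⟩) | ⟨e', he', rfl⟩
  · dsimp only; omega
  · dsimp only; omega
  · dsimp only; omega
  · dsimp only; omega
  · have := h1 e' he'; dsimp only; omega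
  · have := h2 e' he'; dsimp only; omega

theorem clB_fin {P Q : Dag} {c : ℕ} (h1 : DagOK P) {u v z : List Bool} (a b : Bool)
    (hu : u.length = P.1) (hv : v.length = Q.1) (hz : z.length = c) :
    clB (fin P Q c).2 (a :: b :: (u ++ (v ++ z))) =
      ((a || u.all fun b => !b) && (b || v.all fun b => !b) && (a || z.all fun b => !b) &&
        (b || z.all fun b => !b) && clB P.2 u && clB Q.2 (v ++ z)) := by
  unfold fin
  simp only [clB_append]
  have e1 : a :: b :: (u ++ (v ++ z)) = [a, b] ++ (u ++ (v ++ z)) := rfl
  have e2 : a :: b :: (u ++ (v ++ z)) = ([a, b] ++ u) ++ (v ++ z) := by simp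
  have e3 : a :: b :: (u ++ (v ++ z)) = ([a, b] ++ u ++ v) ++ (z ++ []) := by simp
  have l2 : ([a, b] ++ u).length = 2 + P.1 := by simp [hu]; omega
  have l3 : ([a, b] ++ u ++ v).length = 2 + P.1 + Q.1 := by simp [hu, hv]; omega
  have f1 : clB ((List.range P.1).map fun v => (0, 2 + v)) (a :: b :: (u ++ (v ++ z))) =
      (a || u.all fun b => !b) := by
    rw [e1]
    exact star_above rfl (by simp) hu
  have f2 : clB ((List.range Q.1).map fun v => (1, (2 + P.1) + v)) (a :: b :: (u ++ (v ++ z))) =
      (b || v.all fun b => !b) := by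
    rw [e2]
    exact star_above l2 (by simp) hv
  have f3 : clB ((List.range c).map fun v => (0, (2 + P.1 + Q.1) + v))
      (a :: b :: (u ++ (v ++ z))) = (a || z.all fun b => !b) := by
    rw [e3]
    exact star_above l3 (by simp) hz
  have f4 : clB ((List.range c).map fun v => (1, (2 + P.1 + Q.1) + v))
      (a :: b :: (u ++ (v ++ z))) = (b || z.all fun b => !b) := by
    rw [e3]
    exact star_above l3 (by simp) hz
  have f5 : clB (shE 2 P.2) (a :: b :: (u ++ (v ++ z))) = clB P.2 u := by
    rw [e1, clB_shE (k := 2) P.2 rfl, clB_left (fun e he => by have := h1 e he; omega)]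
  have f6 : clB (shE (2 + P.1) Q.2) (a :: b :: (u ++ (v ++ z))) = clB Q.2 (v ++ z) := by
    rw [e2, clB_shE _ l2]
  rw [f1, f2, f3, f4, f5, f6]

theorem nbar_fin {P Q : Dag} {c : ℕ} (h1 : DagOK P) (h2 : DagOK Q) :
    nbar (fin P Q c) 0 = 1 + idc Q ∧ nbar (fin P Q c) 1 = 1 + idc P := by
  have hQ : ∀ (v z : List Bool), v.length = Q.1 → clB Q.2 (v ++ z) = clB Q.2 v := fun v z hv =>
    clB_left (fun e he => by have := h2 e he; omega)
  have hB : ∀ t, nbar (fin P Q c) t =
      bsum P.1 (fun u => bsum Q.1 fun v => bsum c fun z =>
        (clB (fin P Q c).2 (false :: false :: (u ++ (v ++ z))) &&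
          !(false :: false :: (u ++ (v ++ z))).getD t false).toNat) +
      bsum P.1 (fun u => bsum Q.1 fun v => bsum c fun z =>
        (clB (fin P Q c).2 (false :: true :: (u ++ (v ++ z))) &&
          !(false :: true :: (u ++ (v ++ z))).getD t false).toNat) +
      (bsum P.1 (fun u => bsum Q.1 fun v => bsum c fun z =>
        (clB (fin P Q c).2 (true :: false :: (u ++ (v ++ z))) &&
          !(true :: false :: (u ++ (v ++ z))).getD t false).toNat) +
      bsum P.1 (fun u => bsum Q.1 fun v => bsum c fun z =>
        (clB (fin P Q c).2 (true :: true :: (u ++ (v ++ z))) &&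
          !(true :: true :: (u ++ (v ++ z))).getD t false).toNat)) := by
    intro t
    rw [nbar_eq]
    have e0 : (fin P Q c).1 = 1 + (1 + (P.1 + (Q.1 + c))) := rfl
    rw [e0]
    simp only [bsum_one_add]
    simp only [bsum_append]
  have z0 : ∀ n, bsum n (fun _ => 0) = 0 := fun n => by rw [bsum_const]; simp
  -- all three blocks are empty
  have s0 : bsum P.1 (fun u => bsum Q.1 fun v => bsum c fun z =>
      (clB (fin P Q c).2 (false :: false :: (u ++ (v ++ z)))).toNat) = 1 := by
    have : bsum P.1 (fun u => bsum Q.1 fun v => bsum c fun z =>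
        (clB (fin P Q c).2 (false :: false :: (u ++ (v ++ z)))).toNat) =
        bsum P.1 (fun u => bsum Q.1 fun v => bsum c fun z => (u.all fun b => !b).toNat *
          ((v.all fun b => !b).toNat * (z.all fun b => !b).toNat)) := by
      refine bsum_congr fun u hu => bsum_congr fun v hv => bsum_congr fun z hz => ?_
      rw [clB_fin h1 _ _ hu hv hz, hQ v z hv]
      by_cases g1 : u.all (fun b => !b) = true
      · by_cases g2 : v.all (fun b => !b) = true
        · rw [clB_all_false g1, clB_all_false g2, g1, g2]
          cases z.all (fun b => !b) <;> simp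
        · rw [Bool.not_eq_true] at g2
          rw [g2]
          simp
      · rw [Bool.not_eq_true] at g1
        rw [g1]
        simp
    rw [this]
    simp only [bsum_mul_left, bsum_all_false, mul_one]
  constructor
  · rw [hB]
    have s1 : bsum P.1 (fun u => bsum Q.1 fun v => bsum c fun z =>
        (clB (fin P Q c).2 (false :: true :: (u ++ (v ++ z)))).toNat) = idc Q := by
      have : bsum P.1 (fun u => bsum Q.1 fun v => bsum c fun z =>
          (clB (fin P Q c).2 (false :: true :: (u ++ (v ++ z)))).toNat) =
          bsum P.1 (fun u => bsum Q.1 fun v => bsum c fun z => (u.all fun b => !b).toNat *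
            ((clB Q.2 v).toNat * (z.all fun b => !b).toNat)) := by
        refine bsum_congr fun u hu => bsum_congr fun v hv => bsum_congr fun z hz => ?_
        rw [clB_fin h1 _ _ hu hv hz, hQ v z hv]
        by_cases g1 : u.all (fun b => !b) = true
        · rw [clB_all_false g1, g1]
          cases z.all (fun b => !b) <;> simp
        · rw [Bool.not_eq_true] at g1
          rw [g1]
          simp
      rw [this]
      simp only [bsum_mul_left, bsum_all_false, mul_one, bsum_mul_right, one_mul]
      rfl
    simp only [List.getD_cons_zero, Bool.not_false, Bool.and_true, Bool.not_true, Bool.and_false,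
      Bool.toNat_false, z0, s0, s1, add_zero]
  · rw [hB]
    have s1 : bsum P.1 (fun u => bsum Q.1 fun v => bsum c fun z =>
        (clB (fin P Q c).2 (true :: false :: (u ++ (v ++ z)))).toNat) = idc P := by
      have : bsum P.1 (fun u => bsum Q.1 fun v => bsum c fun z =>
          (clB (fin P Q c).2 (true :: false :: (u ++ (v ++ z)))).toNat) =
          bsum P.1 (fun u => bsum Q.1 fun v => bsum c fun z => (clB P.2 u).toNat *
            ((v.all fun b => !b).toNat * (z.all fun b => !b).toNat)) := by
        refine bsum_congr fun u hu => bsum_congr fun v hv => bsum_congr fun z hz => ?_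
        rw [clB_fin h1 _ _ hu hv hz, hQ v z hv]
        by_cases g2 : v.all (fun b => !b) = true
        · rw [clB_all_false g2, g2]
          cases z.all (fun b => !b) <;> simp
        · rw [Bool.not_eq_true] at g2
          rw [g2]
          simp
      rw [this]
      simp only [bsum_mul_left, bsum_all_false, mul_one]
      rfl
    simp only [List.getD_cons_succ, List.getD_cons_zero, Bool.not_false, Bool.and_true,
      Bool.not_true, Bool.and_false, Bool.toNat_false, z0, s0, s1, add_zero]

instance finite_closed (G : Dag) (Q : (ℕ → Prop) → Prop) :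
    Finite {w : List Bool // w.length = G.1 ∧ DClosed G (bitS w) ∧ Q (bitS w)} := by
  have : Finite {w : List Bool // w.length = G.1} := List.finite_length_eq Bool G.1
  exact Finite.of_injective (fun w : {w : List Bool // w.length = G.1 ∧ DClosed G (bitS w) ∧
    Q (bitS w)} => (⟨w.1, w.2.1⟩ : {w : List Bool // w.length = G.1})) (fun a b h => by
      simp only [Subtype.mk.injEq] at h
      exact Subtype.ext h)

theorem nbar_le {G : Dag} {s t : ℕ} (h : (s, t) ∈ G.2) : nbar G s ≤ nbar G t := by
  unfold nbar
  have := finite_closed G fun S => ¬ S t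
  refine Nat.card_le_card_of_injective (fun w => ⟨w.1, w.2.1, w.2.2.1, fun h1 =>
    w.2.2.2 (w.2.2.1 _ h h1)⟩) ?_
  intro a b hab
  simp only [Subtype.mk.injEq] at hab
  exact Subtype.ext hab

theorem nbar_lt {G : Dag} (hG : DagOK G) {t : ℕ} (h : (0, t) ∈ G.2) : nbar G 0 < nbar G t := by
  have h0 := hG _ h
  simp only at h0
  set w0 : List Bool := true :: List.replicate (G.1 - 1) false with hw0
  have e0 : ∀ i, 0 < i → bitS w0 i = False := by
    intro i hi
    obtain ⟨j, rfl⟩ : ∃ j, i = j + 1 := ⟨i - 1, by omega⟩
    unfold bitS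
    rw [hw0, List.getD_cons_succ]
    by_cases hj : j < G.1 - 1
    · rw [List.getD_eq_getElem _ _ (by simpa using hj)]
      simp
    · rw [List.getD_eq_default _ _ (by simp; omega)]
      simp
  have hT : w0.length = G.1 ∧ DClosed G (bitS w0) ∧ ¬ bitS w0 t := by
    refine ⟨by simp [hw0]; omega, ?_, ?_⟩
    · intro e he h1
      have := hG _ he
      rw [e0 _ (by omega)] at h1
      exact h1.elim
    · rw [e0 _ (by omega)]
      exact not_false
  have hfin := finite_closed G fun S => ¬ S t
  have hfin0 := finite_closed G fun S => ¬ S 0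
  unfold nbar
  have h3 : Nat.card (Option {w : List Bool // w.length = G.1 ∧ DClosed G (bitS w) ∧
      ¬ bitS w 0}) ≤ Nat.card {w : List Bool // w.length = G.1 ∧ DClosed G (bitS w) ∧
      ¬ bitS w t} := by
    refine Nat.card_le_card_of_injective (fun o => o.elim ⟨w0, hT⟩ fun w => ⟨w.1, w.2.1, w.2.2.1,
      fun h1 => w.2.2.2 (w.2.2.1 _ h h1)⟩) ?_
    have hne : ∀ w : {w : List Bool // w.length = G.1 ∧ DClosed G (bitS w) ∧ ¬ bitS w 0},
        w.1 ≠ w0 := by
      intro w hw
      refine w.2.2.2 ?_
      rw [hw]
      simp [bitS, hw0]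
    rintro (_ | a) (_ | b) hab
    · rfl
    · simp only [Option.elim_none, Option.elim_some, Subtype.mk.injEq] at hab
      exact absurd hab.symm (hne b)
    · simp only [Option.elim_none, Option.elim_some, Subtype.mk.injEq] at hab
      exact absurd hab (hne a)
    · simp only [Option.elim_some, Subtype.mk.injEq] at hab
      exact congrArg some (Subtype.ext hab)
  rw [Finite.card_option] at h3
  omega

theorem fin_sep {P Q : Dag} {c : ℕ} (h1 : DagOK P) (h2 : DagOK Q) (t : ℕ) (ht : 1 ≤ t)
    (ht' : t < (fin P Q c).1) :
    nbar (fin P Q c) 0 < nbar (fin P Q c) t ∨ nbar (fin P Q c) 1 ≤ nbar (fin P Q c) t := by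
  have hok := fin_ok (c := c) h1 h2
  have e0 : (fin P Q c).1 = 1 + (1 + (P.1 + (Q.1 + c))) := rfl
  rw [e0] at ht'
  have hE : (fin P Q c).2 = ((List.range P.1).map fun v => (0, 2 + v)) ++
    ((List.range Q.1).map fun v => (1, (2 + P.1) + v)) ++
    ((List.range c).map fun v => (0, (2 + P.1 + Q.1) + v)) ++
    ((List.range c).map fun v => (1, (2 + P.1 + Q.1) + v)) ++
    shE 2 P.2 ++ shE (2 + P.1) Q.2 := rfl
  rcases Nat.lt_or_ge t 2 with h3 | h3
  · right
    have : t = 1 := by omega
    rw [this]
  · rcases Nat.lt_or_ge t (2 + P.1) with h4 | h4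
    · left
      refine nbar_lt hok ?_
      rw [hE]
      simp only [List.mem_append, List.mem_map, List.mem_range]
      exact Or.inl (Or.inl (Or.inl (Or.inl (Or.inl ⟨t - 2, by omega, by
        rw [Prod.mk.injEq]; omega⟩))))
    · rcases Nat.lt_or_ge t (2 + P.1 + Q.1) with h5 | h5
      · right
        refine nbar_le ?_
        rw [hE]
        simp only [List.mem_append, List.mem_map, List.mem_range]
        exact Or.inl (Or.inl (Or.inl (Or.inl (Or.inr ⟨t - (2 + P.1), by omega, by
          rw [Prod.mk.injEq]; omega⟩))))
      · left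
        refine nbar_lt hok ?_
        rw [hE]
        simp only [List.mem_append, List.mem_map, List.mem_range]
        exact Or.inl (Or.inl (Or.inl (Or.inr ⟨t - (2 + P.1 + Q.1), by omega, by
          rw [Prod.mk.injEq]; omega⟩)))

/-- the number of all closed sets is large -/
theorem two_pow_le_idc_fin {P Q : Dag} {c : ℕ} (h1 : DagOK P) (h2 : DagOK Q) :
    2 ^ c ≤ idc (fin P Q c) := by
  have hQ : ∀ (v z : List Bool), v.length = Q.1 → clB Q.2 (v ++ z) = clB Q.2 v := fun v z hv =>
    clB_left (fun e he => by have := h2 e he; omega)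
  have e1 : idc (fin P Q c) = bsum (1 + (1 + (P.1 + (Q.1 + c)))) fun w =>
    (clB (fin P Q c).2 w).toNat := rfl
  rw [e1]
  simp only [bsum_one_add]
  simp only [bsum_append]
  refine le_trans ?_ (Nat.le_add_left _ _)
  refine le_trans ?_ (Nat.le_add_left _ _)
  have : bsum P.1 (fun u => bsum Q.1 fun v => bsum c fun z => (u.all fun b => !b).toNat *
      ((v.all fun b => !b).toNat * 1)) ≤ bsum P.1 (fun u => bsum Q.1 fun v => bsum c fun z =>
      (clB (fin P Q c).2 (true :: true :: (u ++ (v ++ z)))).toNat) := by
    refine bsum_le fun u hu => bsum_le fun v hv => bsum_le fun z hz => ?_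
    rw [clB_fin h1 _ _ hu hv hz, hQ v z hv]
    by_cases g1 : u.all (fun b => !b) = true
    · by_cases g2 : v.all (fun b => !b) = true
      · rw [clB_all_false g1, clB_all_false g2, g1, g2]
        simp
      · rw [Bool.not_eq_true] at g2
        rw [g2]
        simp
    · rw [Bool.not_eq_true] at g1
      rw [g1]
      simp
  refine le_trans ?_ this
  simp only [bsum_mul_left, bsum_all_false, mul_one, bsum_const, bsum_mul_right, one_mul]
  exact le_rfl

end Pool.Agent.H276R3
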