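import Pool.Agent.H276R3.Cnt

/-!
# Coefficients of products of linear polynomials and lists of bipartite graphs
-/

namespace Pool.Agent.H276R3

open Pool.Agent.NPC Pool.Agent.NPC.Cnt

/-- The coefficients of `p + (c + X) f`, for `f` with the coefficients `row`. -/
def mulc (c p : ℕ) (row : List ℕ) : List ℕ :=
  ((row ++ [0]).zip (p :: row)).map fun q : ℕ × ℕ => c * q.1 + q.2

/-- The coefficients of the product of the `c + X`. -/
def coefs (cs : List ℕ) : List ℕ := cs.foldr (fun c row => mulc c 0 row) [1]

/-- even and odd part of a polynomial -/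
def evs (x : ℕ) : List ℕ → ℕ × ℕ
  | [] => (0, 0)
  | a :: as => (a + x * (evs x as).2, x * (evs x as).1)

theorem mulc_nil (c p : ℕ) : mulc c p [] = [p] := by simp [mulc]

theorem mulc_cons (c p a : ℕ) (as : List ℕ) : mulc c p (a :: as) = (c * a + p) :: mulc c a as := by
  simp [mulc]

theorem evs_mulc (x c : ℕ) : ∀ (row : List ℕ) (p : ℕ), evs x (mulc c p row) =
    (p + c * (evs x row).1 + x * (evs x row).2, c * (evs x row).2 + x * (evs x row).1)
  | [], p => by simp [mulc_nil, evs]
  | a :: as, p => by
    rw [mulc_cons, evs, evs_mulc x c as a]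
    simp only [evs]
    rw [Prod.mk.injEq]
    constructor <;> ring

theorem evs_coefs (x : ℕ) : ∀ cs : List ℕ,
    (((evs x (coefs cs)).1 : ℤ) - (evs x (coefs cs)).2) = (cs.map fun c : ℕ => (c : ℤ) - x).prod
  | [] => by simp [coefs, evs]
  | c :: cs => by
    have e : coefs (c :: cs) = mulc c 0 (coefs cs) := rfl
    rw [e, evs_mulc, List.map_cons, List.prod_cons, ← evs_coefs x cs]
    push_cast
    ring

theorem evs_coefs_zero {x : ℕ} {cs : List ℕ} (h : x ∈ cs) :
    (evs x (coefs cs)).1 = (evs x (coefs cs)).2 := by
  have h1 := evs_coefs x cs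
  have h2 : (cs.map fun c : ℕ => (c : ℤ) - x).prod = 0 :=
    List.prod_eq_zero (List.mem_map.2 ⟨x, h, by ring⟩)
  omega

/-- the difference of the two parts at `1` -/
def dif (cs : List ℕ) : ℕ := (evs 1 (coefs cs)).1 - (evs 1 (coefs cs)).2

theorem evs_coefs_one {cs : List ℕ} (h : ∀ c ∈ cs, 2 ≤ c) :
    (evs 1 (coefs cs)).1 = (evs 1 (coefs cs)).2 + dif cs ∧ 0 < dif cs := by
  have h1 := evs_coefs 1 cs
  have h2 : ∀ cs : List ℕ, (∀ c ∈ cs, 2 ≤ c) → (0 : ℤ) < (cs.map fun c : ℕ => (c : ℤ) - (1 : ℕ)).prod := by
    intro cs
    induction cs with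
    | nil => intro _; simp
    | cons c cs ih =>
      intro h
      rw [List.map_cons, List.prod_cons]
      have e1 := h c List.mem_cons_self
      have e2 := ih fun c' hc' => h c' (List.mem_cons_of_mem _ hc')
      refine mul_pos (by push_cast; omega) e2
  have h3 := h2 cs h
  unfold dif
  omega

/-- the list of the coefficients with even (`b = 0`) or odd (`b = 1`) index, with their index -/
def part (b : ℕ) (row : List ℕ) : List (ℕ × ℕ) := row.zipIdx.filter fun q => decide (q.2 % 2 = b)

theorem part_sum_aux (x b : ℕ) (hb : b < 2) : ∀ (row : List ℕ) (n : ℕ),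
    (((row.zipIdx n).filter fun q => decide (q.2 % 2 = b)).map fun q => q.1 * x ^ q.2).sum =
      x ^ n * (if n % 2 = b then (evs x row).1 else (evs x row).2)
  | [], n => by simp [evs]
  | a :: as, n => by
    rw [List.zipIdx_cons]
    have ih := part_sum_aux x b hb as (n + 1)
    by_cases hn : n % 2 = b
    · have hn' : ¬ (n + 1) % 2 = b := by omega
      rw [List.filter_cons_of_pos (by simpa using hn), List.map_cons, List.sum_cons, ih,
        if_neg hn', if_pos hn]
      simp only [evs]
      ring
    · have hn' : (n + 1) % 2 = b := by omega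
      rw [List.filter_cons_of_neg (by simpa using hn), ih, if_pos hn', if_neg hn]
      simp only [evs]
      ring

theorem part_sum (x : ℕ) (row : List ℕ) :
    ((part 0 row).map fun q => q.1 * x ^ q.2).sum = (evs x row).1 ∧
      ((part 1 row).map fun q => q.1 * x ^ q.2).sum = (evs x row).2 := by
  have h0 := part_sum_aux x 0 (by norm_num) row 0
  have h1 := part_sum_aux x 1 (by norm_num) row 0
  simp only [pow_zero, one_mul, Nat.zero_mod, if_true] at h0
  simp only [pow_zero, one_mul, Nat.zero_mod, zero_ne_one, if_false] at h1
  exact ⟨h0, h1⟩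

/-- the positions (in unary) of the binary digits `1` -/
def digs (n : ℕ) : List (List Unit) :=
  ((List.range n.bits.length).filter fun i => n.bits.getD i false).map fun i =>
    (n.bits.take i).map fun _ => ()

theorem digs_aux : ∀ l : List Bool,
    (((List.range l.length).filter fun i => l.getD i false).map fun i => 2 ^ i).sum = valB l
  | [] => rfl
  | b :: l => by
    have ih := digs_aux l
    have hf : ((List.range l.length).map Nat.succ).filter (fun i => (b :: l).getD i false) =
        ((List.range l.length).filter (fun i => l.getD i false)).map Nat.succ := by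
      rw [List.filter_map]
      rfl
    have hm : ∀ L : List ℕ, ((L.map Nat.succ).map fun i => 2 ^ i).sum =
        2 * (L.map fun i => 2 ^ i).sum := by
      intro L
      induction L with
      | nil => rfl
      | cons a L ih =>
        simp only [List.map_cons, List.sum_cons] at ih ⊢
        rw [ih, Nat.succ_eq_add_one, pow_succ]
        ring
    rw [List.length_cons, List.range_succ_eq_map, valB_cons, ← ih]
    cases b with
    | false =>
      rw [List.filter_cons_of_neg (by simp), hf, hm]
      simp
    | true =>
      rw [List.filter_cons_of_pos (by simp), List.map_cons, List.sum_cons, hf, hm]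
      simp

theorem digs_sum (n : ℕ) : ((digs n).map fun u => 2 ^ u.length).sum = n := by
  have h := digs_aux n.bits
  rw [valB_bits] at h
  conv_rhs => rw [← h]
  unfold digs
  rw [List.map_map]
  congr 1
  refine List.map_congr_left fun i hi => ?_
  have h1 := List.mem_of_mem_filter hi
  rw [List.mem_range] at h1
  simp only [Function.comp, List.length_map, List.length_take]
  rw [min_eq_left h1.le]

theorem sub_append {A v : List Bool} {U : List ℕ} (h : ∀ i ∈ U, i < A.length) :
    sub (A ++ v) U = sub A U := by
  unfold sub
  rw [Bool.eq_iff_iff, List.all_eq_true, List.all_eq_true]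
  refine forall₂_congr fun i hi => ?_
  rw [getD_app_left (h i hi)]

theorem idb_add {lo : List Unit} {Us : List (List ℕ)} (h : BipOK (lo, Us)) (u : List Unit) :
    idb (lo ++ u, Us) = 2 ^ u.length * idb (lo, Us) := by
  unfold idb
  rw [List.length_append, bsum_append]
  rw [← bsum_mul_left]
  refine bsum_congr fun A hA => ?_
  have : bsum u.length (fun v => 2 ^ Us.countP (sub (A ++ v))) =
      bsum u.length (fun _ => 2 ^ Us.countP (sub A)) := by
    refine bsum_congr fun v _ => ?_
    congr 1
    refine List.countP_congr fun U hU => ?_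
    rw [sub_append fun i hi => by rw [hA]; exact h U hU i hi]
  dsimp only
  rw [this, bsum_const]

theorem idb_unary (u : List Unit) : idb (u, []) = 2 ^ u.length := by
  unfold idb
  simp only [List.countP_nil, pow_zero]
  rw [bsum_const, mul_one]

theorem countP_flatMap_const {ι : Type} (C : List (List ℕ)) (p : List ℕ → Bool) : ∀ L : List ι,
    (L.flatMap fun _ => C).countP p = L.length * C.countP p
  | [] => by simp
  | a :: L => by
    rw [List.flatMap_cons, List.countP_append, countP_flatMap_const C p L, List.length_cons]
    ring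

theorem sum_bsum {ι : Type} (n : ℕ) (c : ι → ℕ) (f : ι → List Bool → ℕ) : ∀ L : List ι,
    (L.map fun q => c q * bsum n (f q)).sum = bsum n fun A => (L.map fun q => c q * f q A).sum
  | [] => by simp [bsum_const]
  | q :: L => by
    simp only [List.map_cons, List.sum_cons]
    rw [sum_bsum n c f L, bsum_add, bsum_mul_left]

/-- The lowers (in unary), the copies of the singletons and of the constraints. -/
def ups (row : List ℕ) (l : ℕ) (r : List Unit) (Sg C : List (List ℕ)) : List (List ℕ) :=
  (r.flatMap fun _ => Sg) ++ (row.take l).flatMap fun _ => C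

/-- the graphs for the part `b` of the coefficients -/
def terms (b : ℕ) (row : List ℕ) (lo r : List Unit) (Sg C : List (List ℕ)) : List Bip :=
  (part b row).flatMap fun q => (digs (2 * q.1)).map fun u => (lo ++ u, ups row q.2 r Sg C)

theorem terms_ok {b : ℕ} {row : List ℕ} {lo r : List Unit} {Sg C : List (List ℕ)}
    (h1 : BipOK (lo, Sg)) (h2 : BipOK (lo, C)) : ∀ t ∈ terms b row lo r Sg C, BipOK t := by
  intro t ht
  unfold terms at ht
  rw [List.mem_flatMap] at ht
  obtain ⟨q, _, ht⟩ := ht
  rw [List.mem_map] at ht
  obtain ⟨u, _, rfl⟩ := ht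
  intro U hU i hi
  unfold ups at hU
  simp only [List.mem_append, List.mem_flatMap] at hU
  simp only [List.length_append]
  rcases hU with ⟨_, _, hU⟩ | ⟨_, _, hU⟩
  · have := h1 U hU i hi
    simp only at this
    omega
  · have := h2 U hU i hi
    simp only at this
    omega

theorem ups_ok {row : List ℕ} {l : ℕ} {lo r : List Unit} {Sg C : List (List ℕ)}
    (h1 : BipOK (lo, Sg)) (h2 : BipOK (lo, C)) : BipOK (lo, ups row l r Sg C) := by
  intro U hU i hi
  unfold ups at hU
  simp only [List.mem_append, List.mem_flatMap] at hU
  rcases hU with ⟨_, _, hU⟩ | ⟨_, _, hU⟩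
  · exact h1 U hU i hi
  · exact h2 U hU i hi

theorem sum_flatMap {ι : Type} (f : Bip → ℕ) (g : ι → List Bip) : ∀ L : List ι,
    ((L.flatMap g).map f).sum = (L.map fun q => ((g q).map f).sum).sum
  | [] => rfl
  | a :: L => by
    rw [List.flatMap_cons, List.map_append, List.sum_append, sum_flatMap f g L, List.map_cons,
      List.sum_cons]

theorem terms_sum {b : ℕ} {row : List ℕ} {lo r : List Unit} {Sg C : List (List ℕ)}
    (h1 : BipOK (lo, Sg)) (h2 : BipOK (lo, C)) :
    ((terms b row lo r Sg C).map idb).sum = bsum lo.length fun A =>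
      2 * 2 ^ (r.length * Sg.countP (sub A)) *
        ((part b row).map fun q => q.1 * (2 ^ C.countP (sub A)) ^ q.2).sum := by
  unfold terms
  rw [sum_flatMap]
  have e1 : ∀ q ∈ part b row,
      (((digs (2 * q.1)).map fun u => (lo ++ u, ups row q.2 r Sg C)).map idb).sum =
        (2 * q.1) * bsum lo.length (fun A => 2 ^ (r.length * Sg.countP (sub A)) *
          (2 ^ C.countP (sub A)) ^ q.2) := by
    intro q hq
    rw [List.map_map]
    have e2 : (idb ∘ fun u => (lo ++ u, ups row q.2 r Sg C)) = fun u =>
        2 ^ u.length * idb (lo, ups row q.2 r Sg C) := by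
      funext u
      exact idb_add (ups_ok h1 h2) u
    rw [e2, List.sum_map_mul_right, digs_sum]
    congr 1
    unfold idb
    refine bsum_congr fun A _ => ?_
    have hq2 : q.2 ≤ row.length := by
      have h3 := List.mem_of_mem_filter hq
      have := List.mem_zipIdx' (x := q.1) (i := q.2) h3
      omega
    unfold ups
    dsimp only
    rw [List.countP_append, countP_flatMap_const, countP_flatMap_const, List.length_take,
      min_eq_left hq2, pow_add, ← pow_mul, mul_comm q.2]
  rw [List.map_congr_left e1]
  rw [sum_bsum]
  refine bsum_congr fun A _ => ?_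
  rw [← List.sum_map_mul_left]
  congr 1
  refine List.map_congr_left fun q _ => ?_
  ring

end Pool.Agent.H276R3
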