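import Pool.Agent.H276R3.Alpha

/-!
# A criterion for generalised median stable matchings
-/

namespace Pool.Agent.H276R3

open Equiv Pool.Agent.NPC

/-- the set of times given by a bit list -/
def bitS (w : List Bool) (t : ℕ) : Prop := w.getD t false = true

section

variable {X : Type} {N : ℕ} (R : Run X N) {r q : X → X → ℕ} (hp : R.Pref r q)

include hp in
theorem Run.card_stable [Finite X] (Q : (ℕ → Prop) → Prop) :
    Nat.card {M : Perm X // StableP r q M ∧ Q (R.sg M)} =
      Nat.card {w : List Bool // w.length = N ∧ R.Closed (bitS w) ∧ Q (bitS w)} := by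
  classical
  let F : Perm X → List Bool := fun M => (List.range N).map fun t => decide (R.sg M t)
  have hF : ∀ M, bitS (F M) = R.sg M := by
    intro M
    funext t
    apply propext
    show ((List.range N).map fun t => decide (R.sg M t)).getD t false = true ↔ _
    by_cases ht : t < N
    · rw [List.getD_eq_getElem _ _ (by simpa using ht)]
      simp
    · rw [List.getD_eq_default _ _ (by simp; omega)]
      constructor
      · intro h
        exact absurd h (by simp)
      · intro h
        exact absurd h.1 ht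
  refine Nat.card_congr (Equiv.ofBijective (fun M : {M : Perm X // StableP r q M ∧ Q (R.sg M)} =>
    (⟨F M.1, by simp [F], by rw [hF]; exact R.sg_closed hp M.2.1, by rw [hF]; exact M.2.2⟩ :
      {w : List Bool // w.length = N ∧ R.Closed (bitS w) ∧ Q (bitS w)})) ⟨?_, ?_⟩)
  · rintro ⟨M, hM, _⟩ ⟨M', hM', _⟩ h
    simp only [Subtype.mk.injEq] at h
    apply Subtype.ext
    apply Equiv.ext
    intro x
    have h1 : R.sg M = R.sg M' := by rw [← hF M, ← hF M', h]
    obtain ⟨τ, hτ⟩ := R.exists_good (R.sg_closed hp hM) x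
    simp only
    rw [R.M_eq hp hM hτ, R.M_eq hp hM' (h1 ▸ hτ)]
  · rintro ⟨w, hw1, hw2, hw3⟩
    obtain ⟨M, hM⟩ := R.exists_matching hw2
    have h1 := R.stable_of_closed hp hw2 hM
    have h2 : R.sg M = bitS w := by
      funext t
      apply propext
      by_cases ht : t < N
      · exact R.sg_eq hw2 hM ht
      · constructor
        · intro h
          exact absurd h.1 ht
        · intro h
          unfold bitS at h
          rw [List.getD_eq_default _ _ (by omega)] at h
          exact absurd h (by simp)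
    refine ⟨⟨M, h1, by rw [h2]; exact hw3⟩, ?_⟩
    apply Subtype.ext
    simp only
    apply List.ext_getElem
    · simp [F, hw1]
    · intro i h3 h4
      have h5 : (R.sg M i ↔ bitS w i) := by rw [h2]
      unfold bitS at h5
      rw [List.getD_eq_getElem _ _ h4] at h5
      simp only [F, List.getElem_map, List.getElem_range]
      by_cases h6 : R.sg M i
      · simp [h6, h5.1 h6]
      · simp only [h6, decide_false]
        cases h7 : w[i]
        · rfl
        · exact absurd (h5.2 h7) h6

include hp in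
theorem Run.lt_iff {M' M : Perm X} (hM' : StableP r q M') (hM : StableP r q M) (x : X) :
    r x (M' x) < r x (M x) ↔ ∃ t, t < N ∧ R.D t x ∧ ¬ R.sg M' t ∧ R.sg M t := by
  obtain ⟨τ', h'⟩ := R.exists_good (R.sg_closed hp hM') x
  obtain ⟨τ, h⟩ := R.exists_good (R.sg_closed hp hM) x
  rw [R.M_eq hp hM' h', R.M_eq hp hM h, R.rank_lt hp h'.1 h.1]
  constructor
  · rintro ⟨t, h1, h2, h3⟩
    have h4 : t < N := lt_of_lt_of_le h2 h.1
    refine ⟨t, h4, h3, fun h5 => ?_, (h.2 t h4 h3).2 h2⟩
    have := (h'.2 t h4 h3).1 h5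
    omega
  · rintro ⟨t, h1, h2, h3, h4⟩
    refine ⟨t, ?_, (h.2 t h1 h2).1 h4, h2⟩
    by_contra hcon
    exact h3 ((h'.2 t h1 h2).2 (by omega))

end

/-- the number of closed sets of times which do not contain `t` -/
noncomputable def Run.nb {X : Type} {N : ℕ} (R : Run X N) (t : ℕ) : ℕ :=
  Nat.card {w : List Bool // w.length = N ∧ R.Closed (bitS w) ∧ ¬ bitS w t}

section

variable {n N : ℕ} {I : Inst} (R : Run (Fin n) N)
  (hp : R.Pref (fun m w => mrank I m w) (fun w m => wrank I w m))

include hp in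
theorem nb_eq (t : ℕ) : R.nb t = {M : Perm (Fin n) | Stable n I M ∧ ¬ R.sg M t}.ncard := by
  unfold Run.nb
  rw [← R.card_stable hp (fun S => ¬ S t)]
  rfl

theorem finite_set (S : Set (Perm (Fin n))) : S.Finite := Set.toFinite _

include hp in
/-- the closed set `{0}` and its matching -/
theorem crit {M0 : Perm (Fin n)} (hM0 : Stable n I M0) (hsg : ∀ t, R.sg M0 t ↔ t = 0)
    (hN : 2 ≤ N)
    (hA : ∀ t < N, ∃ x, R.D t x ∧ ∀ t' < N, R.D t' x → t' = t)
    (hsep : ∀ t, 1 ≤ t → t < N → R.nb 0 < R.nb t ∨ R.nb 1 ≤ R.nb t) :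
    (∀ j, IsAlpha n I j M0 → R.nb 0 < j ∧ j ≤ R.nb 1) ∧
    (R.nb 0 < R.nb 1 → IsAlpha n I (R.nb 0 + 1) M0) := by
  have hL : ∀ m, Lc n I m (mrank I m (M0 m)) =
      {M : Perm (Fin n) | Stable n I M ∧ R.D 0 m ∧ ¬ R.sg M 0}.ncard := by
    intro m
    unfold Lc
    show {M : Perm (Fin n) | _}.ncard = _
    congr 1
    ext M
    simp only [Set.mem_ofPred_eq]
    refine and_congr_right fun hM => ?_
    rw [R.lt_iff hp hM hM0]
    constructor
    · rintro ⟨t, _, h2, h3, h4⟩
      rw [hsg] at h4
      subst h4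
      exact ⟨h2, h3⟩
    · rintro ⟨h1, h2⟩
      exact ⟨0, by omega, h1, h2, (hsg 0).2 rfl⟩
  have hU : ∀ m, Uc n I m (mrank I m (M0 m)) =
      {M : Perm (Fin n) | Stable n I M ∧ ∀ t, 1 ≤ t → t < N → R.D t m → ¬ R.sg M t}.ncard := by
    intro m
    unfold Uc
    show {M : Perm (Fin n) | _}.ncard = _
    congr 1
    ext M
    simp only [Set.mem_ofPred_eq]
    refine and_congr_right fun hM => ?_
    rw [← not_lt, R.lt_iff hp hM0 hM]
    constructor
    · intro h t h1 h2 h3 h4
      exact h ⟨t, h2, h3, by rw [hsg]; omega, h4⟩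
    · rintro h ⟨t, h1, h2, h3, h4⟩
      rw [hsg] at h3
      exact h t (by omega) h1 h2 h4
  have hbar := nb_eq R hp
  constructor
  · intro j hj
    rw [isAlpha_iff] at hj
    obtain ⟨x0, h0, h0'⟩ := hA 0 (by omega)
    obtain ⟨x1, h1, h1'⟩ := hA 1 (by omega)
    have e0 := (hj.2.2 x0).1
    have e1 := (hj.2.2 x1).2
    rw [hL] at e0
    rw [hU] at e1
    rw [hbar, hbar]
    constructor
    · have e2 : {M : Perm (Fin n) | Stable n I M ∧ ¬ R.sg M 0} =
          {M : Perm (Fin n) | Stable n I M ∧ R.D 0 x0 ∧ ¬ R.sg M 0} := by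
        ext M
        simp only [Set.mem_ofPred_eq]
        exact and_congr_right fun _ => ⟨fun h => ⟨h0, h⟩, fun h => h.2⟩
      rw [e2]
      exact e0
    · have e2 : {M : Perm (Fin n) | Stable n I M ∧ ¬ R.sg M 1} =
          {M : Perm (Fin n) | Stable n I M ∧ ∀ t, 1 ≤ t → t < N → R.D t x1 → ¬ R.sg M t} := by
        ext M
        simp only [Set.mem_ofPred_eq]
        refine and_congr_right fun _ => ⟨fun h t _ h4 h5 h6 => ?_,
          fun h => h 1 le_rfl (by omega) h1⟩
        rw [h1' t h4 h5] at h6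
        exact h h6
      rw [e2]
      exact e1
  · intro hlt
    have hs : R.nb 0 + 1 ≤ (stableMatchings n I).card := by
      rw [card_stableMatchings, hbar]
      show _ ≤ {M : Perm (Fin n) | Stable n I M}.ncard
      apply Set.ncard_lt_ncard _ (finite_set _)
      refine Set.ssubset_iff_subset_ne.2 ⟨fun M hM => hM.1, fun h => ?_⟩
      have : M0 ∈ {M : Perm (Fin n) | Stable n I M} := hM0
      rw [← h] at this
      exact this.2 ((hsg 0).2 rfl)
    rw [isAlpha_iff]
    refine ⟨by omega, hs, fun m => ⟨?_, ?_⟩⟩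
    · rw [hL, hbar, Nat.lt_succ_iff]
      exact Set.ncard_le_ncard (fun M hM => ⟨hM.1, hM.2.2⟩) (finite_set _)
    · rw [hU]
      by_cases hm : ∃ t, 1 ≤ t ∧ t < N ∧ R.D t m
      · -- the first such time
        classical
        set t0 := Nat.find hm with ht0
        obtain ⟨k1, k2, k3⟩ := Nat.find_spec hm
        have hle : R.nb t0 ≤ {M : Perm (Fin n) | Stable n I M ∧
            ∀ t, 1 ≤ t → t < N → R.D t m → ¬ R.sg M t}.ncard := by
          rw [hbar]
          refine Set.ncard_le_ncard (fun M hM => ⟨hM.1, fun t h1 h2 h3 h4 => ?_⟩) (finite_set _)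
          apply hM.2
          have h5 : t0 ≤ t := Nat.find_min' hm ⟨h1, h2, h3⟩
          rcases Nat.lt_or_ge t0 t with h6 | h6
          · exact R.sg_closed hp hM.1 t0 t m h6 h2 k3 h3 h4
          · have : t = t0 := by omega
            rwa [← this]
        rcases hsep t0 k1 k2 with h | h
        · omega
        · omega
      · push Not at hm
        refine hs.trans (le_of_eq ?_)
        rw [card_stableMatchings]
        show {M : Perm (Fin n) | Stable n I M}.ncard = _
        congr 1
        ext M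
        simp only [Set.mem_ofPred_eq]
        exact ⟨fun h => ⟨h, fun t h1 h2 h3 => absurd h3 (hm t h1 h2)⟩, fun h => h.1⟩

end

end Pool.Agent.H276R3
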