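import Pool.Agent.H276R3.Sys

/-!
# The cycles of a directed acyclic graph
-/

namespace Pool.Agent.H276R3

open Equiv Pool.Agent.NPC

/-- a directed graph: number of vertices and list of edges -/
abbrev Dag := ℕ × List (ℕ × ℕ)

/-- edges go from smaller to larger vertices -/
def DagOK (G : Dag) : Prop := ∀ e ∈ G.2, e.1 < e.2 ∧ e.2 < G.1

/-- the edges starting at `v` -/
def outs (E : List (ℕ × ℕ)) (v : ℕ) : List ℕ :=
  (List.range E.length).filter fun k => decide ((E.getD k (0, 0)).1 = v)

/-- the edges ending at `v` -/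
def ins (E : List (ℕ × ℕ)) (v : ℕ) : List ℕ :=
  (List.range E.length).filter fun k => decide ((E.getD k (0, 0)).2 = v)

/-- the cycle of a vertex -/
def cyc (G : Dag) (v : ℕ) : List ℕ :=
  [2 * v, 2 * v + 1] ++ ((outs G.2 v).flatMap (fun k => [2 * G.1 + 2 * k, 2 * G.1 + 2 * k + 1]) ++
    (ins G.2 v).map (fun k => 2 * G.1 + 2 * k))

/-- the cycles -/
def cycs (G : Dag) : List (List ℕ) := (List.range G.1).map (cyc G)

/-- the number of men -/
def num (G : Dag) : ℕ := 2 * G.1 + 2 * G.2.length

theorem mem_outs {E : List (ℕ × ℕ)} {v k : ℕ} :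
    k ∈ outs E v ↔ k < E.length ∧ (E.getD k (0, 0)).1 = v := by simp [outs]

theorem mem_ins {E : List (ℕ × ℕ)} {v k : ℕ} :
    k ∈ ins E v ↔ k < E.length ∧ (E.getD k (0, 0)).2 = v := by simp [ins]

theorem mem_cyc {G : Dag} {v m : ℕ} : m ∈ cyc G v ↔ m = 2 * v ∨ m = 2 * v + 1 ∨
    (∃ k ∈ outs G.2 v, m = 2 * G.1 + 2 * k ∨ m = 2 * G.1 + 2 * k + 1) ∨
      ∃ k ∈ ins G.2 v, m = 2 * G.1 + 2 * k := by
  unfold cyc
  simp only [List.mem_append, List.mem_cons, List.not_mem_nil, or_false, List.mem_flatMap,
    List.mem_map]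
  constructor
  · rintro ((h | h) | ⟨k, h1, h2⟩ | ⟨k, h1, h2⟩)
    · exact Or.inl h
    · exact Or.inr (Or.inl h)
    · exact Or.inr (Or.inr (Or.inl ⟨k, h1, h2⟩))
    · exact Or.inr (Or.inr (Or.inr ⟨k, h1, h2.symm⟩))
  · rintro (h | h | ⟨k, h1, h2⟩ | ⟨k, h1, h2⟩)
    · exact Or.inl (Or.inl h)
    · exact Or.inl (Or.inr h)
    · exact Or.inr (Or.inl ⟨k, h1, h2⟩)
    · exact Or.inr (Or.inr ⟨k, h1, h2.symm⟩)

theorem getD_mem {G : Dag} (hG : DagOK G) {k : ℕ} (hk : k < G.2.length) :
    (G.2.getD k (0, 0)).1 < (G.2.getD k (0, 0)).2 ∧ (G.2.getD k (0, 0)).2 < G.1 := by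
  rw [List.getD_eq_getElem _ _ hk]
  exact hG _ (List.getElem_mem hk)

theorem cyc_nodup {G : Dag} (hG : DagOK G) {v : ℕ} (hv : v < G.1) : (cyc G v).Nodup := by
  unfold cyc
  rw [List.nodup_append', List.nodup_append']
  refine ⟨by simp, ⟨?_, ?_, ?_⟩, ?_⟩
  · rw [List.nodup_flatMap]
    refine ⟨fun k _ => by simp, ?_⟩
    have h1 : (outs G.2 v).Nodup := List.nodup_range.filter _
    refine h1.imp fun {a b} hab => ?_
    intro x hx hx'
    simp only [List.mem_cons, List.not_mem_nil, or_false] at hx hx'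
    omega
  · have h1 : (ins G.2 v).Nodup := List.nodup_range.filter _
    refine h1.map fun a b hab => ?_
    have hab' : 2 * G.1 + 2 * a = 2 * G.1 + 2 * b := hab
    omega
  · intro x hx hx'
    rw [List.mem_flatMap] at hx
    rw [List.mem_map] at hx'
    obtain ⟨k, hk, hkx⟩ := hx
    obtain ⟨k', hk', rfl⟩ := hx'
    simp only [List.mem_cons, List.not_mem_nil, or_false] at hkx
    have : k = k' := by omega
    subst this
    rw [mem_outs] at hk
    rw [mem_ins] at hk'
    have := getD_mem hG hk.1
    omega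
  · intro x hx hx'
    simp only [List.mem_cons, List.not_mem_nil, or_false] at hx
    rw [List.mem_append, List.mem_flatMap, List.mem_map] at hx'
    rcases hx' with ⟨k, _, hk⟩ | ⟨k, _, hk⟩
    · simp only [List.mem_cons, List.not_mem_nil, or_false] at hk
      omega
    · omega

theorem formPerm_next {l l1 l2 : List ℕ} {x y : ℕ} (hl : l.Nodup) (h : l = l1 ++ x :: y :: l2) :
    l.formPerm x = y := by
  have h1 : l1.length + 1 < l.length := by rw [h]; simp
  have h2 : l[l1.length] = x := by simp [h]
  have h3 : l[l1.length + 1] = y := by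
    simp only [h]
    rw [List.getElem_append_right (by omega)]
    simp
  have h4 := List.formPerm_apply_getElem l hl l1.length (by omega)
  rw [h2] at h4
  rw [h4]
  simp only [Nat.mod_eq_of_lt h1]
  exact h3

theorem formPerm_last {l l1 : List ℕ} {a x : ℕ} (hl : l.Nodup) (h : l = a :: l1 ++ [x]) :
    l.formPerm x = a := by
  have h1 : l.length = l1.length + 2 := by rw [h]; simp
  have h2 : l[l1.length + 1]'(by omega) = x := by
    simp only [h]
    rw [List.getElem_append_right (by simp)]
    simp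
  have h3 : l[0]'(by omega) = a := by simp [h]
  have h4 := List.formPerm_apply_getElem l hl (l1.length + 1) (by omega)
  rw [h2] at h4
  rw [h4]
  have : (l1.length + 1 + 1) % l.length = 0 := by rw [h1]; exact Nat.mod_self _
  simp only [this]
  exact h3

theorem succ_out {G : Dag} (hG : DagOK G) {v k : ℕ} (hv : v < G.1) (hk : k ∈ outs G.2 v) :
    (cyc G v).formPerm (2 * G.1 + 2 * k) = 2 * G.1 + 2 * k + 1 := by
  obtain ⟨l1, l2, h⟩ := List.append_of_mem hk
  refine formPerm_next (l1 := [2 * v, 2 * v + 1] ++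
    l1.flatMap (fun k => [2 * G.1 + 2 * k, 2 * G.1 + 2 * k + 1]))
    (l2 := l2.flatMap (fun k => [2 * G.1 + 2 * k, 2 * G.1 + 2 * k + 1]) ++
      (ins G.2 v).map (fun k => 2 * G.1 + 2 * k)) (cyc_nodup hG hv) ?_
  unfold cyc
  rw [h, List.flatMap_append, List.flatMap_cons]
  simp only [List.append_assoc, List.cons_append, List.nil_append]

theorem succ_in {G : Dag} (hG : DagOK G) {v k : ℕ} (hv : v < G.1) (hk : k ∈ ins G.2 v) :
    (cyc G v).formPerm (2 * G.1 + 2 * k) = 2 * v ∨
      ∃ k' ∈ ins G.2 v, (cyc G v).formPerm (2 * G.1 + 2 * k) = 2 * G.1 + 2 * k' := by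
  obtain ⟨l1, l2, h⟩ := List.append_of_mem hk
  cases l2 with
  | nil =>
    left
    refine formPerm_last (l1 := [2 * v + 1] ++ ((outs G.2 v).flatMap
      (fun k => [2 * G.1 + 2 * k, 2 * G.1 + 2 * k + 1]) ++
        l1.map (fun k => 2 * G.1 + 2 * k))) (cyc_nodup hG hv) ?_
    unfold cyc
    rw [h, List.map_append]
    simp only [List.append_assoc, List.cons_append, List.nil_append, List.map_cons, List.map_nil]
  | cons k' l2 =>
    right
    refine ⟨k', by rw [h]; simp, ?_⟩
    refine formPerm_next (l1 := [2 * v, 2 * v + 1] ++ ((outs G.2 v).flatMap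
      (fun k => [2 * G.1 + 2 * k, 2 * G.1 + 2 * k + 1]) ++
        l1.map (fun k => 2 * G.1 + 2 * k))) (l2 := l2.map (fun k => 2 * G.1 + 2 * k))
        (cyc_nodup hG hv) ?_
    unfold cyc
    rw [h, List.map_append]
    simp only [List.append_assoc, List.cons_append, List.nil_append, List.map_cons]

theorem cycs_length (G : Dag) : (cycs G).length = G.1 := by simp [cycs]

theorem cycs_getElem {G : Dag} {t : ℕ} (ht : t < (cycs G).length) : (cycs G)[t] = cyc G t := by
  simp [cycs]

theorem Wp_succ' {G : Dag} {t : ℕ} (ht : t < G.1) (m : ℕ) :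
    Wp (cycs G) (t + 1) m = Wp (cycs G) t ((cyc G t).formPerm m) := by
  rw [Wp_succ (by rw [cycs_length]; exact ht), cycs_getElem]

theorem Wp_const {G : Dag} {a b m : ℕ} (hab : a ≤ b) (hb : b ≤ G.1)
    (h : ∀ t, a ≤ t → t < b → m ∉ cyc G t) : Wp (cycs G) b m = Wp (cycs G) a m := by
  induction b, hab using Nat.le_induction with
  | base => rfl
  | succ b hab ih =>
    rw [Wp_succ' (by omega), List.formPerm_apply_of_notMem (h b hab (by omega)),
      ih (by omega) fun t h1 h2 => h t h1 (by omega)]

theorem Wp_fresh {G : Dag} {b m : ℕ} (hb : b ≤ G.1) (h : ∀ t, t < b → m ∉ cyc G t) :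
    Wp (cycs G) b m = m := by
  rw [Wp_const (Nat.zero_le b) hb fun t _ h2 => h t h2]
  simp [Wp]

theorem moves {G : Dag} (hG : DagOK G) {t m : ℕ} (ht : t < G.1) (hm : m ∈ cyc G t) :
    Wp (cycs G) (t + 1) m ≠ Wp (cycs G) t m := by
  rw [Wp_succ' ht]
  intro he
  have := (Wp (cycs G) t).injective he
  exact (List.formPerm_apply_mem_ne_self_iff _ (cyc_nodup hG ht) _ hm).2 (by simp [cyc]) this

/-- the woman of an edge between its two cycles -/
theorem Wp_edge {G : Dag} (hG : DagOK G) {k t : ℕ} (hk : k < G.2.length)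
    (h1 : (G.2.getD k (0, 0)).1 < t) (h2 : t ≤ (G.2.getD k (0, 0)).2) :
    Wp (cycs G) t (2 * G.1 + 2 * k) = 2 * G.1 + 2 * k + 1 := by
  have h3 := getD_mem hG hk
  set a := (G.2.getD k (0, 0)).1 with ha
  rw [Wp_const (a := a + 1) (by omega) (by omega), Wp_succ' (by omega),
    succ_out hG (by omega) (mem_outs.2 ⟨hk, ha.symm⟩), Wp_fresh (by omega)]
  · intro t' ht' hm
    rw [mem_cyc] at hm
    rcases hm with h | h | ⟨k', h, h'⟩ | ⟨k', h, h'⟩
    · omega
    · omega
    · have : k' = k := by omega
      subst this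
      have := (mem_outs.1 h).2
      omega
    · omega
  · intro t' h4 h5 hm
    rw [mem_cyc] at hm
    rcases hm with h | h | ⟨k', h, h'⟩ | ⟨k', h, h'⟩
    · omega
    · omega
    · have : k' = k := by omega
      subst this
      have := (mem_outs.1 h).2
      omega
    · have : k' = k := by omega
      subst this
      have := (mem_ins.1 h).2
      omega

theorem okX_cycs {G : Dag} (hG : DagOK G) : OkX (num G) (cycs G) := by
  refine ⟨?_, ?_, ?_, ?_⟩
  · intro l hl
    unfold cycs at hl
    rw [List.mem_map] at hl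
    obtain ⟨v, hv, rfl⟩ := hl
    exact cyc_nodup hG (List.mem_range.1 hv)
  · intro l hl
    unfold cycs at hl
    rw [List.mem_map] at hl
    obtain ⟨v, hv, rfl⟩ := hl
    simp [cyc]
  · intro l hl x hx
    unfold cycs at hl
    rw [List.mem_map] at hl
    obtain ⟨v, hv, rfl⟩ := hl
    rw [List.mem_range] at hv
    unfold num
    rw [mem_cyc] at hx
    rcases hx with h | h | ⟨k, h, h'⟩ | ⟨k, h, h'⟩
    · omega
    · omega
    · have := (mem_outs.1 h).1
      omega
    · have := (mem_ins.1 h).1
      omega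
  · intro m s t u hst htu hu hm
    rw [cycs_length] at hu
    rw [List.getD_eq_getElem _ _ (by rw [cycs_length]; omega), cycs_getElem] at hm
    -- is `m` in one cycle only?
    by_cases hone : ∀ t', t' < G.1 → m ∈ cyc G t' → t' = t
    · rw [← Wp_const hst (by omega) (fun t' h1 h2 h3 => by
        have := hone t' (by omega) h3
        omega), Wp_const (a := t + 1) htu hu (fun t' h1 h2 h3 => by
        have := hone t' (by omega) h3
        omega)]
      exact (moves hG (by omega) hm).symm
    · -- then it is an edge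
      have hedge : ∃ k, k < G.2.length ∧ m = 2 * G.1 + 2 * k ∧
          (t = (G.2.getD k (0, 0)).1 ∨ t = (G.2.getD k (0, 0)).2) := by
        rw [mem_cyc] at hm
        push Not at hone
        obtain ⟨t', ht', hm', hne⟩ := hone
        rw [mem_cyc] at hm'
        rcases hm with h | h | ⟨k, h, h'⟩ | ⟨k, h, h'⟩
        · exfalso
          rcases hm' with g | g | ⟨k, g, g'⟩ | ⟨k, g, g'⟩ <;> omega
        · exfalso
          rcases hm' with g | g | ⟨k, g, g'⟩ | ⟨k, g, g'⟩ <;> omega
        · rcases h' with h' | h'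
          · exact ⟨k, (mem_outs.1 h).1, h', Or.inl (mem_outs.1 h).2.symm⟩
          · exfalso
            rcases hm' with g | g | ⟨k', g, g'⟩ | ⟨k', g, g'⟩
            · omega
            · omega
            · have : k' = k := by omega
              subst this
              have e1 := (mem_outs.1 h).2
              have e2 := (mem_outs.1 g).2
              omega
            · omega
        · exact ⟨k, (mem_ins.1 h).1, h', Or.inr (mem_ins.1 h).2.symm⟩
      obtain ⟨k, hk, rfl, hkt⟩ := hedge
      have hab := getD_mem hG hk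
      set a := (G.2.getD k (0, 0)).1 with ha
      set b := (G.2.getD k (0, 0)).2 with hb
      have hmem : ∀ t', 2 * G.1 + 2 * k ∈ cyc G t' → t' < G.1 → t' = a ∨ t' = b := by
        intro t' hm' ht'
        rw [mem_cyc] at hm'
        rcases hm' with g | g | ⟨k', g, g'⟩ | ⟨k', g, g'⟩
        · omega
        · omega
        · have : k' = k := by omega
          subst this
          exact Or.inl (mem_outs.1 g).2.symm
        · have : k' = k := by omega
          subst this
          exact Or.inr (mem_ins.1 g).2.symm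
      -- the three values
      have v1 : ∀ s ≤ a, Wp (cycs G) s (2 * G.1 + 2 * k) = 2 * G.1 + 2 * k := by
        intro s hs
        refine Wp_fresh (by omega) fun t' h1 h2 => ?_
        have := hmem t' h2 (by omega)
        omega
      have v2 : ∀ s, a < s → s ≤ b → Wp (cycs G) s (2 * G.1 + 2 * k) = 2 * G.1 + 2 * k + 1 :=
        fun s h1 h2 => Wp_edge hG hk h1 h2
      have v3 : ∀ s, b < s → s ≤ G.1 → Wp (cycs G) s (2 * G.1 + 2 * k) ≠ 2 * G.1 + 2 * k ∧
          Wp (cycs G) s (2 * G.1 + 2 * k) ≠ 2 * G.1 + 2 * k + 1 := by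
        intro s h1 h2
        have hkb : k ∈ ins G.2 b := mem_ins.2 ⟨hk, hb.symm⟩
        have hmb : 2 * G.1 + 2 * k ∈ cyc G b := mem_cyc.2 (Or.inr (Or.inr (Or.inr ⟨k, hkb, rfl⟩)))
        have e0 := moves hG (t := b) (by omega) hmb
        rw [v2 b (by omega) le_rfl] at e0
        rw [Wp_const (a := b + 1) h1 h2 (fun t' h3 h4 h5 => by
          have := hmem t' h5 (by omega)
          omega)]
        refine ⟨?_, e0⟩
        rw [Wp_succ' (by omega)]
        rcases succ_in hG (v := b) (by omega) hkb with h5 | ⟨k', hk', h5⟩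
        · rw [h5, Wp_fresh (by omega)]
          · omega
          · intro t' ht' hm'
            rw [mem_cyc] at hm'
            rcases hm' with g | g | ⟨k', g, g'⟩ | ⟨k', g, g'⟩ <;> omega
        · rw [h5]
          have h6 := (mem_ins.1 hk')
          rw [Wp_edge hG h6.1 (by have := getD_mem hG h6.1; omega) (by omega)]
          omega
      rcases Nat.lt_or_ge a s with h1 | h1
      · have h2 : t = b := by
          rcases hkt with h | h
          · omega
          · exact h
        rw [v2 s h1 (by omega)]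
        exact (v3 u (by omega) hu).2.symm
      · rw [v1 s h1]
        rcases Nat.lt_or_ge b u with h2 | h2
        · exact (v3 u h2 hu).1.symm
        · rw [v2 u (by omega) h2]
          omega

/-- closed sets of vertices -/
def DClosed (G : Dag) (S : ℕ → Prop) : Prop := ∀ e ∈ G.2, S e.2 → S e.1

theorem runOf_closed {G : Dag} (hG : DagOK G) (S : ℕ → Prop) :
    (runOf (okX_cycs hG)).Closed S ↔ DClosed G S := by
  constructor
  · intro h e he h2
    obtain ⟨k, hk, rfl⟩ := List.mem_iff_getElem.1 he
    have h3 := hG _ he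
    have hlt : 2 * G.1 + 2 * k < num G := by unfold num; omega
    have e1 : G.2.getD k (0, 0) = G.2[k] := List.getD_eq_getElem _ _ hk
    refine h G.2[k].1 G.2[k].2 ⟨2 * G.1 + 2 * k, hlt⟩ h3.1 (by rw [cycs_length]; exact h3.2)
      ?_ ?_ h2
    · rw [runOf_D _ (by rw [cycs_length]; omega), cycs_getElem, mem_cyc]
      exact Or.inr (Or.inr (Or.inl ⟨k, mem_outs.2 ⟨hk, by rw [e1]⟩, Or.inl rfl⟩))
    · rw [runOf_D _ (by rw [cycs_length]; omega), cycs_getElem, mem_cyc]
      exact Or.inr (Or.inr (Or.inr ⟨k, mem_ins.2 ⟨hk, by rw [e1]⟩, rfl⟩))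
  · intro h t t' x htt ht' h1 h2 h3
    have ht2 : t' < G.1 := by rwa [cycs_length] at ht'
    rw [runOf_D _ (by rw [cycs_length]; omega), cycs_getElem, mem_cyc] at h1
    rw [runOf_D _ (by rw [cycs_length]; omega), cycs_getElem, mem_cyc] at h2
    have hedge : ∃ k, k < G.2.length ∧ (G.2.getD k (0, 0)).1 = t ∧ (G.2.getD k (0, 0)).2 = t' := by
      rcases h1 with g | g | ⟨k, g, g'⟩ | ⟨k, g, g'⟩
      · rcases h2 with f | f | ⟨k, f, f'⟩ | ⟨k, f, f'⟩ <;> omega
      · rcases h2 with f | f | ⟨k, f, f'⟩ | ⟨k, f, f'⟩ <;> omega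
      · rcases h2 with f | f | ⟨k', f, f'⟩ | ⟨k', f, f'⟩
        · omega
        · omega
        · have : k' = k := by omega
          subst this
          have e1 := (mem_outs.1 f).2
          have e2 := (mem_outs.1 g).2
          omega
        · have : k' = k := by omega
          subst this
          exact ⟨k', (mem_ins.1 f).1, (mem_outs.1 g).2, (mem_ins.1 f).2⟩
      · rcases h2 with f | f | ⟨k', f, f'⟩ | ⟨k', f, f'⟩
        · omega
        · omega
        · have : k' = k := by omega
          subst this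
          have e1 := (mem_outs.1 f).2
          have e2 := (mem_ins.1 g).2
          have e3 := getD_mem hG (mem_ins.1 g).1
          omega
        · have : k' = k := by omega
          subst this
          have e1 := (mem_ins.1 f).2
          have e2 := (mem_ins.1 g).2
          omega
    obtain ⟨k, hk, e1, e2⟩ := hedge
    have h4 := h (G.2.getD k (0, 0)) (by
      rw [List.getD_eq_getElem _ _ hk]; exact List.getElem_mem hk)
    rw [e1, e2] at h4
    exact h4 h3

/-- the number of closed sets of vertices which do not contain `t` -/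
noncomputable def nbar (G : Dag) (t : ℕ) : ℕ :=
  Nat.card {w : List Bool // w.length = G.1 ∧ DClosed G (bitS w) ∧ ¬ bitS w t}

theorem runOf_nb {G : Dag} (hG : DagOK G) (t : ℕ) : (runOf (okX_cycs hG)).nb t = nbar G t := by
  unfold Run.nb nbar
  refine Nat.card_congr (Equiv.subtypeEquivRight fun w => ?_)
  have h1 := runOf_closed hG (bitS w)
  have h2 := cycs_length G
  constructor
  · rintro ⟨h3, h4, h5⟩
    exact ⟨h3.trans h2, h1.1 h4, h5⟩
  · rintro ⟨h3, h4, h5⟩
    exact ⟨h3.trans h2.symm, h1.2 h4, h5⟩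

/-- the matching given by the first rotation -/
noncomputable def oneM (G : Dag) : List ℕ := (List.range (num G)).map fun m => ((cycs G).take 1).foldr nx m

/-- The criterion: if `0` is a minimal vertex, the matching in which only the rotation of the vertex
`0` has been executed is a generalised median stable matching iff `nbar 0 < nbar 1`. -/
theorem dag_crit {G : Dag} (hG : DagOK G) (hN : 2 ≤ G.1)
    (hsep : ∀ t, 1 ≤ t → t < G.1 → nbar G 0 < nbar G t ∨ nbar G 1 ≤ nbar G t) :
    ∃ M : Perm (Fin (num G)), IsSM (num G) (inst (num G) (cycs G)) ∧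
      code M = (List.range (num G)).map (fun m => ((cycs G).take 1).foldr nx m) ∧
      Stable (num G) (inst (num G) (cycs G)) M ∧
      (∀ j, IsAlpha (num G) (inst (num G) (cycs G)) j M → nbar G 0 < j ∧ j ≤ nbar G 1) ∧
      (nbar G 0 < nbar G 1 → IsAlpha (num G) (inst (num G) (cycs G)) (nbar G 0 + 1) M) := by
  have hok := okX_cycs hG
  have h0 : (runOf hok).Closed (fun t => t = 0) := by
    intro t t' x h1 _ _ _ h2
    omega
  obtain ⟨h1, h2⟩ := W_one hok h0 (by rw [cycs_length]; omega)
  have h3 := crit (runOf hok) (pref_inst hok) h1 h2 (by rw [cycs_length]; exact hN)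
    (by
      intro t ht
      rw [cycs_length] at ht
      refine ⟨⟨2 * t, by unfold num; omega⟩, ?_, ?_⟩
      · rw [runOf_D _ (by rw [cycs_length]; omega), cycs_getElem, mem_cyc]
        exact Or.inl rfl
      · intro t' ht' hD
        rw [cycs_length] at ht'
        rw [runOf_D _ (by rw [cycs_length]; omega), cycs_getElem, mem_cyc] at hD
        rcases hD with g | g | ⟨k, g, g'⟩ | ⟨k, g, g'⟩ <;> simp only at * <;> omega)
    (by
      intro t h4 h5
      rw [cycs_length] at h5
      rw [runOf_nb hG, runOf_nb hG, runOf_nb hG]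
      exact hsep t h4 h5)
  rw [runOf_nb hG, runOf_nb hG] at h3
  exact ⟨(runOf hok).W 1, isSM_inst hok, code_W hok 1, h1, h3.1, h3.2⟩

end Pool.Agent.H276R3
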