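import Mathlib
import Pool.Agent.NPC.Defs

/-!
# Generalised median stable matchings
-/

namespace Pool.Agent.H276R3

open Equiv Pool.Agent.NPC

/-- The preference lists of the men and of the women. The men and the women are
`0, …, n - 1`; the `i`-th list of the first component ranks the women for the man `i`, from the
most preferred to the least preferred one, and the `i`-th list of the second component ranks the
men for the woman `i`. -/
abbrev Inst := List (List ℕ) × List (List ℕ)

/-- `I` is an instance of size `n` of the stable marriage problem: there are `n` lists for the men
and `n` lists for the women, and each of them is a permutation of `0, …, n - 1`. -/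
def IsSM (n : ℕ) (I : Inst) : Prop :=
  I.1.length = n ∧ I.2.length = n ∧ (∀ l ∈ I.1, l.Perm (List.range n)) ∧
    ∀ l ∈ I.2, l.Perm (List.range n)

/-- The position of the woman `w` in the list of the man `m`. -/
def mrank (I : Inst) (m w : ℕ) : ℕ := (I.1.getD m []).idxOf w

/-- The position of the man `m` in the list of the woman `w`. -/
def wrank (I : Inst) (w m : ℕ) : ℕ := (I.2.getD w []).idxOf m

/-- The matching `M` (the man `m` is matched to the woman `M m`) is stable: no man and woman prefer
each other to their partners. -/
def Stable (n : ℕ) (I : Inst) (M : Perm (Fin n)) : Prop :=
  ∀ m w : Fin n, ¬ (mrank I m w < mrank I m (M m) ∧ wrank I w m < wrank I w (M.symm w))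

open Classical in
/-- The set of the stable matchings. -/
noncomputable def stableMatchings (n : ℕ) (I : Inst) : Finset (Perm (Fin n)) :=
  Finset.univ.filter (Stable n I)

/-- The list of the partners of the man `m` in all stable matchings (one entry for each stable
matching), given by their positions in his list, sorted from the best to the worst. -/
noncomputable def partners (n : ℕ) (I : Inst) (m : Fin n) : List ℕ :=
  ((stableMatchings n I).val.map fun M => mrank I m (M m)).sort (· ≤ ·)

/-- `M` is the `j`-th generalised median stable matching `α_j`, `1 ≤ j ≤ s`, where `s` is the number
of stable matchings: the partner of every man `m` is the `j`-th entry of his list of partners. -/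
def IsAlpha (n : ℕ) (I : Inst) (j : ℕ) (M : Perm (Fin n)) : Prop :=
  1 ≤ j ∧ j ≤ (stableMatchings n I).card ∧
    ∀ m : Fin n, (partners n I m)[j - 1]? = some (mrank I m (M m))

/-- The list of the partners of the men in a matching. -/
def code {n : ℕ} (M : Perm (Fin n)) : List ℕ := List.ofFn fun m => (M m : ℕ)

/-- The decision problem `GM`. The input is a stable marriage instance `I` and a stable matching `M`
of `I`; the question is whether `M` is a generalised median stable matching. -/
def GM (x : Inst × List ℕ) : Prop :=
  ∃ (n : ℕ) (M : Perm (Fin n)), IsSM n x.1 ∧ x.2 = code M ∧ Stable n x.1 M ∧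
    ∃ j, IsAlpha n x.1 j M

/-- The legal inputs of `GM`: a stable marriage instance together with one of its stable
matchings. -/
def GMInput (x : Inst × List ℕ) : Prop :=
  ∃ (n : ℕ) (M : Perm (Fin n)), IsSM n x.1 ∧ x.2 = code M ∧ Stable n x.1 M

end Pool.Agent.H276R3
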