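import Pool.Agent.H517R2.EO.Final

/-!
# Words and exact overlaps: from two words with the same composition to two such words of the
same length
-/

set_option autoImplicit false

namespace Pool.Agent.H276R3.EOX

/-- the composition `S_{w₁} ∘ ... ∘ S_{w_m}` of the maps `S_i (x) = r i * x + b i` along the word
`w` (the identity for the empty word) -/
def comp {n : ℕ} (r b : Fin n → ℝ) : List (Fin n) → ℝ → ℝ
  | [] => fun x => x
  | i :: w => fun x => r i * comp r b w x + b i

theorem comp_eq_foldr {n : ℕ} (r b : Fin n → ℝ) (w : List (Fin n)) :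
    List.foldr (fun i (g : ℝ → ℝ) => fun x : ℝ => r i * g x + b i) (fun x : ℝ => x) w =
      comp r b w := by
  induction w with
  | nil => rfl
  | cons i w ih => simp only [List.foldr_cons, ih, comp]

theorem comp_append {n : ℕ} (r b : Fin n → ℝ) (w w' : List (Fin n)) (x : ℝ) :
    comp r b (w ++ w') x = comp r b w (comp r b w' x) := by
  induction w with
  | nil => rfl
  | cons i w ih => simp only [List.cons_append, comp, ih]

theorem comp_affine {n : ℕ} (r b : Fin n → ℝ) (w : List (Fin n)) (x : ℝ) :
    comp r b w x = (w.map r).prod * x + comp r b w 0 := by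
  induction w generalizing x with
  | nil => simp [comp]
  | cons i w ih =>
    simp only [comp, List.map_cons, List.prod_cons]
    rw [ih x]
    ring

theorem prod_eq {n : ℕ} {r b : Fin n → ℝ} {w w' : List (Fin n)}
    (h : comp r b w = comp r b w') : (w.map r).prod = (w'.map r).prod := by
  have h0 := congrFun h 0
  have h1 := congrFun h 1
  rw [comp_affine r b w 1, comp_affine r b w' 1] at h1
  linarith

theorem prod_ne {n : ℕ} {r : Fin n → ℝ} (hr : ∀ i, r i ≠ 0) (w : List (Fin n)) :
    (w.map r).prod ≠ 0 := by
  induction w with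
  | nil => simp
  | cons i w ih =>
    simp only [List.map_cons, List.prod_cons]
    exact mul_ne_zero (hr i) ih

theorem abs_prod_le {n : ℕ} {r : Fin n → ℝ} (hr1 : ∀ i, |r i| < 1) (w : List (Fin n)) :
    |(w.map r).prod| ≤ 1 := by
  induction w with
  | nil => simp
  | cons i w ih =>
    simp only [List.map_cons, List.prod_cons, abs_mul]
    have := hr1 i
    have h0 := abs_nonneg (r i)
    have h1 := abs_nonneg ((w.map r).prod)
    nlinarith

theorem abs_prod_lt {n : ℕ} {r : Fin n → ℝ} (hr1 : ∀ i, |r i| < 1) {w : List (Fin n)}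
    (hw : w ≠ []) : |(w.map r).prod| < 1 := by
  obtain ⟨i, v, rfl⟩ := List.exists_cons_of_ne_nil hw
  simp only [List.map_cons, List.prod_cons, abs_mul]
  have h1 := hr1 i
  have h2 := abs_prod_le hr1 v
  have h0 := abs_nonneg (r i)
  have h3 := abs_nonneg ((v.map r).prod)
  nlinarith

theorem prefix_eq {n : ℕ} {r b : Fin n → ℝ} (hr : ∀ i, r i ≠ 0) (hr1 : ∀ i, |r i| < 1)
    {w t : List (Fin n)} (h : comp r b w = comp r b (w ++ t)) : t = [] := by
  by_contra ht
  have h1 := prod_eq h
  rw [List.map_append, List.prod_append] at h1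
  have h2 := prod_ne hr w
  have h3 := abs_prod_lt hr1 ht
  have h4 : (t.map r).prod = 1 := by
    have : (w.map r).prod * (t.map r).prod = (w.map r).prod * 1 := by rw [mul_one]; exact h1.symm
    exact mul_left_cancel₀ h2 this
  rw [h4, abs_one] at h3
  exact lt_irrefl _ h3

/-- Two different words with the same composition yield two different words of the same length
with the same composition. -/
theorem same_length {n : ℕ} {r b : Fin n → ℝ} (hr : ∀ i, r i ≠ 0) (hr1 : ∀ i, |r i| < 1)
    {w w' : List (Fin n)} (hne : w ≠ w') (h : comp r b w = comp r b w') :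
    ∃ u v : List (Fin n), u.length = v.length ∧ u ≠ v ∧ comp r b u = comp r b v := by
  refine ⟨w ++ w', w' ++ w, by simp [Nat.add_comm], ?_, ?_⟩
  · intro he
    rcases List.append_eq_append_iff.1 he with ⟨t, h1, -⟩ | ⟨t, h1, -⟩
    · rw [h1] at h
      have := prefix_eq hr hr1 h
      rw [this, List.append_nil] at h1
      exact hne h1.symm
    · rw [h1] at h
      have := prefix_eq hr hr1 h.symm
      rw [this, List.append_nil] at h1
      exact hne h1
  · funext x
    rw [comp_append, comp_append, h]

/-- The exact overlaps conjecture, with words of the same length. -/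
theorem overlap {n : ℕ} (hn : 0 < n) {r b : Fin n → ℝ} (hr : ∀ i, r i ≠ 0 ∧ |r i| < 1)
    {X : Set ℝ} (hX : X.Nonempty) (hc : IsCompact X)
    (hinv : X = ⋃ i, (fun x : ℝ => r i * x + b i) '' X) {s : ℝ} (hs : (∑ i, |r i| ^ s) = 1)
    (hd : dimH X ≠ ENNReal.ofReal (min 1 s)) :
    ∃ u v : List (Fin n), u.length = v.length ∧ u ≠ v ∧ comp r b u = comp r b v := by
  by_contra hno
  apply hd
  refine H517.EO.exact_overlaps n r b hn hr ?_ X hX hc hinv s hs
  intro w w' h
  rw [comp_eq_foldr, comp_eq_foldr] at h
  by_contra hne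
  exact hno (same_length (fun i => (hr i).1) (fun i => (hr i).2) hne h)

end Pool.Agent.H276R3.EOX
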