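import Pool.Agent.H276R3.Mem

/-!
# Recognising generalised median stable matchings: complexity
-/

namespace Pool.Agent.H276R3

open Equiv Pool.Agent.NPC

/-- The decision problem of recognising the `j`-th generalised median stable matching. The input is
a stable marriage instance `I`, a stable matching `M` of `I` and a number `j` with `1 ≤ j ≤ s`,
where `s` is the number of stable matchings; the question is whether `M = α_j`. -/
def JGM (x : (Inst × List ℕ) × ℕ) : Prop :=
  ∃ (n : ℕ) (M : Perm (Fin n)), IsSM n x.1.1 ∧ x.1.2 = code M ∧ Stable n x.1.1 M ∧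
    IsAlpha n x.1.1 x.2 M

/-- The legal inputs of `JGM`: a stable marriage instance `I`, a stable matching of `I` and a number
`j` with `1 ≤ j ≤ s`, where `s` is the number of stable matchings of `I`. -/
def JGMInput (x : (Inst × List ℕ) × ℕ) : Prop :=
  ∃ (n : ℕ) (M : Perm (Fin n)), IsSM n x.1.1 ∧ x.1.2 = code M ∧ Stable n x.1.1 M ∧
    1 ≤ x.2 ∧ x.2 ≤ (stableMatchings n x.1.1).card

end Pool.Agent.H276R3

namespace Pool.Agent.NPC.G276

open Pool.Agent.H276R3 Pool.Agent.NPC.Cnt

/-! ### Characterisation -/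

theorem valid_iff {I : Inst} {c : List ℕ} : (okB I && stB I c) = true ↔
    ∃ (n : ℕ) (M : Equiv.Perm (Fin n)), IsSM n I ∧ c = code M ∧ Stable n I M := by
  rw [Bool.and_eq_true]
  constructor
  · rintro ⟨h1, h2⟩
    obtain ⟨M, h3, h4⟩ := stB_iff.1 h2
    exact ⟨_, M, okB_iff.1 h1, h3, h4⟩
  · rintro ⟨n, M, h1, h2, h3⟩
    obtain rfl : n = I.1.length := h1.1.symm
    exact ⟨okB_iff.2 h1, stB_iff.2 ⟨M, h2, h3⟩⟩

theorem JGM_iff {I : Inst} {c : List ℕ} {j : ℕ} : JGM ((I, c), j) ↔
    (okB I && stB I c) = true ∧ 1 ≤ j ∧ (∀ m < I.1.length, cL ((I, c), m) < j ∧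
      j ≤ cU ((I, c), m)) ∧ j ≤ cS ((I, c), 0) := by
  constructor
  · rintro ⟨n, M, h1, h2, h3, h4⟩
    have hv := valid_iff.2 ⟨n, M, h1, h2, h3⟩
    simp only at h1 h2 h3 h4
    obtain rfl : n = I.1.length := h1.1.symm
    rw [isAlpha_iff] at h4
    refine ⟨hv, h4.1, fun m hm => ?_, ?_⟩
    · have h5 := h4.2.2 ⟨m, hm⟩
      rw [h2]
      have e1 := cL_eq M ⟨m, hm⟩
      have e2 := cU_eq M ⟨m, hm⟩
      simp only at e1 e2
      rw [e1, e2]
      exact h5
    · rw [cS_eq]
      exact h4.2.1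
  · rintro ⟨hv, h1, h2, h3⟩
    rw [Bool.and_eq_true] at hv
    obtain ⟨M, h4, h5⟩ := stB_iff.1 hv.2
    refine ⟨_, M, okB_iff.1 hv.1, h4, h5, isAlpha_iff.2 ⟨h1, ?_, fun m => ?_⟩⟩
    · rw [cS_eq] at h3
      exact h3
    · have h6 := h2 m m.2
      rw [h4, cL_eq, cU_eq] at h6
      exact h6

theorem cU_le_cS (x : In1) (k : ℕ) : cU x ≤ cS (x.1, k) := by
  unfold cU cS
  rw [card_code fun c => decide (mrank x.1.1 x.2 (c.getD x.2 0) ≤
    mrank x.1.1 x.2 (x.1.2.getD x.2 0)), card_code fun _ => true]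
  exact Nat.card_le_card_of_injective (fun M => ⟨M.1, M.2.1, rfl⟩) (by
    intro a b h
    simp only [Subtype.mk.injEq] at h
    exact Subtype.ext h)

theorem GM_iff {I : Inst} {c : List ℕ} : GM (I, c) ↔ (okB I && stB I c) = true ∧
    ∀ m < I.1.length, ∀ m' < I.1.length, cL ((I, c), m) < cU ((I, c), m') := by
  have h0 : GM (I, c) ↔ ∃ j, JGM ((I, c), j) := by
    constructor
    · rintro ⟨n, M, h1, h2, h3, j, h4⟩
      exact ⟨j, n, M, h1, h2, h3, h4⟩
    · rintro ⟨j, n, M, h1, h2, h3, h4⟩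
      exact ⟨n, M, h1, h2, h3, j, h4⟩
  rw [h0]
  constructor
  · rintro ⟨j, hj⟩
    rw [JGM_iff] at hj
    obtain ⟨hv, h1, h2, h3⟩ := hj
    refine ⟨hv, fun m hm m' hm' => ?_⟩
    have h4 := (h2 m hm).1
    have h5 := (h2 m' hm').2
    omega
  · rintro ⟨hv, h⟩
    rcases Nat.eq_zero_or_pos I.1.length with hn | hn
    · refine ⟨1, JGM_iff.2 ⟨hv, le_rfl, fun m hm => by omega, ?_⟩⟩
      rw [cS_eq, card_stableMatchings]
      rw [Bool.and_eq_true] at hv
      obtain ⟨M, h4, h5⟩ := stB_iff.1 hv.2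
      have : Nonempty {M : Equiv.Perm (Fin I.1.length) // Stable I.1.length I M} := ⟨⟨M, h5⟩⟩
      exact Nat.card_pos
    · obtain ⟨m0, hm0, hmin⟩ := Finset.exists_min_image (Finset.range I.1.length)
        (fun m => cU ((I, c), m)) ⟨0, Finset.mem_range.2 hn⟩
      rw [Finset.mem_range] at hm0
      refine ⟨cU ((I, c), m0), JGM_iff.2 ⟨hv, ?_, fun m hm => ⟨h m hm m0 hm0,
        hmin m (Finset.mem_range.2 hm)⟩, cU_le_cS _ _⟩⟩
      have := h m0 hm0 m0 hm0
      omega

/-! ### Membership in `PP` -/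

theorem gapP_cond {α : Type} [TEnc α] {c : α → Bool} {f g : α → ℤ} (hc : Poly c) (hf : GapP f)
    (hg : GapP g) : GapP (fun a => bif c a then f a else g a) :=
  (GapP.add (GapP.mul (GapP.ofCount (countP_ind hc)) hf)
    (GapP.mul (GapP.ofCount (countP_ind (Poly.not hc))) hg)).congr
    fun a => by cases c a <;> simp

theorem GM_inPP : Med.InPPc (lang GM) := by
  have hN : UPoly (fun x : Inst × List ℕ => x.1.1.length * x.1.1.length + 1) :=
    UPoly.add (UPoly.mul (UPoly.length (by fun_prop)) (UPoly.length (by fun_prop))) (UPoly.const 1)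
  have hL : GapP (fun y : (Inst × List ℕ) × ℕ => (cL (y.1, y.2 % y.1.1.1.length) : ℤ)) :=
    GapP.ofCount (countP_cL.comp (g := fun y : (Inst × List ℕ) × ℕ =>
      (y.1, y.2 % y.1.1.1.length)) (by fun_prop))
  have hU : GapP (fun y : (Inst × List ℕ) × ℕ => (cU (y.1, y.2 / y.1.1.1.length) : ℤ)) :=
    GapP.ofCount (countP_cU.comp (g := fun y : (Inst × List ℕ) × ℕ =>
      (y.1, y.2 / y.1.1.1.length)) (by fun_prop))
  have hf : GapP (fun y : (Inst × List ℕ) × ℕ => bif (okB y.1.1 && stB y.1.1 y.1.2) then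
      (bif decide (y.2 < y.1.1.1.length * y.1.1.1.length) then
        ((cU (y.1, y.2 / y.1.1.1.length) : ℤ) - cL (y.1, y.2 % y.1.1.1.length)) else ((1 : ℕ) : ℤ))
      else ((0 : ℕ) : ℤ)) := by
    refine gapP_cond (by fun_prop) (gapP_cond (by fun_prop) (hU.sub hL) (GapP.const 1))
      (GapP.const 0)
  have h := forall_inPP hf hN
  refine cast (congrArg (fun P => Med.InPPc (lang P)) ?_) h
  funext x
  obtain ⟨I, c⟩ := x
  refine propext ?_
  rw [GM_iff]
  set N := I.1.length with hNd
  constructor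
  · intro h1
    have h2 := h1 (N * N) (by omega)
    have hv : (okB I && stB I c) = true := by
      by_contra hcon
      rw [Bool.not_eq_true] at hcon
      simp only [hcon, cond_false] at h2
      omega
    refine ⟨hv, fun m hm m' hm' => ?_⟩
    have h3 : N * m' + m < N * N := by
      calc N * m' + m < N * m' + N := by omega
        _ = N * (m' + 1) := by ring
        _ ≤ N * N := Nat.mul_le_mul_left _ hm'
    have h4 := h1 (N * m' + m) (by omega)
    have h5 : (N * m' + m) / N = m' := by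
      rw [Nat.mul_add_div (by omega), Nat.div_eq_of_lt hm, add_zero]
    have h6 : (N * m' + m) % N = m := by
      rw [Nat.mul_add_mod, Nat.mod_eq_of_lt hm]
    simp only [hv, cond_true, ← hNd, h5, h6, h3, decide_true] at h4
    omega
  · rintro ⟨hv, h1⟩ i hi
    simp only [hv, cond_true]
    by_cases hiN : i < N * N
    · have hN0 : 0 < N := by
        rcases Nat.eq_zero_or_pos N with h | h
        · rw [h] at hiN; omega
        · exact h
      have h2 := h1 (i % N) (Nat.mod_lt _ hN0) (i / N) (Nat.div_lt_of_lt_mul hiN)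
      simp only [← hNd, hiN, decide_true, cond_true]
      omega
    · simp only [← hNd, hiN, decide_false, cond_false]
      norm_num

theorem JGM_inPP : Med.InPPc (lang JGM) := by
  have hN : UPoly (fun x : (Inst × List ℕ) × ℕ => x.1.1.1.length + x.1.1.1.length + 1) :=
    UPoly.add (UPoly.add (UPoly.length (by fun_prop)) (UPoly.length (by fun_prop))) (UPoly.const 1)
  have hL : GapP (fun y : ((Inst × List ℕ) × ℕ) × ℕ => (cL (y.1.1, y.2) : ℤ)) :=
    GapP.ofCount (countP_cL.comp (g := fun y : ((Inst × List ℕ) × ℕ) × ℕ =>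
      (y.1.1, y.2)) (by fun_prop))
  have hU : GapP (fun y : ((Inst × List ℕ) × ℕ) × ℕ =>
      (cU (y.1.1, y.2 - y.1.1.1.1.length) : ℤ)) :=
    GapP.ofCount (countP_cU.comp (g := fun y : ((Inst × List ℕ) × ℕ) × ℕ =>
      (y.1.1, y.2 - y.1.1.1.1.length)) (by fun_prop))
  have hS : GapP (fun y : ((Inst × List ℕ) × ℕ) × ℕ => (cS (y.1.1, 0) : ℤ)) :=
    GapP.ofCount (countP_cS.comp (g := fun y : ((Inst × List ℕ) × ℕ) × ℕ =>
      (y.1.1, 0)) (by fun_prop))
  have hj : GapP (fun y : ((Inst × List ℕ) × ℕ) × ℕ => (y.1.2 : ℤ)) :=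
    GapP.ofCount (CountP.ofPoly (by fun_prop))
  have hf : GapP (fun y : ((Inst × List ℕ) × ℕ) × ℕ =>
      bif (okB y.1.1.1 && stB y.1.1.1 y.1.1.2 && decide (1 ≤ y.1.2)) then
      (bif decide (y.2 < y.1.1.1.1.length) then ((y.1.2 : ℤ) - cL (y.1.1, y.2)) else
        (bif decide (y.2 < y.1.1.1.1.length + y.1.1.1.1.length) then
          ((cU (y.1.1, y.2 - y.1.1.1.1.length) : ℤ) - y.1.2 + ((1 : ℕ) : ℤ)) else
          ((cS (y.1.1, 0) : ℤ) - y.1.2 + ((1 : ℕ) : ℤ))))
      else ((0 : ℕ) : ℤ)) := by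
    refine gapP_cond (by fun_prop) (gapP_cond (by fun_prop) (hj.sub hL)
      (gapP_cond (by fun_prop) ((hU.sub hj).add (GapP.const 1)) ((hS.sub hj).add (GapP.const 1))))
      (GapP.const 0)
  have h := forall_inPP hf hN
  refine cast (congrArg (fun P => Med.InPPc (lang P)) ?_) h
  funext x
  obtain ⟨⟨I, c⟩, j⟩ := x
  refine propext ?_
  rw [JGM_iff]
  set N := I.1.length with hNd
  constructor
  · intro h1
    have h2 := h1 (N + N) (by omega)
    have hv : (okB I && stB I c && decide (1 ≤ j)) = true := by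
      by_contra hcon
      rw [Bool.not_eq_true] at hcon
      simp only [hcon, cond_false] at h2
      omega
    have e1 : ¬ N + N < N := by omega
    have e2 : ¬ N + N < N + N := by omega
    simp only [hv, cond_true, ← hNd, e1, e2, decide_false, cond_false] at h2
    have hv' := hv
    rw [Bool.and_eq_true, decide_eq_true_eq] at hv'
    refine ⟨hv'.1, hv'.2, fun m hm => ⟨?_, ?_⟩, by omega⟩
    · have h3 := h1 m (by omega)
      simp only [hv, cond_true, ← hNd, hm, decide_true] at h3
      omega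
    · have h3 := h1 (N + m) (by omega)
      have e3 : ¬ N + m < N := by omega
      have e4 : N + m < N + N := by omega
      have e5 : N + m - N = m := by omega
      simp only [hv, cond_true, ← hNd, e3, e4, e5, decide_true, decide_false, cond_false] at h3
      omega
  · rintro ⟨hv, h1, h2, h3⟩ i hi
    have hv' : (okB I && stB I c && decide (1 ≤ j)) = true := by simp [hv, h1]
    simp only [hv', cond_true, ← hNd]
    by_cases g1 : i < N
    · have := (h2 i g1).1
      simp only [g1, decide_true, cond_true]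
      omega
    · by_cases g2 : i < N + N
      · have := (h2 (i - N) (by omega)).2
        simp only [g1, g2, decide_true, decide_false, cond_true, cond_false]
        omega
      · simp only [g1, g2, decide_false, cond_false]
        omega

end Pool.Agent.NPC.G276
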