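import Pool.Agent.H578R2.Med.PP
import Pool.Agent.H527R3.Toda.CountP
import Pool.Agent.H527R3.Toda.Arith

/-!
# Differences of counting functions, and conjunctions of `PP` conditions
-/

namespace Pool.Agent.NPC.G276

open Pool.Agent.NPC.Cnt

variable {α : Type} [TEnc α]

theorem bsum_blocks' (B : ℕ) (P : ℕ → List Bool → Bool) : ∀ n : ℕ,
    bsum (n * B) (fun w => ((List.range n).all (fun i => P i ((w.drop (i * B)).take B))).toNat) =
      ∏ i ∈ Finset.range n, bsum B (fun w => (P i w).toNat)
  | 0 => by simp [bsum_zero]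
  | n + 1 => by
    rw [Nat.add_mul, one_mul, bsum_append, Finset.prod_range_succ, ← bsum_blocks' B P n,
      ← bsum_mul_right]
    refine bsum_congr fun u hu => ?_
    rw [← bsum_mul_left]
    refine bsum_congr fun v hv => ?_
    rw [List.range_succ, List.all_append]
    have e1 : (List.range n).all (fun i => P i (((u ++ v).drop (i * B)).take B)) =
        (List.range n).all (fun i => P i ((u.drop (i * B)).take B)) := by
      rw [Bool.eq_iff_iff, List.all_eq_true, List.all_eq_true]
      refine forall₂_congr fun i hi => ?_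
      rw [List.mem_range] at hi
      have h1 : (i + 1) * B ≤ n * B := Nat.mul_le_mul_right B hi
      rw [Nat.add_mul, one_mul] at h1
      rw [List.drop_append_of_le_length (by omega), List.take_append_of_le_length (by
        rw [List.length_drop]; omega)]
    have e2 : [n].all (fun i => P i (((u ++ v).drop (i * B)).take B)) = P n v := by
      rw [List.all_cons, List.all_nil, Bool.and_true, List.drop_left' hu,
        List.take_of_length_le (by omega)]
    rw [e1, e2]
    cases P n v <;> simp

theorem sz_pair_le {a : α} {i n : ℕ} (h : i ≤ n) : sz (a, i) ≤ sz a + (4 * n + 2) := by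
  have h1 := sz_nat_le i
  have h2 := Poly.size_le_self i
  rw [sz_pair]
  omega

theorem countP_prod {f : α × ℕ → ℕ} {n : α → ℕ} (hf : CountP f) (hn : UPoly n) :
    CountP (fun a => ∏ i ∈ Finset.range (n a), f (a, i)) := by
  obtain ⟨R, r, hR, hf⟩ := hf.normal
  have hB : UPoly (fun a => r.eval (sz a + (4 * n a + 2))) :=
    (UPoly.add upoly_sz (UPoly.add (UPoly.mul (UPoly.const 4) hn) (UPoly.const 2))).eval r
  refine ⟨fun x => (List.range (n x.1)).all (fun i =>
      R ((x.1, i), (x.2.drop (i * r.eval (sz x.1 + (4 * n x.1 + 2)))).take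
        (r.eval (sz x.1 + (4 * n x.1 + 2))))),
    fun a => n a * r.eval (sz a + (4 * n a + 2)), ?_, UPoly.mul hn hB, fun a => ?_⟩
  · have hn' : Poly (fun x : α × List Bool => List.range (n x.1)) :=
      hn.range.comp (Poly.fst Poly.id)
    have h0 : Poly (fun x : (α × List Bool) × ℕ => r.eval (sz x.1.1 + (4 * n x.1.1 + 2))) :=
      hB.toPoly.comp (Poly.fst (Poly.fst Poly.id))
    refine Poly.all (p := fun (x : α × List Bool) i =>
      R ((x.1, i), (x.2.drop (i * r.eval (sz x.1 + (4 * n x.1 + 2)))).take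
        (r.eval (sz x.1 + (4 * n x.1 + 2))))) hn' ?_
    exact hR.comp (Poly.pair (Poly.pair (Poly.fst (Poly.fst Poly.id)) (Poly.snd Poly.id))
      (poly_tk (poly_dp (Poly.snd (Poly.fst Poly.id)) (Poly.mul (Poly.snd Poly.id) h0)) h0))
  · beta_reduce
    rw [bsum_blocks' (r.eval (sz a + (4 * n a + 2))) (fun i w => R ((a, i), w)) (n a)]
    refine Finset.prod_congr rfl fun i hi => ?_
    rw [Finset.mem_range] at hi
    exact hf (a, i) _ (eval_mono r (sz_pair_le hi.le))

theorem countP_ind {c : α → Bool} (hc : Poly c) : CountP (fun a => (c a).toNat) :=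
  (CountP.ofPoly (f := fun a => bif c a then 1 else 0)
    (Poly.cond hc (Poly.const 1) (Poly.const 0))).congr fun a => by cases c a <;> rfl

theorem countP_cond {c : α → Bool} {f g : α → ℕ} (hc : Poly c) (hf : CountP f) (hg : CountP g) :
    CountP (fun a => bif c a then f a else g a) :=
  (CountP.add (CountP.mul (countP_ind hc) hf) (CountP.mul (countP_ind (Poly.not hc)) hg)).congr
    fun a => by cases c a <;> simp

/-- the number of `false` is even -/
def par (s : List Bool) : Bool := decide ((s.filter fun b => !b).length % 2 = 0)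

theorem par_true (s : List Bool) : par (true :: s) = par s := by simp [par]

theorem par_false (s : List Bool) : par (false :: s) = !par s := by
  unfold par
  rw [List.filter_cons_of_pos rfl, List.length_cons]
  rcases Nat.mod_two_eq_zero_or_one (s.filter fun b => !b).length with h | h
  · have h1 : ((s.filter fun b => !b).length + 1) % 2 ≠ 0 := by omega
    simp [h, h1]
  · have h1 : ((s.filter fun b => !b).length + 1) % 2 = 0 := by omega
    simp [h, h1]

theorem prod_sub_eq : ∀ (n : ℕ) (g h : ℕ → ℕ),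
    (∏ i ∈ Finset.range n, ((g i : ℤ) - h i)) =
      (bsum n fun s => (par s).toNat * ∏ i ∈ Finset.range n,
        (bif s.getD i false then g i else h i) : ℕ) -
      (bsum n fun s => (!par s).toNat * ∏ i ∈ Finset.range n,
        (bif s.getD i false then g i else h i) : ℕ)
  | 0, g, h => by simp [bsum_zero, par]
  | n + 1, g, h => by
    have ih := prod_sub_eq n (fun i => g (i + 1)) (fun i => h (i + 1))
    rw [Finset.prod_range_succ', ih, bsum_succ, bsum_succ]
    have e : ∀ (b : Bool) (s : List Bool), (∏ i ∈ Finset.range (n + 1),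
        (bif (b :: s).getD i false then g i else h i)) =
        (bif b then g 0 else h 0) * ∏ i ∈ Finset.range n,
          (bif s.getD i false then g (i + 1) else h (i + 1)) := by
      intro b s
      rw [Finset.prod_range_succ']
      simp only [List.getD_cons_succ, List.getD_cons_zero]
      rw [mul_comm]
    simp only [e, par_true, par_false, cond_true, cond_false, Bool.not_not]
    set P := bsum n fun s => (par s).toNat * ∏ i ∈ Finset.range n,
      (bif s.getD i false then g (i + 1) else h (i + 1)) with hP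
    set Q := bsum n fun s => (!par s).toNat * ∏ i ∈ Finset.range n,
      (bif s.getD i false then g (i + 1) else h (i + 1)) with hQ
    have f1 : ∀ c : ℕ, (bsum n fun s => (par s).toNat * (c * ∏ i ∈ Finset.range n,
        (bif s.getD i false then g (i + 1) else h (i + 1)))) = c * P := by
      intro c
      rw [hP, ← bsum_mul_left]
      exact bsum_congr fun s _ => by ring
    have f2 : ∀ c : ℕ, (bsum n fun s => (!par s).toNat * (c * ∏ i ∈ Finset.range n,
        (bif s.getD i false then g (i + 1) else h (i + 1)))) = c * Q := by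
      intro c
      rw [hQ, ← bsum_mul_left]
      exact bsum_congr fun s _ => by ring
    rw [f1, f1, f2, f2]
    push_cast
    ring

/-- differences of counting functions -/
def GapP (f : α → ℤ) : Prop :=
  ∃ g h : α → ℕ, CountP g ∧ CountP h ∧ ∀ a, f a = (g a : ℤ) - h a

theorem GapP.congr {f g : α → ℤ} (hf : GapP f) (h : ∀ a, f a = g a) : GapP g := by
  obtain ⟨p, q, hp, hq, hf⟩ := hf
  exact ⟨p, q, hp, hq, fun a => by rw [← h, hf]⟩

theorem GapP.ofCount {f : α → ℕ} (hf : CountP f) : GapP (fun a => (f a : ℤ)) :=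
  ⟨f, fun _ => 0, hf, CountP.const 0, fun a => by simp⟩

theorem GapP.const (c : ℕ) : GapP (fun _ : α => (c : ℤ)) := GapP.ofCount (CountP.const c)

theorem GapP.comp {β : Type} [TEnc β] {f : β → ℤ} {g : α → β} (hf : GapP f) (hg : Poly g) :
    GapP (fun a => f (g a)) := by
  obtain ⟨p, q, hp, hq, hf⟩ := hf
  exact ⟨_, _, hp.comp hg, hq.comp hg, fun a => hf _⟩

theorem GapP.add {f g : α → ℤ} (hf : GapP f) (hg : GapP g) : GapP (fun a => f a + g a) := by
  obtain ⟨p, q, hp, hq, hf⟩ := hf
  obtain ⟨p', q', hp', hq', hg⟩ := hg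
  exact ⟨_, _, hp.add hp', hq.add hq', fun a => by simp only [hf, hg]; push_cast; ring⟩

theorem GapP.sub {f g : α → ℤ} (hf : GapP f) (hg : GapP g) : GapP (fun a => f a - g a) := by
  obtain ⟨p, q, hp, hq, hf⟩ := hf
  obtain ⟨p', q', hp', hq', hg⟩ := hg
  exact ⟨_, _, hp.add hq', hq.add hp', fun a => by simp only [hf, hg]; push_cast; ring⟩

theorem GapP.mul {f g : α → ℤ} (hf : GapP f) (hg : GapP g) : GapP (fun a => f a * g a) := by
  obtain ⟨p, q, hp, hq, hf⟩ := hf
  obtain ⟨p', q', hp', hq', hg⟩ := hg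
  exact ⟨_, _, (hp.mul hp').add (hq.mul hq'), (hp.mul hq').add (hq.mul hp'), fun a => by
    simp only [hf, hg]; push_cast; ring⟩

theorem GapP.prod {f : α × ℕ → ℤ} {n : α → ℕ} (hf : GapP f) (hn : UPoly n) :
    GapP (fun a => ∏ i ∈ Finset.range (n a), f (a, i)) := by
  obtain ⟨g, h, hg, hh, hf⟩ := hf
  have hn' : UPoly (fun y : α × List Bool => n y.1) := hn.comp (Poly.fst Poly.id)
  have h1 : CountP (fun y : α × List Bool => ∏ i ∈ Finset.range (n y.1),
      (bif y.2.getD i false then g (y.1, i) else h (y.1, i))) := by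
    have h2 : CountP (fun z : (α × List Bool) × ℕ =>
        (bif z.1.2.getD z.2 false then g (z.1.1, z.2) else h (z.1.1, z.2))) :=
      countP_cond (by fun_prop) (hg.comp (g := fun z : (α × List Bool) × ℕ => (z.1.1, z.2))
        (by fun_prop)) (hh.comp (g := fun z : (α × List Bool) × ℕ => (z.1.1, z.2))
        (by fun_prop))
    exact countP_prod h2 hn'
  have hpar : Poly (fun y : α × List Bool => par y.2) := by
    unfold par
    fun_prop
  refine ⟨_, _, ((countP_ind hpar).mul h1).bsum hn, ((countP_ind (Poly.not hpar)).mul h1).bsum hn,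
    fun a => ?_⟩
  have e := prod_sub_eq (n a) (fun i => g (a, i)) (fun i => h (a, i))
  rw [← e]
  exact Finset.prod_congr rfl fun i _ => hf _

/-! ### the class PP -/

/-- the comparison of two counting functions is in PP -/
theorem inPP_lt [TDec α] {F G : α → ℕ} (hF : CountP F) (hG : CountP G) :
    Med.InPPc (lang fun a => F a < G a) := by
  obtain ⟨R, r, hR, hF⟩ := hF.normal
  obtain ⟨R', r', hR', hG⟩ := hG.normal
  let test : List Bool × List Bool → Bool := fun s =>
    (unbits α s.1).elim false fun a => bif s.2.head?.getD false then R' (a, s.2.tail)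
      else !R (a, s.2.tail)
  have htest : Poly test := by
    have h1 : Poly (fun s : List Bool × List Bool => unbits α s.1) :=
      poly_unbits.comp (Poly.fst Poly.id)
    refine Poly.optElim h1 (Poly.const false) ?_
    have h2 : Poly (fun z : (List Bool × List Bool) × α => (z.2, z.1.2.tail)) := by fun_prop
    exact Poly.cond (by fun_prop) (hR'.comp h2) (Poly.not (hR.comp h2))
  refine ⟨fun y => [test (NPC.unpair y)], (r + r') + Polynomial.C 1,
    polyTime_of_poly (htest.comp NPC.poly_unpair), fun x => ?_⟩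
  simp only [NPC.unpair_pairBits, List.cons.injEq, and_true, Polynomial.eval_add, Polynomial.eval_C]
  rw [mem_lang_iff, ← bsum_eq_card _ fun w => test (x, w), bsum_succ, pow_succ]
  cases hx : unbits α x with
  | none =>
    have h0 : ∀ w, test (x, w) = false := by
      intro w
      simp only [test, hx, Option.elim_none]
    simp only [h0, Bool.toNat_false]
    rw [bsum_const]
    simp
  | some a =>
    have hxa := bits_of_unbits hx
    have hlen : x.length = sz a := by rw [← hxa, bits_length]
    have e1 : bsum (r.eval x.length + r'.eval x.length) (fun w => (test (x, true :: w)).toNat) =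
        G a := by
      rw [hG a (r.eval x.length + r'.eval x.length) (by rw [hlen]; omega)]
      refine bsum_congr fun w _ => ?_
      simp only [test, hx, Option.elim_some, List.head?_cons, Option.getD_some, cond_true,
        List.tail_cons]
    have e2 : bsum (r.eval x.length + r'.eval x.length) (fun w => (test (x, false :: w)).toNat) +
        F a = 2 ^ (r.eval x.length + r'.eval x.length) := by
      rw [hF a (r.eval x.length + r'.eval x.length) (by rw [hlen]; omega), ← bsum_add]
      have : bsum (r.eval x.length + r'.eval x.length) (fun _ => 1) =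
          2 ^ (r.eval x.length + r'.eval x.length) := by rw [bsum_const, mul_one]
      rw [← this]
      refine bsum_congr fun w _ => ?_
      simp only [test, hx, Option.elim_some, List.head?_cons, Option.getD_some, cond_false,
        List.tail_cons]
      cases R (a, w) <;> rfl
    rw [e1]
    constructor
    · rintro ⟨b, hb, hlt⟩
      cases hb
      omega
    · intro h
      exact ⟨a, rfl, by omega⟩

theorem inPP_pos [TDec α] {f : α → ℤ} (hf : GapP f) : Med.InPPc (lang fun a => 0 < f a) := by
  obtain ⟨g, h, hg, hh, hf⟩ := hf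
  have h1 := inPP_lt hh hg
  have e : (fun a => 0 < f a) = fun a => h a < g a := by
    funext a
    rw [hf]
    exact propext ⟨fun h => by omega, fun h => by omega⟩
  rw [e]
  exact h1

/-! ### conjunctions -/

theorem prod_crit {n : ℕ} {A B : ℕ → ℤ} {N : ℤ} {P : ℕ → Prop} (hN : 2 * n + 1 ≤ N)
    (hA : ∀ i < n, 0 ≤ A i) (hB : ∀ i < n, 0 ≤ B i)
    (h : ∀ i < n, (P i ∧ 0 < A i ∧ N * B i ≤ A i) ∨ (¬ P i ∧ A i ≤ B i)) :
    (∏ i ∈ Finset.range n, (A i + B i)) < 2 * ∏ i ∈ Finset.range n, A i ↔ ∀ i < n, P i := by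
  constructor
  · intro hlt
    by_contra hcon
    push Not at hcon
    obtain ⟨i, hi, hPi⟩ := hcon
    have h1 : A i ≤ B i := by
      rcases h i hi with h | h
      · exact absurd h.1 hPi
      · exact h.2
    have hmem : i ∈ Finset.range n := Finset.mem_range.2 hi
    rw [← Finset.mul_prod_erase _ _ hmem, ← Finset.mul_prod_erase (Finset.range n) A hmem] at hlt
    have h2 : ∏ j ∈ (Finset.range n).erase i, A j ≤ ∏ j ∈ (Finset.range n).erase i, (A j + B j) := by
      refine Finset.prod_le_prod (fun j hj => ?_) fun j hj => ?_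
      · exact hA j (Finset.mem_range.1 (Finset.mem_of_mem_erase hj))
      · have := hB j (Finset.mem_range.1 (Finset.mem_of_mem_erase hj))
        omega
    have h3 : 0 ≤ ∏ j ∈ (Finset.range n).erase i, A j :=
      Finset.prod_nonneg fun j hj => hA j (Finset.mem_range.1 (Finset.mem_of_mem_erase hj))
    have h4 := hA i hi
    have h5 : 2 * A i * ∏ j ∈ (Finset.range n).erase i, A j ≤
        (A i + B i) * ∏ j ∈ (Finset.range n).erase i, (A j + B j) :=
      mul_le_mul (by omega) h2 h3 (by omega)
    rw [← mul_assoc] at hlt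
    omega
  · intro hP
    have key : ∀ m ≤ n, (∏ i ∈ Finset.range m, (A i + B i)) * (N - m) ≤
        N * ∏ i ∈ Finset.range m, A i ∧ 0 < ∏ i ∈ Finset.range m, A i ∧
          0 ≤ ∏ i ∈ Finset.range m, (A i + B i) := by
      intro m
      induction m with
      | zero => intro _; simp
      | succ m ih =>
        intro hm
        obtain ⟨i1, i2, i3⟩ := ih (by omega)
        have hm' : m < n := by omega
        have hAm : 0 < A m ∧ N * B m ≤ A m := by
          rcases h m hm' with h | h
          · exact h.2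
          · exact absurd (hP m hm') h.1
        have hBm := hB m hm'
        have hN0 : 0 < N := by omega
        rw [Finset.prod_range_succ, Finset.prod_range_succ]
        refine ⟨?_, mul_pos i2 hAm.1, mul_nonneg i3 (by omega)⟩
        set X := ∏ i ∈ Finset.range m, (A i + B i)
        set Y := ∏ i ∈ Finset.range m, A i
        have hmN : (m : ℤ) + 1 ≤ N := by omega
        have s1 : N * (A m + B m) ≤ (N + 1) * A m := by nlinarith [hAm.2]
        have s2 : N * (A m + B m) * (N - (m + 1)) ≤ (N + 1) * A m * (N - (m + 1)) :=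
          mul_le_mul_of_nonneg_right s1 (by omega)
        have s3 : (N + 1) * (N - (m + 1)) ≤ N * (N - m) := by nlinarith
        have s4 : (N + 1) * A m * (N - (m + 1)) ≤ A m * (N * (N - m)) := by
          have := mul_le_mul_of_nonneg_left s3 hAm.1.le
          nlinarith
        have s5 : N * ((A m + B m) * (N - (m + 1))) ≤ N * (A m * (N - m)) := by nlinarith
        have s6 : (A m + B m) * (N - (m + 1)) ≤ A m * (N - m) := le_of_mul_le_mul_left s5 hN0
        have s7 := mul_le_mul_of_nonneg_left s6 i3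
        have s8 := mul_le_mul_of_nonneg_left i1 hAm.1.le
        push_cast
        nlinarith
    obtain ⟨k1, k2, k3⟩ := key n le_rfl
    set X := ∏ i ∈ Finset.range n, (A i + B i)
    set Y := ∏ i ∈ Finset.range n, A i
    have hpos : (0 : ℤ) < N - n := by omega
    have h1 : X * (N - n) < 2 * Y * (N - n) := by
      have : N * Y < 2 * Y * (N - n) := by nlinarith
      omega
    exact lt_of_mul_lt_mul_right h1 hpos.le

theorem sq_prod_le {K : ℕ} {z : ℤ} (h1 : 1 ≤ z) (h2 : z < 2 ^ K) :
    9 * ∏ k ∈ Finset.range K, (z - 2 ^ k) ^ 2 ≤ ∏ k ∈ Finset.range K, (z + 2 ^ k) ^ 2 := by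
  obtain ⟨k, hk, hk1, hk2⟩ : ∃ k, k < K ∧ 2 ^ k ≤ z ∧ z < 2 ^ (k + 1) := by
    induction K with
    | zero => simp at h2; omega
    | succ K ih =>
      rcases lt_or_ge z (2 ^ K) with h | h
      · obtain ⟨k, g1, g2⟩ := ih h
        exact ⟨k, by omega, g2⟩
      · exact ⟨K, by omega, h, h2⟩
  have hmem : k ∈ Finset.range K := Finset.mem_range.2 hk
  rw [← Finset.mul_prod_erase _ _ hmem, ← Finset.mul_prod_erase _ _ hmem, ← mul_assoc]
  refine mul_le_mul ?_ ?_ (Finset.prod_nonneg fun j _ => sq_nonneg _) (sq_nonneg _)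
  · have h3 : (2 : ℤ) ^ (k + 1) = 2 * 2 ^ k := by ring
    rw [h3] at hk2
    nlinarith
  · refine Finset.prod_le_prod (fun j _ => sq_nonneg _) fun j _ => ?_
    have h3 : (0 : ℤ) < 2 ^ j := by positivity
    nlinarith

theorem sq_prod_pos {K : ℕ} {z : ℤ} (h1 : 1 ≤ z) :
    0 < ∏ k ∈ Finset.range K, (z + 2 ^ k) ^ 2 :=
  Finset.prod_pos fun j _ => by
    have h3 : (0 : ℤ) < 2 ^ j := by positivity
    have h4 : 0 < z + 2 ^ j := by omega
    positivity

theorem nine_pow (n : ℕ) : 2 * (n : ℤ) + 1 ≤ 9 ^ n := by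
  induction n with
  | zero => simp
  | succ n ih =>
    rw [pow_succ]
    push_cast
    omega

/-- A polynomially long conjunction of `PP` conditions is in `PP`
(Beigel, Reingold and Spielman). -/
theorem forall_inPP [TDec α] {f : α × ℕ → ℤ} {n : α → ℕ} (hf : GapP f) (hn : UPoly n) :
    Med.InPPc (lang fun a => ∀ i < n a, 0 < f (a, i)) := by
  obtain ⟨K, hK, hb⟩ : ∃ K : α → ℕ, UPoly K ∧ ∀ a, ∀ i < n a, |2 * f (a, i) - 1| < 2 ^ K a := by
    obtain ⟨g, h, hg, hh, hf⟩ := hf
    obtain ⟨r, hr⟩ := hg.bound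
    obtain ⟨r', hr'⟩ := hh.bound
    refine ⟨fun a => (r + r').eval (sz a + (4 * n a + 2)) + 2, UPoly.add ((UPoly.add upoly_sz
      (UPoly.add (UPoly.mul (UPoly.const 4) hn) (UPoly.const 2))).eval _) (UPoly.const 2),
      fun a i hi => ?_⟩
    have h1 := hr (a, i)
    have h2 := hr' (a, i)
    have h3 : ∀ q : Polynomial ℕ, q.eval (sz (a, i)) ≤ q.eval (sz a + (4 * n a + 2)) := fun q =>
      eval_mono q (sz_pair_le hi.le)
    have h4 : g (a, i) ≤ 2 ^ (r + r').eval (sz a + (4 * n a + 2)) :=
      h1.trans (Nat.pow_le_pow_right (by norm_num) (by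
        rw [Polynomial.eval_add]; have := h3 r; omega))
    have h5 : h (a, i) ≤ 2 ^ (r + r').eval (sz a + (4 * n a + 2)) :=
      h2.trans (Nat.pow_le_pow_right (by norm_num) (by
        rw [Polynomial.eval_add]; have := h3 r'; omega))
    rw [hf, pow_add]
    set M := (r + r').eval (sz a + (4 * n a + 2))
    have h6 : ((2 ^ M : ℕ) : ℤ) = 2 ^ M := by push_cast; rfl
    have h7 : (g (a, i) : ℤ) ≤ 2 ^ M := by rw [← h6]; exact_mod_cast h4
    have h8 : (h (a, i) : ℤ) ≤ 2 ^ M := by rw [← h6]; exact_mod_cast h5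
    have h9 : (0 : ℤ) < 2 ^ M := by positivity
    rw [abs_lt]
    constructor <;> omega
  -- the two products
  have hK' : UPoly (fun y : α × ℕ => K y.1) := hK.comp (Poly.fst Poly.id)
  have hn' : UPoly (fun y : α × ℕ => n y.1) := hn.comp (Poly.fst Poly.id)
  have hpw : GapP (fun z : (α × ℕ) × ℕ => ((2 ^ min z.2 (K z.1.1) : ℕ) : ℤ)) := by
    refine GapP.ofCount (CountP.ofPoly ?_)
    have : Poly (fun z : (α × ℕ) × ℕ => Uc.pw (K z.1.1) 2 z.2) :=
      Uc.poly_pw (hK.comp (f := fun z : (α × ℕ) × ℕ => z.1.1) (by fun_prop)) (Poly.const 2)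
        (Poly.snd Poly.id)
    exact this
  have hz : GapP (fun z : (α × ℕ) × ℕ => 2 * f z.1 - 1) := by
    have h1 : GapP (fun z : (α × ℕ) × ℕ => f z.1) := hf.comp (Poly.fst Poly.id)
    exact ((GapP.const 2).mul h1).sub (GapP.const 1)
  have hu : GapP (fun y : α × ℕ => ∏ k ∈ Finset.range (K y.1),
      ((2 * f y - 1) + ((2 ^ min k (K y.1) : ℕ) : ℤ)) ^ 2) := by
    have h1 : GapP (fun z : (α × ℕ) × ℕ =>
        ((2 * f z.1 - 1) + ((2 ^ min z.2 (K z.1.1) : ℕ) : ℤ)) ^ 2) :=
      ((hz.add hpw).mul (hz.add hpw)).congr fun z => by ring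
    exact GapP.prod h1 hK'
  have hv : GapP (fun y : α × ℕ => ∏ k ∈ Finset.range (K y.1),
      ((2 * f y - 1) - ((2 ^ min k (K y.1) : ℕ) : ℤ)) ^ 2) := by
    have h1 : GapP (fun z : (α × ℕ) × ℕ =>
        ((2 * f z.1 - 1) - ((2 ^ min z.2 (K z.1.1) : ℕ) : ℤ)) ^ 2) :=
      ((hz.sub hpw).mul (hz.sub hpw)).congr fun z => by ring
    exact GapP.prod h1 hK'
  have hpow : ∀ {g : α × ℕ → ℤ}, GapP g → GapP (fun y : α × ℕ => g y ^ n y.1) := by
    intro g hg
    refine (GapP.prod (f := fun z : (α × ℕ) × ℕ => g z.1) (hg.comp (Poly.fst Poly.id)) hn').congr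
      fun y => ?_
    simp only [Finset.prod_const, Finset.card_range]
  have hA := hpow hu
  have hB := hpow hv
  have hT : GapP (fun a => 2 * (∏ i ∈ Finset.range (n a), (∏ k ∈ Finset.range (K a),
      ((2 * f (a, i) - 1) + ((2 ^ min k (K a) : ℕ) : ℤ)) ^ 2) ^ n a) -
      ∏ i ∈ Finset.range (n a), ((∏ k ∈ Finset.range (K a),
      ((2 * f (a, i) - 1) + ((2 ^ min k (K a) : ℕ) : ℤ)) ^ 2) ^ n a +
      (∏ k ∈ Finset.range (K a),
      ((2 * f (a, i) - 1) - ((2 ^ min k (K a) : ℕ) : ℤ)) ^ 2) ^ n a)) :=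
    ((GapP.const 2).mul (hA.prod hn)).sub ((hA.add hB).prod hn)
  have h1 := inPP_pos hT
  refine cast (congrArg (fun P => Med.InPPc (lang P)) ?_) h1
  funext a
  have e : ∀ z : ℤ, ∀ s : ℤ, (∏ k ∈ Finset.range (K a), (z + s * ((2 ^ min k (K a) : ℕ) : ℤ)) ^ 2) =
      ∏ k ∈ Finset.range (K a), (z + s * 2 ^ k) ^ 2 := by
    intro z s
    refine Finset.prod_congr rfl fun k hk => ?_
    rw [Finset.mem_range] at hk
    rw [min_eq_left hk.le]
    push_cast
    rfl
  have e1 : ∀ z : ℤ, (∏ k ∈ Finset.range (K a), (z + ((2 ^ min k (K a) : ℕ) : ℤ)) ^ 2) =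
      ∏ k ∈ Finset.range (K a), (z + 2 ^ k) ^ 2 := by
    intro z
    have := e z 1
    simpa only [one_mul] using this
  have e2 : ∀ z : ℤ, (∏ k ∈ Finset.range (K a), (z - ((2 ^ min k (K a) : ℕ) : ℤ)) ^ 2) =
      ∏ k ∈ Finset.range (K a), (z - 2 ^ k) ^ 2 := by
    intro z
    have := e z (-1)
    simpa only [neg_mul, one_mul, ← sub_eq_add_neg] using this
  simp only [e1, e2]
  rw [sub_pos]
  refine propext (prod_crit (N := 9 ^ n a) (nine_pow _) (fun i _ => ?_) (fun i _ => ?_)
    fun i hi => ?_)
  · exact pow_nonneg (Finset.prod_nonneg fun _ _ => sq_nonneg _) _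
  · exact pow_nonneg (Finset.prod_nonneg fun _ _ => sq_nonneg _) _
  · have hbi := abs_lt.1 (hb a i hi)
    rcases lt_or_ge 0 (f (a, i)) with h | h
    · left
      refine ⟨h, pow_pos (sq_prod_pos (by omega)) _, ?_⟩
      rw [← mul_pow]
      exact pow_le_pow_left₀ (mul_nonneg (by norm_num)
        (Finset.prod_nonneg fun _ _ => sq_nonneg _)) (sq_prod_le (by omega) hbi.2) _
    · right
      refine ⟨not_lt.2 h, ?_⟩
      refine pow_le_pow_left₀ (Finset.prod_nonneg fun _ _ => sq_nonneg _) ?_ _
      have h2 := sq_prod_le (K := K a) (z := -(2 * f (a, i) - 1)) (by omega) (by omega)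
      have e3 : ∏ k ∈ Finset.range (K a), (-(2 * f (a, i) - 1) - 2 ^ k) ^ 2 =
          ∏ k ∈ Finset.range (K a), ((2 * f (a, i) - 1) + 2 ^ k) ^ 2 :=
        Finset.prod_congr rfl fun k _ => by ring
      have e4 : ∏ k ∈ Finset.range (K a), (-(2 * f (a, i) - 1) + 2 ^ k) ^ 2 =
          ∏ k ∈ Finset.range (K a), ((2 * f (a, i) - 1) - 2 ^ k) ^ 2 :=
        Finset.prod_congr rfl fun k _ => by ring
      rw [e3, e4] at h2
      have h3 : 0 ≤ ∏ k ∈ Finset.range (K a), ((2 * f (a, i) - 1) + 2 ^ k) ^ 2 :=
        Finset.prod_nonneg fun _ _ => sq_nonneg _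
      omega

end Pool.Agent.NPC.G276
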