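import Pool.Agent.H276R3.Final

/-!
# Hardness for `PP`
-/

namespace Pool.Agent.NPC.G276

open Pool.Agent.H276R3 Pool.Agent.NPC.Cnt

/-! ### raw strings -/

theorem inPP_lt_raw {F G : List Bool → ℕ} (hF : CountP F) (hG : CountP G) :
    Med.InPPc {x | F x < G x} := by
  obtain ⟨R, r, hR, hF⟩ := hF.normal
  obtain ⟨R', r', hR', hG⟩ := hG.normal
  let test : List Bool × List Bool → Bool := fun s => bif s.2.head?.getD false
    then R' (s.1, s.2.tail) else !R (s.1, s.2.tail)
  have htest : Poly test := by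
    have h2 : Poly (fun z : List Bool × List Bool => (z.1, z.2.tail)) := by fun_prop
    exact Poly.cond (by fun_prop) (hR'.comp h2) (Poly.not (hR.comp h2))
  refine ⟨fun y => [test (NPC.unpair y)],
    (r + r').comp (Polynomial.C 4 * Polynomial.X + Polynomial.C 1) + Polynomial.C 1,
    polyTime_of_poly (htest.comp NPC.poly_unpair), fun x => ?_⟩
  simp only [NPC.unpair_pairBits, List.cons.injEq, and_true, Polynomial.eval_add,
    Polynomial.eval_C, Polynomial.eval_comp, Polynomial.eval_mul, Polynomial.eval_X]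
  rw [← bsum_eq_card _ fun w => test (x, w), bsum_succ, pow_succ]
  have hsz := Pool.Agent.NPC.sz_listBool_le x
  set B := r.eval (4 * x.length + 1) + r'.eval (4 * x.length + 1) with hB
  have b1 : r.eval (sz x) ≤ B := (eval_mono r hsz).trans (by omega)
  have b2 : r'.eval (sz x) ≤ B := (eval_mono r' hsz).trans (by omega)
  have e1 : bsum B (fun w => (test (x, true :: w)).toNat) = G x := by
    rw [hG x B b2]
    refine bsum_congr fun w _ => ?_
    simp only [test, List.head?_cons, Option.getD_some, cond_true, List.tail_cons]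
  have e2 : bsum B (fun w => (test (x, false :: w)).toNat) + F x = 2 ^ B := by
    rw [hF x B b1, ← bsum_add]
    have : bsum B (fun _ => 1) = 2 ^ B := by rw [bsum_const, mul_one]
    rw [← this]
    refine bsum_congr fun w _ => ?_
    simp only [test, List.head?_cons, Option.getD_some, cond_false, List.tail_cons]
    cases R (x, w) <;> rfl
  rw [e1]
  show F x < G x ↔ _
  omega

/-- `NP` is contained in `PP`. -/
theorem np_sub_pp {L : Set (List Bool)} (hL : InNP L) : Med.InPPc L := by
  obtain ⟨V, p, hV, hL⟩ := hL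
  have h1 : CountP (fun x : List Bool => Nat.card {w : List Bool //
      (decide (w.length ≤ p.eval x.length) && decide (V (pairBits x w) = [true])) = true}) := by
    refine countP_typed (fun (x w : List Bool) => decide (w.length ≤ p.eval x.length) &&
      decide (V (pairBits x w) = [true])) ?_ (Polynomial.C 4 * p + Polynomial.C 1) ?_
    · have h1 : Poly (fun z : List Bool × List Bool => p.eval z.1.length) :=
        (Med.uPoly_evalLen (x := fun z : List Bool × List Bool => z.1) (by fun_prop) p).toPoly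
      have h2 : Poly (fun z : List Bool × List Bool => V (pairBits z.1 z.2)) :=
        (Med.poly_of_polyTime hV).comp (Med.poly_pairBits (by fun_prop) (by fun_prop))
      exact Poly.and (Poly.decide_le (by fun_prop) h1) (Poly.decide_eq h2 (Poly.const [true]))
    · intro x w h
      rw [Bool.and_eq_true, decide_eq_true_eq] at h
      have h2 := Pool.Agent.NPC.sz_listBool_le w
      have h3 : p.eval x.length ≤ p.eval (sz x) := eval_mono p (length_lt_sz x).le
      simp only [Polynomial.eval_add, Polynomial.eval_mul, Polynomial.eval_C]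
      omega
  have h2 := inPP_lt_raw (CountP.const 0) h1
  refine cast (congrArg Med.InPPc ?_) h2
  ext x
  rw [hL x]
  show 0 < _ ↔ _
  have hfin : Finite {w : List Bool // (decide (w.length ≤ p.eval x.length) &&
      decide (V (pairBits x w) = [true])) = true} := by
    have h2 : ({w : List Bool | (decide (w.length ≤ p.eval x.length) &&
      decide (V (pairBits x w) = [true])) = true} : Set (List Bool)).Finite :=
      (List.finite_length_le Bool (p.eval x.length)).subset fun w hw => by
        rw [Set.mem_ofPred_eq, Bool.and_eq_true, decide_eq_true_eq] at hw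
        exact hw.1
    exact h2
  rw [Nat.card_pos_iff, and_iff_left hfin]
  constructor
  · rintro ⟨w, hw⟩
    rw [Bool.and_eq_true, decide_eq_true_eq, decide_eq_true_eq] at hw
    exact ⟨w, hw⟩
  · rintro ⟨w, h1, h2⟩
    exact ⟨w, by rw [Bool.and_eq_true, decide_eq_true_eq, decide_eq_true_eq]; exact ⟨h1, h2⟩⟩

/-! ### The reduction -/

theorem outG_spec {G : Dag} {P : Prop} {M : Equiv.Perm (Fin (num G))}
    (h1 : IsSM (num G) (inst (num G) (cycs G)))
    (h2 : code M = (List.range (num G)).map (fun m => ((cycs G).take 1).foldr nx m))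
    (h3 : Stable (num G) (inst (num G) (cycs G)) M)
    (h4 : ∀ j, IsAlpha (num G) (inst (num G) (cycs G)) j M → P)
    (h5 : P → ∃ j, IsAlpha (num G) (inst (num G) (cycs G)) j M) :
    GMInput (outG G) ∧ (GM (outG G) ↔ P) := by
  have e1 : (outG G).1 = inst (num G) (cycs G) := rfl
  have e2 : (outG G).2 = code M := h2.symm
  refine ⟨⟨num G, M, by rw [e1]; exact h1, e2, by rw [e1]; exact h3⟩, ?_⟩
  constructor
  · rintro ⟨n, M', g1, g2, g3, j, g4⟩
    rw [e1] at g1 g3 g4
    rw [e2] at g2
    obtain rfl : n = num G := by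
      have := g1.1
      have := h1.1
      omega
    have hM : M' = M := code_inj g2.symm
    rw [hM] at g4
    exact h4 j g4
  · intro h
    obtain ⟨j, hj⟩ := h5 h
    exact ⟨num G, M, by rw [e1]; exact h1, e2, by rw [e1]; exact h3, j, by rw [e1]; exact hj⟩

theorem outG_input (φ : CNF ℕ) (p c : List Unit) : GMInput (outG (gOf φ p c.length)) ∧
    (GM (outG (gOf φ p c.length)) ↔ 2 ^ p.length < 2 * satCount φ) := by
  obtain ⟨M, h1, h2, h3, h4, h5⟩ := gOf_crit φ p c.length
  exact outG_spec h1 h2 h3 h4 fun h => ⟨_, h5 h⟩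

/-- the data of a language in `PP` -/
theorem pp_data {L : Set (List Bool)} (hL : Med.InPPc L) :
    ∃ (g : List Bool → CNF ℕ) (p : List Bool → List Unit), Poly g ∧ Poly p ∧
      ∀ x, x ∈ L ↔ 2 ^ (p x).length < 2 * satCount (g x) := by
  obtain ⟨V, p, hV, hL⟩ := hL
  obtain ⟨g, hg, hgs⟩ := parsimonious hV p
  refine ⟨g, fun x => List.replicate (p.eval x.length) (), PC.comp hg pc_raw,
    Med.uPoly_evalLen Poly.id p, fun x => ?_⟩
  rw [hL x, hgs x, List.length_replicate]

theorem GM_hard' {L : Set (List Bool)} (hL : Med.InPPc L) :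
    ∃ f : List Bool → Inst × List ℕ, Poly f ∧
      (∀ x, GMInput (f x)) ∧ ∀ x, x ∈ L ↔ GM (f x) := by
  obtain ⟨g, p, hg, hp, hL⟩ := pp_data hL
  have h1 := poly_out hg hp (Poly.const ([] : List Unit))
  exact ⟨fun x => outG (gOf (g x) (p x) ([] : List Unit).length), h1,
    fun x => (outG_input _ _ _).1, fun x => by rw [(outG_input _ _ _).2]; exact hL x⟩

/-- **PP-hardness** of `GM`, with a reduction which outputs legal inputs. -/
theorem GM_hard {L : Set (List Bool)} (hL : Med.InPPc L) :
    ∃ f : List Bool → Inst × List ℕ, PolyTime (fun x => bits (f x)) ∧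
      (∀ x, GMInput (f x)) ∧ ∀ x, x ∈ L ↔ GM (f x) := by
  obtain ⟨f, h1, h2, h3⟩ := GM_hard' hL
  exact ⟨f, polyTime_bits h1, h2, h3⟩

/-! ### The problem with given `j` -/

theorem jgm_spec {G : Dag} {P : Prop} {M : Equiv.Perm (Fin (num G))} {J : ℕ}
    (h1 : IsSM (num G) (inst (num G) (cycs G)))
    (h2 : code M = (List.range (num G)).map (fun m => ((cycs G).take 1).foldr nx m))
    (h3 : Stable (num G) (inst (num G) (cycs G)) M)
    (h4 : ∀ j, IsAlpha (num G) (inst (num G) (cycs G)) j M → P)
    (h5 : P → IsAlpha (num G) (inst (num G) (cycs G)) (nbar G 0 + 1) M)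
    (h6 : nbar G 0 + 1 ≤ J) (h7 : J ≤ (stableMatchings (num G) (inst (num G) (cycs G))).card) :
    (∀ j, 1 ≤ j → j ≤ J → JGMInput (outG G, j)) ∧
      (P ↔ ∃ j, (1 ≤ j ∧ j ≤ J) ∧ JGM (outG G, j)) := by
  have e1 : (outG G).1 = inst (num G) (cycs G) := rfl
  have e2 : (outG G).2 = code M := h2.symm
  refine ⟨fun j hj1 hj2 => ⟨num G, M, ?_, ?_, ?_, hj1, ?_⟩, ?_⟩
  · show IsSM (num G) (outG G).1
    rw [e1]; exact h1
  · exact e2
  · show Stable (num G) (outG G).1 M
    rw [e1]; exact h3
  · show j ≤ (stableMatchings (num G) (outG G).1).card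
    rw [e1]; exact hj2.trans h7
  · constructor
    · intro h
      refine ⟨nbar G 0 + 1, ⟨by omega, h6⟩, num G, M, ?_, e2, ?_, ?_⟩
      · show IsSM (num G) (outG G).1
        rw [e1]; exact h1
      · show Stable (num G) (outG G).1 M
        rw [e1]; exact h3
      · show IsAlpha (num G) (outG G).1 (nbar G 0 + 1) M
        rw [e1]; exact h5 h
    · rintro ⟨j, _, n, M', g1, g2, g3, g4⟩
      change IsSM n (outG G).1 at g1
      change (outG G).2 = code M' at g2
      change Stable n (outG G).1 M' at g3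
      change IsAlpha n (outG G).1 j M' at g4
      rw [e1] at g1 g3 g4
      rw [e2] at g2
      obtain rfl : n = num G := by
        have := g1.1
        have := h1.1
        omega
      have hM : M' = M := code_inj g2.symm
      rw [hM] at g4
      exact h4 j g4

theorem card_stable_eq {G : Dag} (hG : DagOK G) :
    (stableMatchings (num G) (inst (num G) (cycs G))).card = idc G := by
  have h := (runOf (okX_cycs hG)).card_stable (pref_inst (okX_cycs hG)) (fun _ => True)
  rw [card_stableMatchings]
  unfold idc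
  rw [bsum_eq_card]
  have e1 : Nat.card {M : Equiv.Perm (Fin (num G)) // Stable (num G) (inst (num G) (cycs G)) M} =
      Nat.card {M : Equiv.Perm (Fin (num G)) // StableP
        (fun m w : Fin (num G) => mrank (inst (num G) (cycs G)) m w)
        (fun w m : Fin (num G) => wrank (inst (num G) (cycs G)) w m) M ∧ True} := by
    refine Nat.card_congr (Equiv.subtypeEquivRight fun M => ?_)
    rw [and_true]
    exact Iff.rfl
  rw [e1, h]
  refine Nat.card_congr (Equiv.subtypeEquivRight fun w => ?_)
  rw [and_true, runOf_closed hG, cycs_length]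
  refine and_congr_right fun _ => ?_
  rw [clB_iff]
  rfl

theorem idc_le (G : Dag) : idc G ≤ 2 ^ G.1 := by
  unfold idc
  refine (bsum_le (g := fun _ => 1) fun w _ => Bool.toNat_le _).trans ?_
  rw [bsum_const, mul_one]

/-- the vertices of the second side, in unary -/
noncomputable def c0 (φ : CNF ℕ) (p : List Unit) : List Unit := (sersU (oList φ p)).1

theorem c0_length (φ : CNF ℕ) (p : List Unit) : (c0 φ p).length = (sers (oList φ p)).1 := by
  rw [← dg_sersU]
  rfl

theorem poly_c0 {α : Type} [TEnc α] {φ : α → CNF ℕ} {p : α → List Unit} (h : Poly φ)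
    (hp : Poly p) : Poly (fun a => c0 (φ a) (p a)) :=
  Poly.fst (poly_sersU (ts := fun a => oList (φ a) (p a)) (by fun_prop)
    fun a => oList_ok (φ a) (p a))

theorem jgm_input (φ : CNF ℕ) (p : List Unit) :
    (∀ j, 1 ≤ j → j ≤ 2 ^ (c0 φ p).length + 2 →
      JGMInput (outG (gOf φ p (c0 φ p ++ [(), ()]).length), j)) ∧
    (2 ^ p.length < 2 * satCount φ ↔ ∃ j, (1 ≤ j ∧ j ≤ 2 ^ (c0 φ p).length + 2) ∧
      JGM (outG (gOf φ p (c0 φ p ++ [(), ()]).length), j)) := by
  obtain ⟨M, h1, h2, h3, h4, h5⟩ := gOf_crit φ p (c0 φ p ++ [(), ()]).length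
  refine jgm_spec h1 h2 h3 h4 h5 ?_ ?_
  · have h6 : nbar (gOf φ p (c0 φ p ++ [(), ()]).length) 0 = 1 + idc (sers (oList φ p)) :=
      (nbar_fin (sers_ok (eList_ok φ)) (sers_ok (oList_ok φ p))).1
    have h7 := idc_le (sers (oList φ p))
    rw [h6, c0_length]
    omega
  · rw [card_stable_eq (gOf_ok _ _ _)]
    refine le_trans ?_ (two_pow_le_idc_fin (sers_ok (eList_ok φ)) (sers_ok (oList_ok φ p)))
    rw [List.length_append, pow_add]
    have : 0 < 2 ^ (c0 φ p).length := by positivity
    simp only [List.length_cons, List.length_nil]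
    omega

/-- If some language in `NP` agrees with `JGM` on the legal inputs then `PP` is contained in
`NP`. -/
theorem JGM_hard {A : Set (List Bool)} (hA : InNP A)
    (hJ : ∀ x, JGMInput x → (bits x ∈ A ↔ JGM x)) {L : Set (List Bool)} (hL : Med.InPPc L) :
    InNP L := by
  obtain ⟨g, p, hg, hp, hL⟩ := pp_data hL
  have hc0 := poly_c0 hg hp
  set f : List Bool → Inst × List ℕ := fun x =>
    outG (gOf (g x) (p x) (c0 (g x) (p x) ++ [(), ()]).length) with hf
  have hfP : Poly f := poly_out hg hp (by fun_prop)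
  have hJ0 : Poly (fun x => 2 ^ (c0 (g x) (p x)).length + 2) := by
    have := Med.poly_two_pow (UPoly.length hc0)
    fun_prop
  obtain ⟨r, hr⟩ := hJ0.sz_le
  have key : ∀ x, x ∈ L ↔ ∃ j, bits (f x, j) ∈ A ∧
      (decide (1 ≤ j) && decide (j ≤ 2 ^ (c0 (g x) (p x)).length + 2)) = true := by
    intro x
    obtain ⟨k1, k2⟩ := jgm_input (g x) (p x)
    rw [hL x, k2]
    refine exists_congr fun j => ?_
    rw [Bool.and_eq_true, decide_eq_true_eq, decide_eq_true_eq]
    constructor
    · rintro ⟨h1, h2⟩
      exact ⟨(hJ _ (k1 j h1.1 h1.2)).2 h2, h1⟩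
    · rintro ⟨h1, h2⟩
      exact ⟨h2, (hJ _ (k1 j h2.1 h2.2)).1 h1⟩
  have h1 : InNPP (fun x : List Bool => ∃ j : ℕ, bits (f x, j) ∈ A ∧
      (decide (1 ≤ j) && decide (j ≤ 2 ^ (c0 (g x) (p x)).length + 2)) = true) := by
    refine Med.InNPP.exists (Q := fun y : List Bool × ℕ => bits (f y.1, y.2) ∈ A ∧
      (decide (1 ≤ y.2) && decide (y.2 ≤ 2 ^ (c0 (g y.1) (p y.1)).length + 2)) = true)
      (Med.InNPP.and ?_ ?_) (Polynomial.C 2 * r) ?_
    · have h2 : InNPP (fun z : (Inst × List ℕ) × ℕ => bits z ∈ A) := Med.inNPP_typed hA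
      exact Med.InNPP.comp (f := fun y : List Bool × ℕ => (f y.1, y.2)) h2
        (Poly.pair (hfP.comp (Poly.fst Poly.id)) (Poly.snd Poly.id))
    · refine Med.inNPP_of_test (d := fun y : List Bool × ℕ => decide (1 ≤ y.2) &&
        decide (y.2 ≤ 2 ^ (c0 (g y.1) (p y.1)).length + 2)) ?_ fun y => Iff.rfl
      have h3 : Poly (fun y : List Bool × ℕ => 2 ^ (c0 (g y.1) (p y.1)).length + 2) :=
        hJ0.comp (Poly.fst Poly.id)
      fun_prop
    · rintro x j ⟨h2, h3⟩
      refine ⟨j, ?_, h2, h3⟩
      simp only [Bool.and_eq_true, decide_eq_true_eq] at h3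
      have h4 := sz_nat_mono_le h3.2
      have h5 := hr x
      rw [Polynomial.eval_mul, Polynomial.eval_C]
      omega
  refine Med.inNP_raw (cast (congrArg InNPP ?_) h1)
  funext x
  exact propext (key x).symm

/-! ### The main statements -/

theorem GM_iff_pp : InNP (lang GM) ↔ ∀ L, Med.InPPc L → InNP L := by
  constructor
  · intro h L hL
    obtain ⟨f, hf, _, h2⟩ := GM_hard' hL
    have h3 : InNPP GM := h
    refine Med.inNP_raw (cast (congrArg InNPP ?_) (Med.InNPP.comp h3 hf))
    funext x
    exact propext (h2 x).symm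
  · intro h
    exact h _ GM_inPP

theorem JGM_iff_pp : InNP (lang JGM) ↔ ∀ L, Med.InPPc L → InNP L := by
  constructor
  · intro h L hL
    exact JGM_hard h (fun x _ => bits_mem_lang) hL
  · intro h
    exact h _ JGM_inPP

end Pool.Agent.NPC.G276
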