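import Pool.Agent.H276R3.Ply
import Pool.Agent.H276R3.Gap
import Pool.Agent.H276R3.Alpha

/-!
# Membership in `PP`
-/

namespace Pool.Agent.NPC.G276

open Pool.Agent.H276R3 Pool.Agent.NPC.Cnt

variable {α : Type} [TEnc α]

/-! ### typed counting -/

theorem countP_of_sharpP {f : List Bool → ℕ} (hf : SharpP f) : CountP f := by
  obtain ⟨V, p, hV, hf⟩ := hf
  refine ⟨fun x => decide (V (pairBits x.1 x.2) = [true]), fun x => p.eval x.length, ?_,
    Med.uPoly_evalLen Poly.id p, fun x => ?_⟩
  · exact Poly.decide_eq ((Med.poly_of_polyTime hV).comp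
      (Med.poly_pairBits (Poly.fst Poly.id) (Poly.snd Poly.id))) (Poly.const [true])
  · rw [hf, bsum_eq_card _ fun w => decide (V (pairBits x w) = [true])]
    refine Nat.card_congr (Equiv.subtypeEquivRight fun w => ?_)
    rw [decide_eq_true_iff]

theorem countP_typed [Cnt.TDec α] {γ : Type} [TEnc γ] [Cnt.TDec γ] (R : α → γ → Bool)
    (hR : Poly (fun z : α × γ => R z.1 z.2)) (q : Polynomial ℕ)
    (hq : ∀ a c, R a c = true → sz c ≤ q.eval (sz a)) :
    CountP (fun a => Nat.card {c : γ // R a c = true}) := by
  have h1 := sharpP_typed R hR q hq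
  have h2 := (countP_of_sharpP h1).comp (g := fun a : α => bits a) Med.poly_bits
  refine h2.congr fun a => ?_
  rw [strFn_bits]

/-! ### positions in lists -/

theorem idxOf_eq_aux (v : ℕ) : ∀ (l : List ℕ) (n : ℕ),
    ((((l.zipIdx n).filter fun q => decide (q.1 = v)).head?.map fun q => q.2).getD
      (n + l.length)) = n + l.idxOf v
  | [], n => by simp
  | a :: l, n => by
    rw [List.zipIdx_cons]
    by_cases h : a = v
    · subst h
      simp
    · rw [List.filter_cons_of_neg (by simpa using h), List.idxOf_cons_ne _ h, List.length_cons]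
      have := idxOf_eq_aux v l (n + 1)
      rw [show n + (l.length + 1) = n + 1 + l.length by ring, this]
      omega

@[fun_prop]
theorem poly_idxOf {l : α → List ℕ} {v : α → ℕ} (hl : Poly l) (hv : Poly v) :
    Poly (fun a => (l a).idxOf (v a)) := by
  have h : Poly (fun a => ((((l a).zipIdx.filter fun q => decide (q.1 = v a)).head?.map
      fun q => q.2).getD (l a).length)) := by fun_prop
  refine h.congr fun a => ?_
  have := idxOf_eq_aux (v a) (l a) 0
  simpa using this

/-- the list `0, …, n - 1`, where `n` is the length of the list -/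
def rg (L : List (List ℕ)) : List ℕ := List.range L.length

@[fun_prop]
theorem poly_rg {L : α → List (List ℕ)} (h : Poly L) : Poly (fun a => rg (L a)) :=
  (UPoly.length h).range

/-- `l` is a permutation of `0, …, n - 1` -/
def isPermB (L : List (List ℕ)) (l : List ℕ) : Bool :=
  decide (l.length = L.length) && (rg L).all fun i => decide (i ∈ l)

@[fun_prop]
theorem poly_isPermB {L : α → List (List ℕ)} {l : α → List ℕ} (h : Poly L) (hl : Poly l) :
    Poly (fun a => isPermB (L a) (l a)) := by
  unfold isPermB
  fun_prop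

theorem isPermB_iff {L : List (List ℕ)} {l : List ℕ} :
    isPermB L l = true ↔ l.Perm (List.range L.length) := by
  unfold isPermB rg
  simp only [Bool.and_eq_true, decide_eq_true_eq, List.all_eq_true, List.mem_range]
  constructor
  · rintro ⟨h1, h2⟩
    have h3 : (List.range L.length).Subperm l :=
      List.subperm_of_subset List.nodup_range fun i hi => h2 i (List.mem_range.1 hi)
    exact (h3.perm_of_length_le (by rw [List.length_range, h1])).symm
  · intro h
    refine ⟨by rw [h.length_eq, List.length_range], fun i hi => ?_⟩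
    exact h.mem_iff.2 (List.mem_range.2 hi)

/-- the test for stable marriage instances -/
def okB (I : Inst) : Bool :=
  decide (I.2.length = I.1.length) && I.1.all (fun l => isPermB I.1 l) &&
    I.2.all fun l => isPermB I.1 l

@[fun_prop]
theorem poly_okB {I : α → Inst} (h : Poly I) : Poly (fun a => okB (I a)) := by
  unfold okB
  fun_prop

theorem okB_iff {I : Inst} : okB I = true ↔ IsSM I.1.length I := by
  unfold okB IsSM
  simp only [Bool.and_eq_true, decide_eq_true_eq, List.all_eq_true, isPermB_iff]
  tauto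

@[fun_prop]
theorem poly_mrank {I : α → Inst} {m w : α → ℕ} (h : Poly I) (hm : Poly m) (hw : Poly w) :
    Poly (fun a => mrank (I a) (m a) (w a)) := by
  unfold mrank
  fun_prop

@[fun_prop]
theorem poly_wrank {I : α → Inst} {m w : α → ℕ} (h : Poly I) (hm : Poly m) (hw : Poly w) :
    Poly (fun a => wrank (I a) (m a) (w a)) := by
  unfold wrank
  fun_prop

/-- the test for codes of stable matchings -/
def stB (I : Inst) (c : List ℕ) : Bool :=
  isPermB I.1 c && (rg I.1).all fun m => (rg I.1).all fun m' =>
    !(decide (mrank I m (c.getD m' 0) < mrank I m (c.getD m 0)) &&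
      decide (wrank I (c.getD m' 0) m < wrank I (c.getD m' 0) m'))

@[fun_prop]
theorem poly_stB {I : α → Inst} {c : α → List ℕ} (h : Poly I) (hc : Poly c) :
    Poly (fun a => stB (I a) (c a)) := by
  unfold stB
  fun_prop

theorem code_getD {n : ℕ} (M : Equiv.Perm (Fin n)) (m : Fin n) : (code M).getD m 0 = M m := by
  unfold code
  rw [List.getD_eq_getElem _ _ (by simp)]
  simp

theorem code_inj {n : ℕ} {M M' : Equiv.Perm (Fin n)} (h : code M = code M') : M = M' := by
  ext m
  rw [← code_getD, ← code_getD, h]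

theorem code_perm {n : ℕ} (M : Equiv.Perm (Fin n)) : (code M).Perm (List.range n) := by
  unfold code
  have h1 : (List.ofFn fun m => ((M m : Fin n) : ℕ)).Nodup := by
    rw [List.nodup_ofFn]
    intro a b h
    exact M.injective (Fin.ext h)
  rw [List.perm_ext_iff_of_nodup h1 List.nodup_range]
  intro a
  rw [List.mem_ofFn, List.mem_range]
  constructor
  · rintro ⟨m, rfl⟩
    exact (M m).2
  · intro ha
    exact ⟨M.symm ⟨a, ha⟩, by simp⟩

theorem exists_code {n : ℕ} {l : List ℕ} (h : l.Perm (List.range n)) :
    ∃ M : Equiv.Perm (Fin n), l = code M := by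
  have h1 : l.length = n := by rw [h.length_eq, List.length_range]
  have h2 : l.Nodup := h.nodup_iff.2 List.nodup_range
  have h3 : ∀ i : Fin n, l[i.1]'(by omega) < n := by
    intro i
    exact List.mem_range.1 (h.mem_iff.1 (List.getElem_mem _))
  let f : Fin n → Fin n := fun i => ⟨l[i.1]'(by omega), h3 i⟩
  have hf : Function.Injective f := by
    intro a b hab
    have : l[a.1]'(by omega) = l[b.1]'(by omega) := congrArg Fin.val hab
    exact Fin.ext ((List.Nodup.getElem_inj_iff h2).1 this)
  refine ⟨Equiv.ofBijective f (Finite.injective_iff_bijective.1 hf), ?_⟩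
  refine List.ext_getElem (by simp [code, h1]) fun i g1 g2 => ?_
  simp [code, f]

theorem stB_code {I : Inst} (M : Equiv.Perm (Fin I.1.length)) :
    stB I (code M) = true ↔ Stable I.1.length I M := by
  unfold stB
  rw [Bool.and_eq_true, isPermB_iff, List.all_eq_true]
  have h0 := code_perm M
  simp only [List.all_eq_true, Bool.not_eq_true', Bool.and_eq_false_iff, decide_eq_false_iff_not,
    not_lt, rg, List.mem_range]
  constructor
  · rintro ⟨_, h⟩ m w ⟨h1, h2⟩
    have h3 := h m m.2 (M.symm w) (M.symm w).2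
    rw [code_getD, code_getD, Equiv.apply_symm_apply] at h3
    omega
  · intro h
    refine ⟨h0, fun m hm m' hm' => ?_⟩
    have h3 := h ⟨m, hm⟩ (M ⟨m', hm'⟩)
    rw [Equiv.symm_apply_apply] at h3
    have e1 := code_getD M ⟨m, hm⟩
    have e2 := code_getD M ⟨m', hm'⟩
    simp only at e1 e2 h3
    rw [e1, e2]
    omega

theorem stB_iff {I : Inst} {c : List ℕ} : stB I c = true ↔
    ∃ M : Equiv.Perm (Fin I.1.length), c = code M ∧ Stable I.1.length I M := by
  constructor
  · intro h
    have h1 : isPermB I.1 c = true := by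
      unfold stB at h
      rw [Bool.and_eq_true] at h
      exact h.1
    obtain ⟨M, rfl⟩ := exists_code (isPermB_iff.1 h1)
    exact ⟨M, rfl, (stB_code M).1 h⟩
  · rintro ⟨M, rfl, h⟩
    exact (stB_code M).2 h

theorem card_code {I : Inst} (p : List ℕ → Bool) :
    Nat.card {c : List ℕ // (stB I c && p c) = true} =
      Nat.card {M : Equiv.Perm (Fin I.1.length) // Stable I.1.length I M ∧ p (code M) = true} := by
  symm
  refine Nat.card_congr (Equiv.ofBijective (fun M => ⟨code M.1, ?_⟩) ⟨?_, ?_⟩)
  · rw [Bool.and_eq_true]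
    exact ⟨(stB_code M.1).2 M.2.1, M.2.2⟩
  · rintro ⟨M, _⟩ ⟨M', _⟩ h
    simp only [Subtype.mk.injEq] at h
    exact Subtype.ext (code_inj h)
  · rintro ⟨c, hc⟩
    rw [Bool.and_eq_true] at hc
    obtain ⟨M, rfl, h⟩ := stB_iff.1 hc.1
    exact ⟨⟨M, h, hc.2⟩, rfl⟩

theorem stB_sz {I : Inst} {c : List ℕ} (h : stB I c = true) :
    sz c ≤ sz I * (4 * sz I + 2) + 1 := by
  have h1 : isPermB I.1 c = true := by
    unfold stB at h
    rw [Bool.and_eq_true] at h
    exact h.1
  rw [isPermB_iff] at h1
  have h2 := length_lt_sz I.1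
  have h3 : sz I = sz I.1 + sz I.2 + 1 := by
    conv_lhs => rw [← Prod.mk.eta (p := I)]
    rw [sz_pair]
  have h4 : sz c ≤ c.length * ((4 * sz I + 1) + 1) + 1 := by
    refine sz_le_length_mul c _ fun a ha => ?_
    have := List.mem_range.1 (h1.mem_iff.1 ha)
    have h5 := sz_nat_le' a
    omega
  have h5 : c.length ≤ sz I := by
    rw [h1.length_eq, List.length_range]
    omega
  have h6 := Nat.mul_le_mul_right (4 * sz I + 2) h5
  have h7 : (4 * sz I + 1) + 1 = 4 * sz I + 2 := rfl
  rw [h7] at h4
  omega

/-! ### the counting functions -/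

/-- inputs of `GM` together with a man -/
abbrev In1 := (Inst × List ℕ) × ℕ

/-- number of stable matchings which are better for the man -/
noncomputable def cL (x : In1) : ℕ := Nat.card {c : List ℕ // (stB x.1.1 c &&
  decide (mrank x.1.1 x.2 (c.getD x.2 0) < mrank x.1.1 x.2 (x.1.2.getD x.2 0))) = true}

/-- number of stable matchings which are at least as good for the man -/
noncomputable def cU (x : In1) : ℕ := Nat.card {c : List ℕ // (stB x.1.1 c &&
  decide (mrank x.1.1 x.2 (c.getD x.2 0) ≤ mrank x.1.1 x.2 (x.1.2.getD x.2 0))) = true}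

/-- number of stable matchings -/
noncomputable def cS (x : In1) : ℕ := Nat.card {c : List ℕ // (stB x.1.1 c && true) = true}

theorem sz_in1 (x : In1) : sz x.1.1 ≤ sz x := by
  have h1 : sz x = sz x.1 + sz x.2 + 1 := by
    conv_lhs => rw [← Prod.mk.eta (p := x)]
    rw [sz_pair]
  have h2 : sz x.1 = sz x.1.1 + sz x.1.2 + 1 := by
    conv_lhs => rw [← Prod.mk.eta (p := x.1)]
    rw [sz_pair]
  omega

theorem bound_in1 (x : In1) (c : List ℕ) (b : Bool) (h : (stB x.1.1 c && b) = true) :
    sz c ≤ (Polynomial.X * (Polynomial.C 4 * Polynomial.X + Polynomial.C 2) +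
      Polynomial.C 1 : Polynomial ℕ).eval (sz x) := by
  rw [Bool.and_eq_true] at h
  have h1 := stB_sz h.1
  have h2 := sz_in1 x
  simp only [Polynomial.eval_add, Polynomial.eval_mul, Polynomial.eval_C, Polynomial.eval_X]
  have h3 := Nat.mul_le_mul h2 (show 4 * sz x.1.1 + 2 ≤ 4 * sz x + 2 by omega)
  omega

theorem countP_cL : CountP cL :=
  countP_typed (fun (x : In1) (c : List ℕ) => stB x.1.1 c &&
    decide (mrank x.1.1 x.2 (c.getD x.2 0) < mrank x.1.1 x.2 (x.1.2.getD x.2 0)))
    (by fun_prop) _ fun x c h => bound_in1 x c _ h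

theorem countP_cU : CountP cU :=
  countP_typed (fun (x : In1) (c : List ℕ) => stB x.1.1 c &&
    decide (mrank x.1.1 x.2 (c.getD x.2 0) ≤ mrank x.1.1 x.2 (x.1.2.getD x.2 0)))
    (by fun_prop) _ fun x c h => bound_in1 x c _ h

theorem countP_cS : CountP cS :=
  countP_typed (fun (x : In1) (c : List ℕ) => stB x.1.1 c && true)
    (by fun_prop) _ fun x c h => bound_in1 x c _ h

theorem cL_eq {I : Inst} (M : Equiv.Perm (Fin I.1.length)) (m : Fin I.1.length) :
    cL ((I, code M), m) = Lc I.1.length I m (mrank I m (M m)) := by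
  unfold cL Lc
  rw [card_code fun c => decide (mrank I m (c.getD m 0) < mrank I m ((code M).getD m 0))]
  refine Nat.card_congr (Equiv.subtypeEquivRight fun N => ?_)
  rw [decide_eq_true_iff, code_getD, code_getD]

theorem cU_eq {I : Inst} (M : Equiv.Perm (Fin I.1.length)) (m : Fin I.1.length) :
    cU ((I, code M), m) = Uc I.1.length I m (mrank I m (M m)) := by
  unfold cU Uc
  rw [card_code fun c => decide (mrank I m (c.getD m 0) ≤ mrank I m ((code M).getD m 0))]
  refine Nat.card_congr (Equiv.subtypeEquivRight fun N => ?_)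
  rw [decide_eq_true_iff, code_getD, code_getD]

theorem cS_eq {I : Inst} (c : List ℕ) (k : ℕ) :
    cS ((I, c), k) = (stableMatchings I.1.length I).card := by
  unfold cS
  rw [card_code fun _ => true, card_stableMatchings]
  refine Nat.card_congr (Equiv.subtypeEquivRight fun N => ?_)
  simp

end Pool.Agent.NPC.G276
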