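import Pool.Agent.H276R3.Red
import Pool.Agent.H578R2.Med.PP
import Pool.Agent.H527R3.Toda.CountP

/-!
# The reduction is computable in polynomial time
-/

namespace Pool.Agent.NPC.G276

open Pool.Agent.H276R3 Pool.Agent.NPC.Cnt

variable {α : Type} [TEnc α]

/-! ### Removing repetitions -/

theorem sz_filter_le {β : Type} [TEnc β] (p : β → Bool) : ∀ l : List β, sz (l.filter p) ≤ sz l
  | [] => le_rfl
  | a :: l => by
    have ih := sz_filter_le p l
    rw [List.filter_cons]
    split_ifs
    · rw [sz_list_cons, sz_list_cons]; omega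
    · rw [sz_list_cons]; omega

theorem sz_uq_le : ∀ l : List ℕ, sz (uq l) ≤ sz l
  | [] => le_rfl
  | a :: l => by
    have ih := sz_uq_le l
    have h1 := sz_filter_le (fun b => !decide (b = a)) (uq l)
    rw [uq_cons, sz_list_cons, sz_list_cons]
    omega

@[fun_prop]
theorem poly_uq {l : α → List ℕ} (hl : Poly l) : Poly (fun a => uq (l a)) := by
  obtain ⟨r, hr⟩ := hl.sz_le
  refine Poly.foldr (l := l) (s := fun _ => ([] : List ℕ))
    (F := fun _ a acc => a :: acc.filter fun b => !decide (b = a)) hl (Poly.const _) (by fun_prop) r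
    fun a k hk => ?_
  exact (sz_uq_le _).trans ((Poly.sz_drop_le _ _).trans (hr a))

/-! ### The instance -/

@[fun_prop]
theorem poly_nx {l : α → List ℕ} {m : α → ℕ} (hl : Poly l) (hm : Poly m) :
    Poly (fun a => nx (l a) (m a)) := by
  unfold nx
  have h1 : Poly (fun a => index (l a) (m a)) := Poly.index hl hm
  have h2 : Poly (fun a => (l a).getD ((index (l a) (m a) + 1) % (l a).length) 0) := by fun_prop
  have h3 : Poly (fun a => bif decide (m a ∈ l a) then
      (l a).getD ((index (l a) (m a) + 1) % (l a).length) 0 else m a) :=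
    Poly.cond (by fun_prop) h2 hm
  refine h3.congr fun a => ?_
  by_cases h : m a ∈ l a
  · simp [h]
  · simp [h]

theorem nx_mem {l : List ℕ} {m : ℕ} : nx l m ∈ l ∨ nx l m = m := by
  unfold nx
  split_ifs with h1
  · left
    have h2 : (index l m + 1) % l.length < l.length :=
      Nat.mod_lt _ (List.length_pos_of_mem h1)
    rw [List.getD_eq_getElem _ _ h2]
    exact List.getElem_mem h2
  · exact Or.inr rfl

theorem sz_foldr_nx : ∀ (Xs : List (List ℕ)) (m : ℕ), sz (Xs.foldr nx m) ≤ sz Xs + sz m
  | [], m => by simp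
  | l :: Xs, m => by
    rw [List.foldr_cons, sz_list_cons]
    rcases nx_mem (l := l) (m := Xs.foldr nx m) with h | h
    · have := sz_le_of_mem h
      omega
    · rw [h]
      have := sz_foldr_nx Xs m
      omega

theorem sz_foldl_nx : ∀ (Xs : List (List ℕ)) (m : ℕ),
    sz (Xs.foldl (fun a l => nx l.reverse a) m) ≤ sz Xs + sz m
  | [], m => by simp
  | l :: Xs, m => by
    rw [List.foldl_cons, sz_list_cons]
    have h0 := sz_foldl_nx Xs (nx l.reverse m)
    rcases nx_mem (l := l.reverse) (m := m) with h | h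
    · have := sz_le_of_mem h
      rw [sz_reverse] at this
      omega
    · rw [h] at h0 ⊢
      omega

@[fun_prop]
theorem poly_foldr_nx {Xs : α → List (List ℕ)} {m : α → ℕ} (hX : Poly Xs) (hm : Poly m) :
    Poly (fun a => (Xs a).foldr nx (m a)) := by
  obtain ⟨r, hr⟩ := hX.sz_le
  obtain ⟨r', hr'⟩ := hm.sz_le
  refine Poly.foldr (l := Xs) (s := m) (F := fun _ l a => nx l a) hX hm (by fun_prop) (r + r')
    fun a k hk => ?_
  have h1 := sz_foldr_nx ((Xs a).drop k) (m a)
  have h2 := Poly.sz_drop_le (Xs a) k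
  have h3 := hr a
  have h4 := hr' a
  rw [Polynomial.eval_add]
  exact h1.trans (by omega)

@[fun_prop]
theorem poly_foldl_nx {Xs : α → List (List ℕ)} {m : α → ℕ} (hX : Poly Xs) (hm : Poly m) :
    Poly (fun a => (Xs a).foldl (fun a l => nx l.reverse a) (m a)) := by
  obtain ⟨r, hr⟩ := hX.sz_le
  obtain ⟨r', hr'⟩ := hm.sz_le
  refine Poly.foldl (l := Xs) (s := m) (F := fun _ a l => nx l.reverse a) hX hm (by fun_prop)
    (r + r') fun a k hk => ?_
  have h1 := sz_foldl_nx ((Xs a).take k) (m a)
  have h2 := Poly.sz_take_le (Xs a) k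
  have h3 := hr a
  have h4 := hr' a
  rw [Polynomial.eval_add]
  exact h1.trans (by omega)

theorem poly_inst_aux {R T : α → List ℕ} {Xs : α → List (List ℕ)} (hR : Poly R) (hT : Poly T)
    (hX : Poly Xs) : Poly (fun a => ((R a).map fun m =>
      uq ((T a).map (fun t => ((Xs a).take t).foldr nx m) ++ R a),
      (R a).map fun w => uq ((T a).map (fun k =>
        ((Xs a).take ((Xs a).length - k)).foldl (fun a l => nx l.reverse a) w) ++ R a))) := by
  fun_prop

theorem poly_inst {n : α → ℕ} {Xs : α → List (List ℕ)} (hn : UPoly n) (hX : Poly Xs) :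
    Poly (fun a => inst (n a) (Xs a)) :=
  poly_inst_aux hn.range (UPoly.add (UPoly.length hX) (UPoly.const 1)).range hX

/-! ### The cycles -/

theorem poly_cycs_aux {k : α → ℕ} {R T : α → List ℕ} {E : α → List (ℕ × ℕ)} (hk : Poly k)
    (hR : Poly R) (hT : Poly T) (hE : Poly E) : Poly (fun a => (R a).map fun v =>
      [2 * v, 2 * v + 1] ++ (((T a).filter fun j => decide (((E a).getD j (0, 0)).1 = v)).flatMap
        (fun j => [2 * k a + 2 * j, 2 * k a + 2 * j + 1]) ++
      ((T a).filter fun j => decide (((E a).getD j (0, 0)).2 = v)).map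
        (fun j => 2 * k a + 2 * j))) := by
  fun_prop

theorem poly_cycs {k : α → ℕ} {E : α → List (ℕ × ℕ)} (hk : UPoly k) (hE : Poly E) :
    Poly (fun a => cycs (k a, E a)) :=
  poly_cycs_aux hk.toPoly hk.range (UPoly.length hE).range hE

theorem upoly_num {k : α → ℕ} {E : α → List (ℕ × ℕ)} (hk : UPoly k) (hE : Poly E) :
    UPoly (fun a => num (k a, E a)) := by
  unfold num
  exact UPoly.add (UPoly.mul (UPoly.const 2) hk) (UPoly.mul (UPoly.const 2) (UPoly.length hE))

/-! ### The graphs -/

/-- graphs with the number of vertices in unary -/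
abbrev UG := List Unit × List (ℕ × ℕ)

/-- the graph -/
def dg (g : UG) : Dag := (g.1.length, g.2)

/-- series composition -/
def serU (g1 g2 : UG) : UG :=
  (g1.1 ++ (() :: g2.1), (g1.2 ++ (List.range g1.1.length).map fun v => (v, g1.1.length)) ++
    (((List.range g2.1.length).map fun v => (g1.1.length, (g1.1.length + 1) + v)) ++
      g2.2.map fun e => ((g1.1.length + 1) + e.1, (g1.1.length + 1) + e.2)))

theorem dg_serU (g1 g2 : UG) : dg (serU g1 g2) = ser (dg g1) (dg g2) := by
  unfold dg serU ser shE
  rw [Prod.mk.injEq]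
  refine ⟨?_, rfl⟩
  simp only [List.length_append, List.length_cons]
  omega

/-- bipartite graphs -/
def bipU (t : Bip) : UG :=
  (t.1 ++ t.2.map (fun _ => ()), t.2.zipIdx.flatMap fun q => q.1.map fun i => (i, t.1.length + q.2))

theorem dg_bipU (t : Bip) : dg (bipU t) = bip t := by
  unfold dg bipU bip
  simp only [List.length_append, List.length_map]

@[fun_prop]
theorem poly_serU {g1 g2 : α → UG} (h1 : Poly g1) (h2 : Poly g2) :
    Poly (fun a => serU (g1 a) (g2 a)) := by
  unfold serU
  have h3 : Poly (fun a => List.range (g1 a).1.length) := (UPoly.length (by fun_prop)).range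
  have h4 : Poly (fun a => List.range (g2 a).1.length) := (UPoly.length (by fun_prop)).range
  fun_prop

@[fun_prop]
theorem poly_bipU {t : α → Bip} (h : Poly t) : Poly (fun a => bipU (t a)) := by
  unfold bipU
  fun_prop

/-- iterated series composition -/
def sersU (ts : List Bip) : UG := ts.foldr (fun t g => serU (bipU t) g) ([], [])

theorem dg_sersU : ∀ ts : List Bip, dg (sersU ts) = sers ts
  | [] => rfl
  | t :: ts => by
    have e : sersU (t :: ts) = serU (bipU t) (sersU ts) := rfl
    rw [e, dg_serU, dg_bipU, dg_sersU ts]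
    rfl

theorem sz_nat_le' (n : ℕ) : sz n ≤ 4 * n + 1 := by
  have h1 := sz_nat_le n
  have h2 := Poly.size_le_self n
  omega

theorem sz_ug_le {g : UG} (h : DagOK (dg g)) :
    sz g ≤ 2 * g.1.length + g.2.length * (8 * g.1.length + 4) + 3 := by
  have h1 : sz g.1 ≤ g.1.length * 2 + 1 :=
    sz_le_length_mul g.1 1 fun a _ => by simp
  have h2 : sz g.2 ≤ g.2.length * (8 * g.1.length + 3 + 1) + 1 := by
    refine sz_le_length_mul g.2 _ fun e he => ?_
    have h3 := h e he
    have h4 : e.2 < g.1.length := h3.2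
    have h5 := sz_nat_le' e.1
    have h6 := sz_nat_le' e.2
    have h7 : sz e = sz e.1 + sz e.2 + 1 := by
      conv_lhs => rw [← Prod.mk.eta (p := e)]
      rw [sz_pair]
    omega
  have h3 : sz g = sz g.1 + sz g.2 + 1 := by
    conv_lhs => rw [← Prod.mk.eta (p := g)]
    rw [sz_pair]
  have h4 : g.2.length * (8 * g.1.length + 3 + 1) = g.2.length * (8 * g.1.length + 4) := rfl
  omega

theorem zipIdx_flatMap_length (k : ℕ) : ∀ (Us : List (List ℕ)) (n : ℕ),
    ((Us.zipIdx n).flatMap fun q => q.1.map fun i => (i, k + q.2)).length ≤ sz Us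
  | [], n => by simp
  | U :: Us, n => by
    rw [List.zipIdx_cons, List.flatMap_cons, List.length_append, List.length_map, sz_list_cons]
    have h1 := zipIdx_flatMap_length k Us (n + 1)
    have h2 := length_lt_sz U
    dsimp only
    omega

theorem sersU_len : ∀ ts : List Bip, (sersU ts).1.length ≤ sz ts ∧
    (sersU ts).2.length ≤ 3 * sz ts ^ 2
  | [] => by simp [sersU]
  | t :: ts => by
    obtain ⟨h1, h2⟩ := sersU_len ts
    have e : sersU (t :: ts) = serU (bipU t) (sersU ts) := rfl
    have h3 : sz t = sz t.1 + sz t.2 + 1 := by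
      conv_lhs => rw [← Prod.mk.eta (p := t)]
      rw [sz_pair]
    have h4 := length_lt_sz t.1
    have h5 := length_lt_sz t.2
    have h6 : (bipU t).1.length = t.1.length + t.2.length := by simp [bipU]
    have h7 : (bipU t).2.length ≤ sz t.2 := zipIdx_flatMap_length _ _ _
    rw [e, sz_list_cons]
    constructor
    · unfold serU
      simp only [List.length_append, List.length_cons]
      omega
    · have h8 : (serU (bipU t) (sersU ts)).2.length =
          (bipU t).2.length + (bipU t).1.length + ((sersU ts).1.length +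
            (sersU ts).2.length) := by
        unfold serU
        simp only [List.length_append, List.length_map, List.length_range]
      rw [h8]
      have h9 : (bipU t).2.length + (bipU t).1.length ≤ 2 * sz t := by omega
      have h10 : 0 < sz t := sz_pos _
      have h11 : 0 < sz ts := sz_pos _
      nlinarith [h10, h11, h9, h1, h2, Nat.mul_le_mul h10 h11]

theorem poly_sersU {ts : α → List Bip} (h : Poly ts) (hok : ∀ a, ∀ t ∈ ts a, BipOK t) :
    Poly (fun a => sersU (ts a)) := by
  obtain ⟨r, hr⟩ := h.sz_le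
  refine Poly.foldr (l := ts) (s := fun _ => (([], []) : UG)) (F := fun _ t g => serU (bipU t) g)
    h (Poly.const _) (by fun_prop)
    (Polynomial.C 2 * r + Polynomial.C 3 * r ^ 2 * (Polynomial.C 8 * r + Polynomial.C 4) +
      Polynomial.C 3) fun a k hk => ?_
  have h1 := sersU_len ((ts a).drop k)
  have h2 : DagOK (dg (sersU ((ts a).drop k))) := by
    rw [dg_sersU]
    exact sers_ok fun t ht => hok a t (List.mem_of_mem_drop ht)
  have h3 := sz_ug_le h2
  have h4 := (Poly.sz_drop_le (ts a) k).trans (hr a)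
  simp only [Polynomial.eval_add, Polynomial.eval_mul, Polynomial.eval_C, Polynomial.eval_pow]
  set R := r.eval (sz a)
  change sz (sersU ((ts a).drop k)) ≤ _
  set g := sersU ((ts a).drop k)
  have h5 : g.1.length ≤ R := h1.1.trans h4
  have h6 : g.2.length ≤ 3 * R ^ 2 := h1.2.trans (Nat.mul_le_mul_left _ (Nat.pow_le_pow_left h4 2))
  have h7 : g.2.length * (8 * g.1.length + 4) ≤ 3 * R ^ 2 * (8 * R + 4) :=
    Nat.mul_le_mul h6 (by omega)
  omega

/-- the final graph -/
def finU (P Q : UG) (c : List Unit) : UG :=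
  (() :: () :: (P.1 ++ (Q.1 ++ c)),
    ((List.range P.1.length).map fun v => (0, 2 + v)) ++
    ((List.range Q.1.length).map fun v => (1, (2 + P.1.length) + v)) ++
    ((List.range c.length).map fun v => (0, (2 + P.1.length + Q.1.length) + v)) ++
    ((List.range c.length).map fun v => (1, (2 + P.1.length + Q.1.length) + v)) ++
    (P.2.map fun e => (2 + e.1, 2 + e.2)) ++
    Q.2.map fun e => ((2 + P.1.length) + e.1, (2 + P.1.length) + e.2))

theorem dg_finU (P Q : UG) (c : List Unit) : dg (finU P Q c) = fin (dg P) (dg Q) c.length := by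
  unfold dg finU fin shE
  rw [Prod.mk.injEq]
  refine ⟨?_, rfl⟩
  simp only [List.length_append, List.length_cons]
  omega

theorem poly_finU {P Q : α → UG} {c : α → List Unit} (hP : Poly P) (hQ : Poly Q) (hc : Poly c) :
    Poly (fun a => finU (P a) (Q a) (c a)) := by
  unfold finU
  have h3 : Poly (fun a => List.range (P a).1.length) := (UPoly.length (by fun_prop)).range
  have h4 : Poly (fun a => List.range (Q a).1.length) := (UPoly.length (by fun_prop)).range
  have h5 : Poly (fun a => List.range (c a).length) := (UPoly.length (by fun_prop)).range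
  fun_prop

/-! ### The lists of bipartite graphs -/

theorem poly_digs_aux {B : α → List Bool} {R : α → List ℕ} (hB : Poly B) (hR : Poly R) :
    Poly (fun a => ((R a).filter fun i => (B a).getD i false).map fun i =>
      ((B a).take i).map fun _ => ()) := by
  fun_prop

@[fun_prop]
theorem poly_digs {n : α → ℕ} (hn : Poly n) : Poly (fun a => digs (n a)) :=
  poly_digs_aux hn.natBits (UPoly.length hn.natBits).range

@[fun_prop]
theorem poly_part {row : α → List ℕ} (b : ℕ) (h : Poly row) : Poly (fun a => part b (row a)) := by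
  unfold part
  fun_prop

@[fun_prop]
theorem poly_terms {row : α → List ℕ} {lo r : α → List Unit} {Sg C : α → List (List ℕ)} (b : ℕ)
    (h1 : Poly row) (h2 : Poly lo) (h3 : Poly r) (h4 : Poly Sg) (h5 : Poly C) :
    Poly (fun a => terms b (row a) (lo a) (r a) (Sg a) (C a)) := by
  unfold terms ups
  fun_prop

theorem coefs_bound : ∀ cs : List ℕ, (coefs cs).length = cs.length + 1 ∧
    ∀ x ∈ coefs cs, x < 2 ^ sz cs
  | [] => by simp [coefs]
  | c :: cs => by
    obtain ⟨h1, h2⟩ := coefs_bound cs
    have e : coefs (c :: cs) = mulc c 0 (coefs cs) := rfl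
    rw [e]
    unfold mulc
    refine ⟨by simp [h1], fun x hx => ?_⟩
    rw [List.mem_map] at hx
    obtain ⟨q, hq, rfl⟩ := hx
    have g1 := (List.of_mem_zip (a := q.1) (b := q.2) hq).1
    have g2 := (List.of_mem_zip (a := q.1) (b := q.2) hq).2
    have h3 : q.1 < 2 ^ sz cs := by
      rw [List.mem_append, List.mem_singleton] at g1
      rcases g1 with g1 | g1
      · exact h2 _ g1
      · rw [g1]; positivity
    have h4 : q.2 < 2 ^ sz cs := by
      rw [List.mem_cons] at g2
      rcases g2 with g2 | g2
      · rw [g2]; positivity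
      · exact h2 _ g2
    have h5 := Nat.lt_size_self c
    have h6 := size_le_sz c
    rw [sz_list_cons]
    have h7 : 2 ^ (c.size + sz cs + 1) ≤ 2 ^ (sz c + sz cs + 1) :=
      Nat.pow_le_pow_right (by norm_num) (by omega)
    refine lt_of_lt_of_le ?_ h7
    have h8 : c * q.1 ≤ 2 ^ c.size * 2 ^ sz cs := Nat.mul_le_mul h5.le h3.le
    have h9 : 2 ^ (c.size + sz cs + 1) = 2 ^ c.size * 2 ^ sz cs + 2 ^ c.size * 2 ^ sz cs := by
      rw [pow_succ, pow_add]; ring
    have h10 : 1 * 2 ^ sz cs ≤ 2 ^ c.size * 2 ^ sz cs :=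
      Nat.mul_le_mul_right _ Nat.one_le_two_pow
    omega

@[fun_prop]
theorem poly_coefs {cs : α → List ℕ} (h : Poly cs) : Poly (fun a => coefs (cs a)) := by
  obtain ⟨r, hr⟩ := h.sz_le
  refine Poly.foldr (l := cs) (s := fun _ => [1]) (F := fun _ c row => mulc c 0 row)
    h (Poly.const _) (by unfold mulc; fun_prop)
    ((r + Polynomial.C 1) * (Polynomial.C 4 * r + Polynomial.C 2) + Polynomial.C 1)
    fun a k hk => ?_
  obtain ⟨h1, h2⟩ := coefs_bound ((cs a).drop k)
  have h4 := (Poly.sz_drop_le (cs a) k).trans (hr a)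
  simp only [Polynomial.eval_add, Polynomial.eval_mul, Polynomial.eval_C]
  set R := r.eval (sz a)
  have h5 : sz (coefs ((cs a).drop k)) ≤ (coefs ((cs a).drop k)).length * ((4 * R + 1) + 1) + 1 := by
    refine sz_le_length_mul _ _ fun x hx => ?_
    have h6 := Nat.size_le.2 (h2 x hx)
    have h7 := sz_nat_le x
    omega
  have h6 := length_lt_sz ((cs a).drop k)
  have h7 : (coefs ((cs a).drop k)).length ≤ R + 1 := by omega
  have h8 := Nat.mul_le_mul_right (4 * R + 2) h7
  change sz (coefs ((cs a).drop k)) ≤ _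
  have h9 : (4 * R + 1) + 1 = 4 * R + 2 := rfl
  rw [h9] at h5
  omega

theorem poly_pows {ι : Type} [TEnc ι] {C : α → List ι} (h : Poly C) :
    Poly (fun a => pows (C a)) := by
  unfold pows
  have h1 : Poly (fun a => List.range (C a).length) := (UPoly.length h).range
  refine Poly.map (F := fun a j => 2 ^ ((C a).take (j + 1)).length) h1 ?_
  refine Med.poly_two_pow (UPoly.length ?_)
  have h2 : Poly (fun p : α × ℕ => C p.1) := h.comp (Poly.fst Poly.id)
  exact poly_tk h2 (by fun_prop)

@[fun_prop]
theorem poly_occ {φ : α → CNF ℕ} (h : Poly φ) : Poly (fun a => occ (φ a)) := by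
  unfold occ
  fun_prop

@[fun_prop]
theorem poly_lowers {φ : α → CNF ℕ} (h : Poly φ) : Poly (fun a => lowers (φ a)) := by
  unfold lowers
  fun_prop

@[fun_prop]
theorem poly_index {l : α → List ℕ} {v : α → ℕ} (hl : Poly l) (hv : Poly v) :
    Poly (fun a => index (l a) (v a)) := Poly.index hl hv

theorem poly_constr_aux {φ : α → CNF ℕ} {R : α → List ℕ} (h : Poly φ) (hR : Poly R) :
    Poly (fun a => ((R a).flatMap fun i => ((R a).filter fun j =>
      decide ((occ (φ a)).getD i 0 = (occ (φ a)).getD j 0)).map fun j =>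
        [i, (occ (φ a)).length + j]) ++
      (φ a).map fun c => c.map fun l => if l.1 = true then (occ (φ a)).length +
        index (occ (φ a)) l.2 else index (occ (φ a)) l.2) := by
  fun_prop

@[fun_prop]
theorem poly_constr {φ : α → CNF ℕ} (h : Poly φ) : Poly (fun a => constr (φ a)) :=
  poly_constr_aux h (UPoly.length (poly_occ h)).range

@[fun_prop]
theorem poly_singles {φ : α → CNF ℕ} (h : Poly φ) : Poly (fun a => singles (φ a)) := by
  unfold singles
  have h1 : Poly (fun a => List.range ((occ (φ a)).length + (occ (φ a)).length)) :=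
    (UPoly.add (UPoly.length (by fun_prop)) (UPoly.length (by fun_prop))).range
  fun_prop

@[fun_prop]
theorem poly_rowOf {φ : α → CNF ℕ} (h : Poly φ) : Poly (fun a => rowOf (φ a)) := by
  unfold rowOf
  have h1 := poly_pows (poly_constr h)
  fun_prop

@[fun_prop]
theorem poly_rU {φ : α → CNF ℕ} (h : Poly φ) : Poly (fun a => rU (φ a)) := by
  unfold rU
  fun_prop

@[fun_prop]
theorem poly_dOf {φ : α → CNF ℕ} (h : Poly φ) : Poly (fun a => dOf (φ a)) := by
  unfold dOf
  fun_prop

@[fun_prop]
theorem poly_eList {φ : α → CNF ℕ} (h : Poly φ) : Poly (fun a => eList (φ a)) := by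
  unfold eList
  fun_prop

@[fun_prop]
theorem poly_thr {φ : α → CNF ℕ} {p : α → List Unit} (h : Poly φ) (hp : Poly p) :
    Poly (fun a => thr (φ a) (p a)) := by
  unfold thr
  have h1 : Poly (fun a => 2 ^ ((rU (φ a)).length * (occ (φ a)).length)) :=
    Med.poly_two_pow (UPoly.mul (UPoly.length (by fun_prop)) (UPoly.length (by fun_prop)))
  have h2 : Poly (fun a => 2 ^ (p a).length) := Med.poly_two_pow (UPoly.length hp)
  fun_prop

@[fun_prop]
theorem poly_oList {φ : α → CNF ℕ} {p : α → List Unit} (h : Poly φ) (hp : Poly p) :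
    Poly (fun a => oList (φ a) (p a)) := by
  unfold oList
  fun_prop

/-- the final graph with its number of vertices in unary -/
noncomputable def gU (φ : CNF ℕ) (p c : List Unit) : UG :=
  finU (sersU (eList φ)) (sersU (oList φ p)) c

theorem dg_gU (φ : CNF ℕ) (p c : List Unit) : dg (gU φ p c) = gOf φ p c.length := by
  unfold gU gOf
  rw [dg_finU, dg_sersU, dg_sersU]

theorem poly_gU {φ : α → CNF ℕ} {p c : α → List Unit} (h : Poly φ) (hp : Poly p) (hc : Poly c) :
    Poly (fun a => gU (φ a) (p a) (c a)) :=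
  poly_finU (poly_sersU (by fun_prop) fun a => eList_ok (φ a))
    (poly_sersU (by fun_prop) fun a => oList_ok (φ a) (p a)) hc

/-- the input of the stable marriage problem -/
noncomputable def outG (G : Dag) : Inst × List ℕ :=
  (inst (num G) (cycs G), (List.range (num G)).map fun m => ((cycs G).take 1).foldr nx m)

theorem poly_outG_aux {R : α → List ℕ} {Xs : α → List (List ℕ)} (hR : Poly R) (hX : Poly Xs) :
    Poly (fun a => (R a).map fun m => ((Xs a).take 1).foldr nx m) := by
  fun_prop

theorem poly_outG {g : α → UG} (hg : Poly g) : Poly (fun a => outG (dg (g a))) := by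
  unfold outG dg
  have h0 : Poly (fun a => (g a).1) := by fun_prop
  have h0' : Poly (fun a => (g a).2) := by fun_prop
  have h1 : Poly (fun a => cycs ((g a).1.length, (g a).2)) := poly_cycs (UPoly.length h0) h0'
  have h2 : UPoly (fun a => num ((g a).1.length, (g a).2)) := upoly_num (UPoly.length h0) h0'
  have h3 : Poly (fun a => List.range (num ((g a).1.length, (g a).2))) := h2.range
  exact Poly.pair (poly_inst h2 h1) (poly_outG_aux h3 h1)

theorem poly_out {φ : α → CNF ℕ} {p c : α → List Unit} (h : Poly φ) (hp : Poly p) (hc : Poly c) :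
    Poly (fun a => outG (gOf (φ a) (p a) (c a).length)) :=
  (poly_outG (poly_gU h hp hc)).congr fun a => by rw [dg_gU]

end Pool.Agent.NPC.G276
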