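import Pool.Agent.H276R3.SatC

/-!
# The comparison of a number of satisfying assignments with a power of two
-/

namespace Pool.Agent.H276R3

open Pool.Agent.NPC Pool.Agent.NPC.Cnt

/-- the powers `2 ^ 1, …, 2 ^ n`, where `n` is the length of the list -/
def pows {ι : Type} (C : List ι) : List ℕ :=
  (List.range C.length).map fun j => 2 ^ (C.take (j + 1)).length

theorem mem_pows {ι : Type} {C : List ι} {x : ℕ} :
    x ∈ pows C ↔ ∃ t, 1 ≤ t ∧ t ≤ C.length ∧ x = 2 ^ t := by
  unfold pows
  rw [List.mem_map]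
  constructor
  · rintro ⟨j, hj, rfl⟩
    rw [List.mem_range] at hj
    refine ⟨j + 1, by omega, hj, ?_⟩
    rw [List.length_take, min_eq_left (by omega)]
  · rintro ⟨t, h1, h2, rfl⟩
    refine ⟨t - 1, by rw [List.mem_range]; omega, ?_⟩
    rw [List.length_take, min_eq_left (by omega)]
    congr 1
    omega

/-- the coefficients -/
noncomputable def rowOf (φ : CNF ℕ) : List ℕ := coefs (pows (constr φ))

/-- the number of copies of the singletons, in unary -/
def rU (φ : CNF ℕ) : List Unit := lowers φ ++ [(), ()]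

theorem rU_length (φ : CNF ℕ) : (rU φ).length = (occ φ).length + (occ φ).length + 2 := by
  simp [rU, lowers_length]

/-- difference of the two parts -/
noncomputable def dOf (φ : CNF ℕ) : ℕ :=
  ((part 0 (rowOf φ)).map fun q : ℕ × ℕ => q.1).sum -
    ((part 1 (rowOf φ)).map fun q : ℕ × ℕ => q.1).sum

theorem dOf_eq (φ : CNF ℕ) : dOf φ = dif (pows (constr φ)) := by
  unfold dOf dif
  have h := part_sum 1 (rowOf φ)
  simp only [one_pow, mul_one] at h
  rw [h.1, h.2]
  rfl

/-- the graphs of the first side -/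
noncomputable def eList (φ : CNF ℕ) : List Bip :=
  terms 0 (rowOf φ) (lowers φ) (rU φ) (singles φ) (constr φ) ++ [([], [])]

/-- the threshold -/
noncomputable def thr (φ : CNF ℕ) (p : List Unit) : ℕ :=
  dOf φ * (2 ^ ((rU φ).length * (occ φ).length) * (2 ^ p.length + 1))

/-- the graphs of the second side -/
noncomputable def oList (φ : CNF ℕ) (p : List Unit) : List Bip :=
  terms 1 (rowOf φ) (lowers φ) (rU φ) (singles φ) (constr φ) ++
    (digs (thr φ p)).map fun u => (u, [])

theorem eList_ok (φ : CNF ℕ) : ∀ t ∈ eList φ, BipOK t := by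
  intro t ht
  unfold eList at ht
  rw [List.mem_append] at ht
  rcases ht with ht | ht
  · exact terms_ok (singles_ok φ) (constr_ok φ) t ht
  · rw [List.mem_singleton] at ht
    subst ht
    intro U hU
    simp at hU

theorem oList_ok (φ : CNF ℕ) (p : List Unit) : ∀ t ∈ oList φ p, BipOK t := by
  intro t ht
  unfold oList at ht
  rw [List.mem_append] at ht
  rcases ht with ht | ht
  · exact terms_ok (singles_ok φ) (constr_ok φ) t ht
  · rw [List.mem_map] at ht
    obtain ⟨u, _, rfl⟩ := ht
    intro U hU
    simp at hU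

theorem eList_sum (φ : CNF ℕ) : ((eList φ).map idb).sum =
    bsum ((occ φ).length + (occ φ).length) (fun A => 2 * 2 ^ ((rU φ).length * A.count true) *
      (evs (2 ^ (constr φ).countP (sub A)) (rowOf φ)).1) + 1 := by
  unfold eList
  rw [List.map_append, List.sum_append, terms_sum (singles_ok φ) (constr_ok φ), lowers_length]
  congr 1
  refine bsum_congr fun A hA => ?_
  rw [(part_sum _ _).1]
  unfold singles
  rw [countP_singles _ hA]

theorem oList_sum (φ : CNF ℕ) (p : List Unit) : ((oList φ p).map idb).sum =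
    bsum ((occ φ).length + (occ φ).length) (fun A => 2 * 2 ^ ((rU φ).length * A.count true) *
      (evs (2 ^ (constr φ).countP (sub A)) (rowOf φ)).2) + thr φ p := by
  unfold oList
  rw [List.map_append, List.sum_append, terms_sum (singles_ok φ) (constr_ok φ), lowers_length]
  congr 1
  · refine bsum_congr fun A hA => ?_
    rw [(part_sum _ _).2]
    unfold singles
    rw [countP_singles _ hA]
  · rw [List.map_map]
    have : (idb ∘ fun u : List Unit => (u, [])) = fun u => 2 ^ u.length := by
      funext u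
      exact idb_unary u
    rw [this, digs_sum]

open Classical in
theorem evs_split (φ : CNF ℕ) (A : List Bool) :
    (evs (2 ^ (constr φ).countP (sub A)) (rowOf φ)).1 =
      (evs (2 ^ (constr φ).countP (sub A)) (rowOf φ)).2 + dOf φ * (decide (good φ A)).toNat := by
  rw [dOf_eq]
  by_cases h : good φ A
  · have h0 : (constr φ).countP (sub A) = 0 := h
    rw [h0, pow_zero]
    simp only [h, decide_true, Bool.toNat_true, mul_one]
    refine (evs_coefs_one fun c hc => ?_).1
    obtain ⟨t, h1, _, rfl⟩ := mem_pows.1 hc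
    exact le_self_pow₀ (a := 2) (by norm_num) (by omega)
  · have h0 : (constr φ).countP (sub A) ≠ 0 := h
    simp only [h, decide_false, Bool.toNat_false, mul_zero, add_zero]
    refine evs_coefs_zero (mem_pows.2 ⟨_, by omega, ?_, rfl⟩)
    exact List.countP_le_length

/-- The comparison. -/
theorem cmp_iff (φ : CNF ℕ) (p : List Unit) :
    ((oList φ p).map idb).sum < ((eList φ).map idb).sum ↔ 2 ^ p.length < 2 * satCount φ := by
  classical
  obtain ⟨low, h1, h2⟩ := weighted (φ := φ) (rU_length φ)
  rw [eList_sum, oList_sum]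
  have h3 : bsum ((occ φ).length + (occ φ).length) (fun A =>
      2 * 2 ^ ((rU φ).length * A.count true) *
        (evs (2 ^ (constr φ).countP (sub A)) (rowOf φ)).1) =
      bsum ((occ φ).length + (occ φ).length) (fun A => 2 * 2 ^ ((rU φ).length * A.count true) *
        (evs (2 ^ (constr φ).countP (sub A)) (rowOf φ)).2) +
      2 * dOf φ * (2 ^ ((rU φ).length * (occ φ).length) * satCount φ + low) := by
    rw [← h1, ← bsum_mul_left, ← bsum_add]
    refine bsum_congr fun A _ => ?_
    rw [evs_split φ A]
    ring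
  rw [h3]
  have hD : 0 < dOf φ := by
    rw [dOf_eq]
    refine (evs_coefs_one fun c hc => ?_).2
    obtain ⟨t, h1, _, rfl⟩ := mem_pows.1 hc
    exact le_self_pow₀ (a := 2) (by norm_num) (by omega)
  unfold thr
  set X := bsum ((occ φ).length + (occ φ).length) (fun A =>
    2 * 2 ^ ((rU φ).length * A.count true) * (evs (2 ^ (constr φ).countP (sub A)) (rowOf φ)).2)
  set D := dOf φ
  set P := 2 ^ ((rU φ).length * (occ φ).length)
  set T := 2 ^ p.length
  set s := satCount φ
  have e1 : X + D * (P * (T + 1)) < X + 2 * D * (P * s + low) + 1 ↔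
      D * (P * (T + 1)) ≤ D * (2 * (P * s + low)) := by
    have : 2 * D * (P * s + low) = D * (2 * (P * s + low)) := by ring
    rw [this]
    omega
  rw [e1, Nat.mul_le_mul_left_iff hD]
  constructor
  · intro h
    by_contra hcon
    have h4 : 2 * s ≤ T := by omega
    have h5 : P * (2 * s) ≤ P * T := Nat.mul_le_mul_left _ h4
    have h6 : P * (T + 1) = P * T + P := by ring
    have h7 : 2 * (P * s + low) = P * (2 * s) + 2 * low := by ring
    omega
  · intro h
    have h5 : P * (T + 1) ≤ P * (2 * s) := Nat.mul_le_mul_left _ h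
    have h7 : 2 * (P * s + low) = P * (2 * s) + 2 * low := by ring
    omega

/-- the final graph -/
noncomputable def gOf (φ : CNF ℕ) (p : List Unit) (c : ℕ) : Dag :=
  fin (sers (eList φ)) (sers (oList φ p)) c

theorem gOf_ok (φ : CNF ℕ) (p : List Unit) (c : ℕ) : DagOK (gOf φ p c) :=
  fin_ok (sers_ok (eList_ok φ)) (sers_ok (oList_ok φ p))

theorem gOf_iff (φ : CNF ℕ) (p : List Unit) (c : ℕ) :
    nbar (gOf φ p c) 0 < nbar (gOf φ p c) 1 ↔ 2 ^ p.length < 2 * satCount φ := by
  obtain ⟨h1, h2⟩ := nbar_fin (c := c) (sers_ok (eList_ok φ)) (sers_ok (oList_ok φ p))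
  unfold gOf
  rw [h1, h2, idc_sers (eList_ok φ), idc_sers (oList_ok φ p), ← cmp_iff φ p]
  omega

/-- The criterion for the stable marriage instance of the formula. -/
theorem gOf_crit (φ : CNF ℕ) (p : List Unit) (c : ℕ) :
    ∃ M : Equiv.Perm (Fin (num (gOf φ p c))),
      IsSM (num (gOf φ p c)) (inst (num (gOf φ p c)) (cycs (gOf φ p c))) ∧
      code M = (List.range (num (gOf φ p c))).map
        (fun m => ((cycs (gOf φ p c)).take 1).foldr nx m) ∧
      Stable (num (gOf φ p c)) (inst (num (gOf φ p c)) (cycs (gOf φ p c))) M ∧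
      (∀ j, IsAlpha (num (gOf φ p c)) (inst (num (gOf φ p c)) (cycs (gOf φ p c))) j M →
        2 ^ p.length < 2 * satCount φ) ∧
      (2 ^ p.length < 2 * satCount φ →
        IsAlpha (num (gOf φ p c)) (inst (num (gOf φ p c)) (cycs (gOf φ p c)))
          (nbar (gOf φ p c) 0 + 1) M) := by
  obtain ⟨M, h1, h2, h3, h4, h5⟩ := dag_crit (gOf_ok φ p c)
    (by
      have : (gOf φ p c).1 = 1 + (1 + ((sers (eList φ)).1 + ((sers (oList φ p)).1 + c))) := rfl
      omega)
    (fin_sep (sers_ok (eList_ok φ)) (sers_ok (oList_ok φ p)))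
  refine ⟨M, h1, h2, h3, fun j hj => ?_, fun h => h5 ((gOf_iff φ p c).2 h)⟩
  rw [← gOf_iff φ p c]
  have := h4 j hj
  omega

end Pool.Agent.H276R3
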