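import Pool.Agent.H276R3.Coef
import Pool.Agent.H527R2.GenPoly
import Pool.Agent.NPC.Sat

/-!
# The number of satisfying assignments and bipartite graphs
-/

namespace Pool.Agent.H276R3

open Pool.Agent.NPC Pool.Agent.NPC.Cnt

/-- the occurrences of the variables -/
def occ (φ : CNF ℕ) : List ℕ := φ.flatten.map Prod.snd

/-- the lower vertices, in unary -/
def lowers (φ : CNF ℕ) : List Unit := (occ φ ++ occ φ).map fun _ => ()

/-- the constraints -/
noncomputable def constr (φ : CNF ℕ) : List (List ℕ) :=
  ((List.range (occ φ).length).flatMap fun i =>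
    ((List.range (occ φ).length).filter fun j =>
      decide ((occ φ).getD i 0 = (occ φ).getD j 0)).map fun j => [i, (occ φ).length + j]) ++
  φ.map fun c => c.map fun l => if l.1 = true then (occ φ).length + index (occ φ) l.2
    else index (occ φ) l.2

/-- the singletons -/
def singles (φ : CNF ℕ) : List (List ℕ) :=
  (List.range ((occ φ).length + (occ φ).length)).map fun i => [i]

theorem lowers_length (φ : CNF ℕ) : (lowers φ).length = (occ φ).length + (occ φ).length := by
  simp [lowers]

theorem mem_occ {φ : CNF ℕ} {v : ℕ} : v ∈ occ φ ↔ ∃ c ∈ φ, ∃ b, (b, v) ∈ c := by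
  simp only [occ, List.mem_map, List.mem_flatten, Prod.exists, exists_eq_right]
  constructor
  · rintro ⟨b, c, hc, h⟩
    exact ⟨c, hc, b, h⟩
  · rintro ⟨c, hc, b, h⟩
    exact ⟨b, c, hc, h⟩

theorem index_occ {φ : CNF ℕ} {v : ℕ} (h : v ∈ occ φ) :
    index (occ φ) v < (occ φ).length ∧ (occ φ).getD (index (occ φ) v) 0 = v := by
  have h1 := getElem?_index h
  have h2 : index (occ φ) v < (occ φ).length := by
    by_contra h3
    rw [List.getElem?_eq_none (by omega)] at h1
    simp at h1
  refine ⟨h2, ?_⟩
  rw [List.getD_eq_getElem?_getD, h1]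
  rfl

theorem singles_ok (φ : CNF ℕ) : BipOK (lowers φ, singles φ) := by
  intro U hU i hi
  unfold singles at hU
  simp only [List.mem_map, List.mem_range] at hU
  obtain ⟨j, hj, rfl⟩ := hU
  rw [List.mem_singleton] at hi
  rw [lowers_length, hi]
  exact hj

theorem constr_ok (φ : CNF ℕ) : BipOK (lowers φ, constr φ) := by
  intro U hU i hi
  simp only
  rw [lowers_length]
  unfold constr at hU
  simp only [List.mem_append, List.mem_flatMap, List.mem_map, List.mem_filter,
    List.mem_range] at hU
  rcases hU with ⟨a, ha, b, ⟨hb, _⟩, rfl⟩ | ⟨c, hc, rfl⟩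
  · simp only [List.mem_cons, List.not_mem_nil, or_false] at hi
    omega
  · rw [List.mem_map] at hi
    obtain ⟨l, hl, rfl⟩ := hi
    have := (index_occ (mem_occ.2 ⟨c, hc, l.1, hl⟩)).1
    split_ifs <;> omega

/-- no constraint is violated -/
def good (φ : CNF ℕ) (A : List Bool) : Prop := (constr φ).countP (sub A) = 0

theorem good_iff {φ : CNF ℕ} {u v : List Bool} (hu : u.length = (occ φ).length)  :
    good φ (u ++ v) ↔ (∀ i j, i < (occ φ).length → j < (occ φ).length →
      (occ φ).getD i 0 = (occ φ).getD j 0 → u.getD i false = true → v.getD j false = true → False) ∧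
      ∀ c ∈ φ, ∃ l ∈ c, (if l.1 = true then v.getD (index (occ φ) l.2) false
        else u.getD (index (occ φ) l.2) false) = false := by
  unfold good
  rw [List.countP_eq_zero]
  constructor
  · intro h
    constructor
    · intro i j hi hj hij h1 h2
      refine h [i, (occ φ).length + j] ?_ ?_
      · unfold constr
        simp only [List.mem_append, List.mem_flatMap, List.mem_map, List.mem_filter,
          List.mem_range]
        exact Or.inl ⟨i, hi, j, ⟨hj, by simpa using hij⟩, rfl⟩
      · unfold sub
        simp only [List.all_cons, List.all_nil, Bool.and_true, Bool.and_eq_true]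
        rw [getD_app_left (by omega), getD_app_right hu]
        exact ⟨h1, h2⟩
    · intro c hc
      by_contra hcon
      push Not at hcon
      refine h (c.map fun l => if l.1 = true then (occ φ).length + index (occ φ) l.2
        else index (occ φ) l.2) ?_ ?_
      · unfold constr
        rw [List.mem_append, List.mem_map]
        exact Or.inr ⟨c, hc, rfl⟩
      · unfold sub
        rw [List.all_map, List.all_eq_true]
        intro l hl
        have h1 := hcon l hl
        have h2 := (index_occ (mem_occ.2 ⟨c, hc, l.1, hl⟩)).1
        simp only [Function.comp]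
        by_cases h3 : l.1 = true
        · rw [if_pos h3] at h1 ⊢
          rw [getD_app_right hu]
          simpa using h1
        · rw [if_neg h3] at h1 ⊢
          rw [getD_app_left (by omega)]
          simpa using h1
  · rintro ⟨h1, h2⟩ U hU hs
    unfold constr at hU
    simp only [List.mem_append, List.mem_flatMap, List.mem_map, List.mem_filter,
      List.mem_range] at hU
    unfold sub at hs
    rcases hU with ⟨a, ha, b, ⟨hb, hab⟩, rfl⟩ | ⟨c, hc, rfl⟩
    · simp only [List.all_cons, List.all_nil, Bool.and_true, Bool.and_eq_true] at hs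
      rw [getD_app_left (by omega), getD_app_right hu] at hs
      exact h1 a b ha hb (by simpa using hab) hs.1 hs.2
    · obtain ⟨l, hl, h3⟩ := h2 c hc
      rw [List.all_map, List.all_eq_true] at hs
      have h4 := hs l hl
      have h5 := (index_occ (mem_occ.2 ⟨c, hc, l.1, hl⟩)).1
      simp only [Function.comp] at h4
      by_cases h6 : l.1 = true
      · rw [if_pos h6] at h3 h4
        rw [getD_app_right hu, h3] at h4
        exact Bool.noConfusion h4
      · rw [if_neg h6] at h3 h4
        rw [getD_app_left (by omega), h3] at h4
        exact Bool.noConfusion h4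

theorem countP_singles {A : List Bool} : ∀ (n : ℕ), A.length = n →
    ((List.range n).map fun i => [i]).countP (sub A) = A.count true := by
  intro n hn
  subst hn
  rw [List.countP_map]
  have h1 : ((sub A) ∘ fun i => [i]) = fun i => A.getD i false := by
    funext i
    simp [sub]
  rw [h1]
  have h2 : A = (List.range A.length).map fun i => A.getD i false := by
    refine List.ext_getElem (by simp) fun i h3 h4 => ?_
    rw [List.getElem_map, List.getElem_range, List.getD_eq_getElem _ _ h3]
  conv_rhs => rw [h2, List.count, List.countP_map]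
  refine List.countP_congr fun i _ => ?_
  simp [Function.comp]

theorem wt_disj : ∀ (u v : List Bool), u.length = v.length →
    (∀ i, u.getD i false = true → v.getD i false = true → False) →
    u.count true + v.count true ≤ u.length ∧
      (u.count true + v.count true = u.length → v = u.map fun b => !b)
  | [], [], _, _ => by simp
  | [], b :: v, h, _ => by simp at h
  | a :: u, [], h, _ => by simp at h
  | a :: u, b :: v, h, hd => by
    have ih := wt_disj u v (by simpa using h) fun i h1 h2 => hd (i + 1) (by simpa using h1)
      (by simpa using h2)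
    have h0 := hd 0
    simp only [List.getD_cons_zero] at h0
    have hl : u.length = v.length := by simpa using h
    clear h hd
    rw [List.count_cons, List.count_cons, List.length_cons, List.map_cons, List.cons.injEq]
    obtain ⟨ih1, ih2⟩ := ih
    cases a <;> cases b
    · simp only [beq_iff_eq, Bool.false_eq_true, if_false, add_zero, Bool.not_false,
        Bool.false_eq_true, false_and]
      exact ⟨by omega, fun h => by omega⟩
    · simp only [beq_iff_eq, Bool.false_eq_true, if_false, add_zero, Bool.not_false, true_and,
        beq_self_eq_true, if_true]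
      exact ⟨by omega, fun h => ih2 (by omega)⟩
    · simp only [beq_iff_eq, Bool.false_eq_true, if_false, add_zero, Bool.not_true, true_and,
        beq_self_eq_true, if_true]
      exact ⟨by omega, fun h => ih2 (by omega)⟩
    · exact absurd (h0 rfl rfl) not_false

theorem wt_compl : ∀ (u : List Bool), u.count true + (u.map fun b => !b).count true = u.length
  | [] => rfl
  | a :: u => by
    have ih := wt_compl u
    rw [List.map_cons, List.count_cons, List.count_cons, List.length_cons]
    cases a <;> simp <;> omega

/-- the string of an assignment -/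
def strOf (φ : CNF ℕ) (S : Finset ℕ) : List Bool :=
  ((occ φ).map fun v => decide (v ∈ S)) ++ ((occ φ).map fun v => decide (v ∈ S)).map fun b => !b

theorem strOf_length (φ : CNF ℕ) (S : Finset ℕ) :
    (strOf φ S).length = (occ φ).length + (occ φ).length := by simp [strOf]

theorem getD_map_mem {φ : CNF ℕ} {S : Finset ℕ} {i : ℕ} (hi : i < (occ φ).length) :
    ((occ φ).map fun v => decide (v ∈ S)).getD i false = decide ((occ φ).getD i 0 ∈ S) := by
  rw [List.getD_eq_getElem _ _ (by simpa using hi), List.getElem_map, List.getD_eq_getElem _ _ hi]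

theorem getD_map_nmem {φ : CNF ℕ} {S : Finset ℕ} {i : ℕ} (hi : i < (occ φ).length) :
    (((occ φ).map fun v => decide (v ∈ S)).map fun b => !b).getD i false =
      !decide ((occ φ).getD i 0 ∈ S) := by
  rw [List.getD_eq_getElem _ _ (by simpa using hi), List.getElem_map, List.getElem_map,
    List.getD_eq_getElem _ _ hi]

theorem mem_vars_iff {φ : CNF ℕ} {v : ℕ} : v ∈ vars φ ↔ v ∈ occ φ := by
  rw [mem_vars, mem_occ]

theorem strOf_good {φ : CNF ℕ} {S : Finset ℕ} (h : SatBy S φ) :
    good φ (strOf φ S) ∧ (strOf φ S).count true = (occ φ).length := by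
  constructor
  · unfold strOf
    rw [good_iff (by simp)]
    constructor
    · intro i j hi hj hij h1 h2
      rw [getD_map_mem hi] at h1
      rw [getD_map_nmem hj, ← hij, h1] at h2
      exact Bool.noConfusion h2
    · intro c hc
      obtain ⟨l, hl, h1⟩ := h c hc
      refine ⟨l, hl, ?_⟩
      obtain ⟨h2, h3⟩ := index_occ (mem_occ.2 ⟨c, hc, l.1, hl⟩)
      rw [getD_map_mem h2, getD_map_nmem h2, h3, ← h1]
      cases l.1 <;> rfl
  · unfold strOf
    rw [List.count_append, wt_compl]
    simp

theorem good_strOf {φ : CNF ℕ} {A : List Bool} (h1 : A.length = (occ φ).length + (occ φ).length)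
    (h2 : good φ A) : A.count true ≤ (occ φ).length ∧ (A.count true = (occ φ).length →
      ∃ S ⊆ vars φ, SatBy S φ ∧ A = strOf φ S) := by
  set k := (occ φ).length with hk
  have hA : A = A.take k ++ A.drop k := (List.take_append_drop k A).symm
  have hu : (A.take k).length = k := by rw [List.length_take]; omega
  have hv : (A.drop k).length = k := by rw [List.length_drop]; omega
  rw [hA, good_iff hu] at h2
  obtain ⟨h3, h4⟩ := h2
  have h5 := wt_disj (A.take k) (A.drop k) (by omega) fun i g1 g2 => by
    by_cases hi : i < k
    · exact h3 i i hi hi rfl g1 g2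
    · rw [List.getD_eq_default _ _ (by omega)] at g1
      exact Bool.noConfusion g1
  have hc : A.count true = (A.take k).count true + (A.drop k).count true := by
    conv_lhs => rw [hA]
    rw [List.count_append]
  rw [hc]
  refine ⟨h5.1.trans hu.le, fun h6 => ?_⟩
  have h7 := h5.2 (by omega)
  set u := A.take k with hudef
  set v := A.drop k with hvdef
  set S : Finset ℕ := (vars φ).filter fun x => u.getD (index (occ φ) x) false = true with hS
  have huv : ∀ i, i < k → v.getD i false = !u.getD i false := by
    intro i hi
    rw [h7, List.getD_eq_getElem _ _ (by simpa [hu] using hi), List.getElem_map,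
      List.getD_eq_getElem _ _ (by omega)]
  have hmem : ∀ i, i < k → (u.getD i false = true ↔ (occ φ).getD i 0 ∈ S) := by
    intro i hi
    have hx : (occ φ).getD i 0 ∈ occ φ := by
      rw [List.getD_eq_getElem _ _ hi]
      exact List.getElem_mem _
    obtain ⟨g1, g2⟩ := index_occ hx
    rw [hS, Finset.mem_filter, mem_vars_iff]
    constructor
    · intro g
      refine ⟨hx, ?_⟩
      by_contra g3
      refine h3 i _ hi g1 g2.symm g ?_
      rw [huv _ g1]
      simpa using g3
    · rintro ⟨_, g⟩
      by_contra g3
      refine h3 _ i g1 hi g2 g ?_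
      rw [huv _ hi]
      simpa using g3
  have hueq : u = (occ φ).map fun x => decide (x ∈ S) := by
    refine List.ext_getElem (by rw [hu, List.length_map]) fun i g1 g2 => ?_
    have g3 : i < k := by omega
    have g4 := hmem i g3
    rw [List.getD_eq_getElem _ _ g1, List.getD_eq_getElem _ _ g3] at g4
    rw [List.getElem_map, Bool.eq_iff_iff, g4, decide_eq_true_iff]
  refine ⟨S, Finset.filter_subset _ _, ?_, ?_⟩
  · intro c hc'
    obtain ⟨l, hl, g⟩ := h4 c hc'
    refine ⟨l, hl, ?_⟩
    obtain ⟨g1, g2⟩ := index_occ (mem_occ.2 ⟨c, hc', l.1, hl⟩)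
    have g3 := hmem _ g1
    rw [g2] at g3
    rw [huv _ g1] at g
    cases hl1 : l.1
    · rw [hl1] at g
      simp only [Bool.false_eq_true, if_false] at g
      symm
      rw [decide_eq_false_iff_not, ← g3, g]
      simp
    · rw [hl1] at g
      simp only [if_true, Bool.not_eq_false'] at g
      symm
      rw [decide_eq_true_iff, ← g3, g]
  · rw [hA]
    unfold strOf
    rw [← hueq, h7]

open Classical in
/-- the number of the assignments with a given weight -/
theorem card_good (φ : CNF ℕ) : bsum ((occ φ).length + (occ φ).length) (fun A =>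
    (decide (good φ A ∧ A.count true = (occ φ).length)).toNat) = satCount φ := by
  rw [bsum_eq_card]
  unfold satCount
  rw [← Nat.card_eq_finsetCard]
  symm
  refine Nat.card_congr (Equiv.ofBijective (fun S => ⟨strOf φ S.1, strOf_length φ S.1, ?_⟩) ⟨?_, ?_⟩)
  · have := S.2
    rw [Finset.mem_filter] at this
    exact decide_eq_true (strOf_good this.2)
  · rintro ⟨S, hS⟩ ⟨T, hT⟩ h
    rw [Finset.mem_filter, Finset.mem_powerset] at hS hT
    simp only [Subtype.mk.injEq] at h ⊢
    unfold strOf at h
    have h1 := List.append_inj_left h (by simp)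
    ext x
    have key : ∀ x, x ∈ occ φ → (x ∈ S ↔ x ∈ T) := by
      intro x hx
      have := List.map_inj_left.1 h1 x hx
      simpa using this
    constructor
    · intro hx
      exact (key x (mem_vars_iff.1 (hS.1 hx))).1 hx
    · intro hx
      exact (key x (mem_vars_iff.1 (hT.1 hx))).2 hx
  · rintro ⟨A, h1, h2⟩
    obtain ⟨h3, h4⟩ := of_decide_eq_true h2
    obtain ⟨S, hS, h5, h6⟩ := (good_strOf h1 h3).2 h4
    exact ⟨⟨S, by rw [Finset.mem_filter, Finset.mem_powerset]; exact ⟨hS, h5⟩⟩,
      Subtype.ext h6.symm⟩

open Classical in
/-- the weighted number of the sets which violate no constraint -/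
theorem weighted {φ : CNF ℕ} {r : ℕ} (hr : r = (occ φ).length + (occ φ).length + 2) :
    ∃ low, bsum ((occ φ).length + (occ φ).length) (fun A =>
      2 ^ (r * A.count true) * (decide (good φ A)).toNat) =
        2 ^ (r * (occ φ).length) * satCount φ + low ∧ 2 * low < 2 ^ (r * (occ φ).length) := by
  set k := (occ φ).length with hk
  refine ⟨bsum (k + k) (fun A => 2 ^ (r * A.count true) *
    (decide (good φ A ∧ ¬ A.count true = k)).toNat), ?_, ?_⟩
  · rw [← card_good, ← hk, ← bsum_mul_left, ← bsum_add]
    refine bsum_congr fun A _ => ?_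
    by_cases h1 : good φ A
    · by_cases h2 : A.count true = k
      · simp [h1, h2]
      · simp [h1, h2]
    · simp [h1]
  · have h1 : 2 ^ r * bsum (k + k) (fun A => 2 ^ (r * A.count true) *
        (decide (good φ A ∧ ¬ A.count true = k)).toNat) ≤ bsum (k + k) (fun _ => 2 ^ (r * k)) := by
      rw [← bsum_mul_left]
      refine bsum_le fun A hA => ?_
      by_cases h1 : good φ A ∧ ¬ A.count true = k
      · have h2 := (good_strOf hA h1.1).1
        have h3 : A.count true + 1 ≤ k := by
          have := h1.2
          omega
        simp only [h1, not_false_eq_true, and_self, decide_true, Bool.toNat_true, mul_one]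
        rw [← pow_add]
        refine Nat.pow_le_pow_right (by norm_num) ?_
        calc r + r * A.count true = r * (A.count true + 1) := by ring
          _ ≤ r * k := Nat.mul_le_mul_left _ h3
      · simp [h1]
    rw [bsum_const] at h1
    set low := bsum (k + k) (fun A => 2 ^ (r * A.count true) *
        (decide (good φ A ∧ ¬ A.count true = k)).toNat) with hlow
    have h2 : 2 ^ r = 2 ^ (k + k) * 4 := by rw [hr, pow_add]; norm_num
    rw [h2, mul_assoc] at h1
    have h3 : 4 * low ≤ 2 ^ (r * k) := Nat.le_of_mul_le_mul_left h1 (by positivity)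
    have h4 : 0 < 2 ^ (r * k) := by positivity
    omega

end Pool.Agent.H276R3
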