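import Pool.Agent.H276R3.Crit
import Pool.Agent.NPC.Sat

/-!
# The instance of a list of cycles
-/

namespace Pool.Agent.H276R3

open Equiv Pool.Agent.NPC

/-- the successor of `m` in the cycle `l` -/
noncomputable def nx (l : List ℕ) (m : ℕ) : ℕ :=
  if m ∈ l then l.getD ((index l m + 1) % l.length) 0 else m

theorem index_getElem {l : List ℕ} (hl : l.Nodup) {i : ℕ} (hi : i < l.length) :
    index l l[i] = i := by
  have h := getElem?_index (l := l) (v := l[i]) (List.getElem_mem hi)
  rw [List.getElem?_eq_some_iff] at h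
  obtain ⟨h1, h2⟩ := h
  exact (List.Nodup.getElem_inj_iff hl).1 h2

theorem nx_getElem {l : List ℕ} (hl : l.Nodup) {i : ℕ} (hi : i < l.length) :
    nx l l[i] = l[(i + 1) % l.length]'(Nat.mod_lt _ (by omega)) := by
  unfold nx
  rw [if_pos (List.getElem_mem hi), index_getElem hl hi, List.getD_eq_getElem]

theorem formPerm_eq_nx {l : List ℕ} (hl : l.Nodup) (m : ℕ) : l.formPerm m = nx l m := by
  by_cases hm : m ∈ l
  · obtain ⟨i, hi, rfl⟩ := List.mem_iff_getElem.1 hm
    rw [nx_getElem hl hi, List.formPerm_apply_getElem _ hl]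
  · unfold nx
    rw [if_neg hm, List.formPerm_apply_of_notMem hm]

/-- the matching at time `t` -/
noncomputable def Wp (Xs : List (List ℕ)) (t : ℕ) : Perm ℕ := ((Xs.take t).map List.formPerm).prod

/-- keep the first occurrences -/
def uq (l : List ℕ) : List ℕ := l.foldr (fun a acc => a :: acc.filter fun b => !decide (b = a)) []

theorem uq_cons (a : ℕ) (l : List ℕ) : uq (a :: l) = a :: (uq l).filter fun b => !decide (b = a) :=
  rfl

theorem mem_uq {a : ℕ} : ∀ {l : List ℕ}, a ∈ uq l ↔ a ∈ l
  | [] => Iff.rfl
  | b :: l => by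
    rw [uq_cons, List.mem_cons, List.mem_filter, mem_uq (l := l), List.mem_cons]
    by_cases h : a = b <;> simp [h]

theorem uq_nodup : ∀ (l : List ℕ), (uq l).Nodup
  | [] => List.nodup_nil
  | b :: l => by
    rw [uq_cons, List.nodup_cons]
    refine ⟨by simp, (uq_nodup l).filter _⟩

theorem uq_append (l l' : List ℕ) :
    uq (l ++ l') = uq l ++ (uq l').filter fun b => !decide (b ∈ l) := by
  induction l with
  | nil => simp [uq]
  | cons a l ih =>
    rw [List.cons_append, uq_cons, ih, uq_cons, List.filter_append, List.cons_append,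
      List.filter_filter]
    congr 2
    apply List.filter_congr
    intro b _
    by_cases h1 : b = a <;> by_cases h2 : b ∈ l <;> simp [h1, h2]

theorem uq_idxOf {l l' : List ℕ} {a b : ℕ} (ha : a ∈ l) (hb : b ∉ l) :
    (uq (l ++ l')).idxOf a < (uq (l ++ l')).idxOf b := by
  rw [uq_append, List.idxOf_append_of_mem (mem_uq.2 ha),
    List.idxOf_append_of_notMem (fun h => hb (mem_uq.1 h))]
  have := List.idxOf_lt_length_of_mem (mem_uq.2 ha)
  omega

theorem uq_perm {n : ℕ} {l : List ℕ} (h : ∀ x ∈ l, x < n) :
    (uq (l ++ List.range n)).Perm (List.range n) := by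
  rw [List.perm_ext_iff_of_nodup (uq_nodup _) List.nodup_range]
  intro a
  rw [mem_uq, List.mem_append, List.mem_range]
  exact ⟨fun h' => h'.elim (h a) id, Or.inr⟩

/-- the list of the man `m` -/
noncomputable def manL (n : ℕ) (Xs : List (List ℕ)) (m : ℕ) : List ℕ :=
  uq ((List.range (Xs.length + 1)).map (fun t => (Xs.take t).foldr nx m) ++ List.range n)

/-- the list of the woman `w` -/
noncomputable def womanL (n : ℕ) (Xs : List (List ℕ)) (w : ℕ) : List ℕ :=
  uq ((List.range (Xs.length + 1)).map (fun k =>
    (Xs.take (Xs.length - k)).foldl (fun a l => nx l.reverse a) w) ++ List.range n)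

/-- the instance -/
noncomputable def inst (n : ℕ) (Xs : List (List ℕ)) : Inst :=
  ((List.range n).map (manL n Xs), (List.range n).map (womanL n Xs))

/-- conditions on the list of cycles -/
structure OkX (n : ℕ) (Xs : List (List ℕ)) : Prop where
  nodup : ∀ l ∈ Xs, l.Nodup
  two : ∀ l ∈ Xs, 2 ≤ l.length
  lt : ∀ l ∈ Xs, ∀ x ∈ l, x < n
  sep : ∀ m s t u, s ≤ t → t < u → u ≤ Xs.length → m ∈ Xs.getD t [] → Wp Xs s m ≠ Wp Xs u m

section

variable {n : ℕ} {Xs : List (List ℕ)} (h : OkX n Xs)

include h in
theorem Wp_eq (t m : ℕ) : Wp Xs t m = (Xs.take t).foldr nx m := by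
  unfold Wp
  have key : ∀ (Ys : List (List ℕ)), (∀ l ∈ Ys, l.Nodup) →
      (Ys.map List.formPerm).prod m = Ys.foldr nx m := by
    intro Ys
    induction Ys with
    | nil => intro _; rfl
    | cons l Ys ih =>
      intro hY
      rw [List.map_cons, List.prod_cons, Perm.mul_apply, ih fun l hl => hY l (by simp [hl]),
        List.foldr_cons, formPerm_eq_nx (hY l (by simp))]
  exact key _ fun l hl => h.nodup l (List.mem_of_mem_take hl)

include h in
theorem Wp_symm_eq (t w : ℕ) :
    (Wp Xs t).symm w = (Xs.take t).foldl (fun a l => nx l.reverse a) w := by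
  unfold Wp
  have key : ∀ (Ys : List (List ℕ)) (w : ℕ), (∀ l ∈ Ys, l.Nodup) →
      ((Ys.map List.formPerm).prod)⁻¹ w = Ys.foldl (fun a l => nx l.reverse a) w := by
    intro Ys
    induction Ys with
    | nil => intro w _; rfl
    | cons l Ys ih =>
      intro w hY
      rw [List.map_cons, List.prod_cons, mul_inv_rev, Perm.mul_apply,
        ih _ fun l hl => hY l (by simp [hl]), List.foldl_cons, ← List.formPerm_reverse,
        formPerm_eq_nx (List.nodup_reverse.2 (hY l (by simp)))]
  exact key _ w fun l hl => h.nodup l (List.mem_of_mem_take hl)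

theorem Wp_succ {t : ℕ} (ht : t < Xs.length) (m : ℕ) :
    Wp Xs (t + 1) m = Wp Xs t (Xs[t].formPerm m) := by
  unfold Wp
  rw [List.take_succ_eq_append_getElem ht, List.map_append, List.prod_append, Perm.mul_apply]
  simp

include h in
theorem Wp_lt (t m : ℕ) : Wp Xs t m < n ↔ m < n := by
  induction t generalizing m with
  | zero => rfl
  | succ t ih =>
    by_cases ht : t < Xs.length
    · rw [Wp_succ ht, ih]
      by_cases hm : m ∈ Xs[t]
      · have h1 := h.lt _ (List.getElem_mem ht) _ hm
        have h2 := h.lt _ (List.getElem_mem ht) _ (List.formPerm_apply_mem_of_mem hm)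
        exact ⟨fun _ => h1, fun _ => h2⟩
      · rw [List.formPerm_apply_of_notMem hm]
    · have : Wp Xs (t + 1) = Wp Xs t := by
        unfold Wp
        rw [List.take_of_length_le (by omega), List.take_of_length_le (by omega)]
      rw [this]
      exact ih m

/-- the matching at time `t` as a permutation of the agents -/
noncomputable def Wf (t : ℕ) : Perm (Fin n) where
  toFun m := ⟨Wp Xs t m, (Wp_lt h t m).2 m.2⟩
  invFun m := ⟨(Wp Xs t).symm m, by
    rw [← Wp_lt h t, Equiv.apply_symm_apply]; exact m.2⟩
  left_inv m := by simp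
  right_inv m := by simp

theorem Wf_val (t : ℕ) (m : Fin n) : (Wf h t m : ℕ) = Wp Xs t m := rfl

theorem Wf_symm_val (t : ℕ) (m : Fin n) : ((Wf h t).symm m : ℕ) = (Wp Xs t).symm m := rfl

include h in
theorem moves_iff {t : ℕ} (ht : t < Xs.length) (m : ℕ) :
    Wp Xs (t + 1) m ≠ Wp Xs t m ↔ m ∈ Xs[t] := by
  rw [Wp_succ ht]
  have hn := h.nodup _ (List.getElem_mem ht)
  have h2 := h.two _ (List.getElem_mem ht)
  constructor
  · intro h1
    by_contra hm
    apply h1
    rw [List.formPerm_apply_of_notMem hm]
  · intro hm he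
    have := (Wp Xs t).injective he
    exact (List.formPerm_apply_mem_ne_self_iff _ hn _ hm).2 h2 this

/-- the run of a list of cycles -/
noncomputable def runOf : Run (Fin n) Xs.length where
  W := Wf h
  conv := by
    intro m s t u hst htu hu he
    have he' : Wp Xs s m = Wp Xs u m := congrArg Fin.val he
    apply Fin.ext
    rw [Wf_val, Wf_val]
    by_contra hne
    obtain ⟨t', h1, h2, _, h4⟩ := exists_change (f := fun t => Wp Xs t m) hst (Ne.symm hne)
    have h5 : t' < Xs.length := by omega
    have h6 := (moves_iff h h5 m).1 h4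
    refine h.sep m s t' u h1 (by omega) hu ?_ he'
    rwa [List.getD_eq_getElem _ _ h5]
  cyc := by
    intro t ht P hP x y hx hy hPx
    set l := Xs[t] with hl
    have hn : l.Nodup := h.nodup _ (List.getElem_mem ht)
    have hx' : (x : ℕ) ∈ l := (moves_iff h ht x).1 fun he => hx (Fin.ext he)
    have hy' : (y : ℕ) ∈ l := (moves_iff h ht y).1 fun he => hy (Fin.ext he)
    obtain ⟨i, hi, hix⟩ := List.mem_iff_getElem.1 hx'
    obtain ⟨j, hj, hjy⟩ := List.mem_iff_getElem.1 hy'
    have hlt : ∀ z ∈ l, z < n := h.lt _ (List.getElem_mem ht)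
    have hlen : 0 < l.length := by omega
    have key : ∀ k : ℕ, P ⟨l[(i + k) % l.length]'(Nat.mod_lt _ hlen),
        hlt _ (List.getElem_mem _)⟩ := by
      intro k
      induction k with
      | zero =>
        have e : (i + 0) % l.length = i := Nat.mod_eq_of_lt hi
        simp only [e, hix]
        exact hPx
      | succ k ih =>
        refine hP _ _ ?_ ?_ ih
        · intro he
          have he' := congrArg Fin.val he
          rw [Wf_val, Wf_val] at he'
          exact ((moves_iff h ht _).2 (List.getElem_mem _)) he'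
        · apply Fin.ext
          rw [Wf_val, Wf_val]
          simp only
          rw [Wp_succ ht, List.formPerm_apply_getElem _ hn]
          congr 2
          rw [Nat.mod_add_mod, Nat.add_assoc]
    have h3 := key (j + l.length - i)
    have e : (i + (j + l.length - i)) % l.length = j := by
      rw [show i + (j + l.length - i) = j + l.length by omega, Nat.add_mod_right,
        Nat.mod_eq_of_lt hj]
    simp only [e, hjy] at h3
    exact h3
  ne := by
    intro t ht
    have h2 := h.two _ (List.getElem_mem ht)
    refine ⟨⟨Xs[t][0], h.lt _ (List.getElem_mem ht) _ (List.getElem_mem _)⟩, fun he => ?_⟩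
    exact (moves_iff h ht _).2 (List.getElem_mem (by omega)) (congrArg Fin.val he)

theorem runOf_D {t : ℕ} (ht : t < Xs.length) (m : Fin n) :
    (runOf h).D t m ↔ (m : ℕ) ∈ Xs[t] := by
  rw [← moves_iff h ht]
  exact not_congr ⟨fun h1 => congrArg Fin.val h1, fun h1 => Fin.ext h1⟩

theorem mrank_inst (m : Fin n) (w : ℕ) : mrank (inst n Xs) m w = (manL n Xs m).idxOf w := by
  unfold mrank inst
  simp only
  rw [List.getD_eq_getElem _ _ (by simp)]
  simp

theorem wrank_inst (w : Fin n) (m : ℕ) : wrank (inst n Xs) w m = (womanL n Xs w).idxOf m := by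
  unfold wrank inst
  simp only
  rw [List.getD_eq_getElem _ _ (by simp)]
  simp

theorem range_split (N s : ℕ) (hs : s ≤ N) (f : ℕ → ℕ) (r : List ℕ) :
    (List.range (N + 1)).map f ++ r = (List.range (s + 1)).map f ++
      ((List.range (N - s)).map (fun k => f (s + 1 + k)) ++ r) := by
  rw [show N + 1 = s + 1 + (N - s) by omega, List.range_add, List.map_append, List.map_map,
    List.append_assoc]
  congr 2

theorem pref_inst : (runOf h).Pref (fun m w => mrank (inst n Xs) m w)
    (fun w m => wrank (inst n Xs) w m) := by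
  constructor
  · intro m s w hs hw
    rw [mrank_inst, mrank_inst]
    unfold manL
    rw [range_split _ s hs]
    apply uq_idxOf
    · rw [List.mem_map]
      exact ⟨s, by simp, by rw [← Wp_eq h]; rfl⟩
    · rw [List.mem_map]
      rintro ⟨t, ht, he⟩
      rw [List.mem_range] at ht
      refine hw t (by omega) (Fin.ext ?_)
      rw [← he, ← Wp_eq h]
      rfl
  · intro w s m hs hm
    rw [wrank_inst, wrank_inst]
    unfold womanL
    rw [range_split _ (Xs.length - s) (by omega)]
    apply uq_idxOf
    · rw [List.mem_map]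
      refine ⟨Xs.length - s, by simp, ?_⟩
      rw [← Wp_symm_eq h, show Xs.length - (Xs.length - s) = s by omega]
      rfl
    · rw [List.mem_map]
      rintro ⟨k, hk, he⟩
      rw [List.mem_range] at hk
      refine hm (Xs.length - k) (by omega) (by omega) (Fin.ext ?_)
      rw [← he, ← Wp_symm_eq h]
      rfl

include h in
theorem isSM_inst : IsSM n (inst n Xs) := by
  refine ⟨by simp [inst], by simp [inst], ?_, ?_⟩
  · intro l hl
    unfold inst at hl
    simp only [List.mem_map, List.mem_range] at hl
    obtain ⟨m, hm, rfl⟩ := hl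
    refine uq_perm fun x hx => ?_
    rw [List.mem_map] at hx
    obtain ⟨t, _, rfl⟩ := hx
    rw [← Wp_eq h, Wp_lt h]
    exact hm
  · intro l hl
    unfold inst at hl
    simp only [List.mem_map, List.mem_range] at hl
    obtain ⟨m, hm, rfl⟩ := hl
    refine uq_perm fun x hx => ?_
    rw [List.mem_map] at hx
    obtain ⟨t, _, rfl⟩ := hx
    rw [← Wp_symm_eq h, ← Wp_lt h, Equiv.apply_symm_apply]
    exact hm

/-- the matching at time `1`, if `{0}` is closed -/
theorem W_one (h0 : (runOf h).Closed (fun t => t = 0)) (hN : 1 ≤ Xs.length) :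
    Stable n (inst n Xs) ((runOf h).W 1) ∧ ∀ t, (runOf h).sg ((runOf h).W 1) t ↔ t = 0 := by
  obtain ⟨M, hM⟩ := (runOf h).exists_matching h0
  have hg : ∀ x, (runOf h).good (fun t => t = 0) x 1 := fun x => ⟨hN, fun t _ _ => by omega⟩
  have e : M = (runOf h).W 1 := Equiv.ext fun x => hM x 1 (hg x)
  subst e
  refine ⟨(runOf h).stable_of_closed (pref_inst h) h0 hM, fun t => ?_⟩
  by_cases ht : t < Xs.length
  · exact (runOf h).sg_eq h0 hM ht
  · constructor
    · intro h1
      exact absurd h1.1 ht
    · intro h1
      omega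

theorem code_W (t : ℕ) : code ((runOf h).W t) = (List.range n).map fun m => (Xs.take t).foldr nx m := by
  unfold code
  apply List.ext_getElem
  · simp
  · intro i h1 h2
    simp only [List.getElem_ofFn, List.getElem_map, List.getElem_range]
    rw [← Wp_eq h]
    rfl

end

end Pool.Agent.H276R3
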